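import Mathlib
import Pool.Prelude.Def_F_458e953d

/-!
The existential theory of the reals as a language, the class it defines, and the angular
resolution problem.
-/

namespace Pool.Agent.MP_aca74d_lc.H29

open Classical

/-- Polynomial expressions with integer coefficients. -/
inductive Term where
  | var : ℕ → Term
  | const : ℤ → Term
  | add : Term → Term → Term
  | mul : Term → Term → Term

/-- The value of a term at a real assignment. -/
def Term.eval (x : ℕ → ℝ) : Term → ℝ
  | .var i => x i
  | .const c => (c : ℝ)
  | .add s t => s.eval x + t.eval x
  | .mul s t => s.eval x * t.eval x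

/-- Quantifier-free Boolean combinations of polynomial equations and inequalities. -/
inductive Formula where
  | eq : Term → Term → Formula
  | lt : Term → Term → Formula
  | le : Term → Term → Formula
  | not : Formula → Formula
  | and : Formula → Formula → Formula
  | or : Formula → Formula → Formula

/-- Truth of a formula at a real assignment. -/
def Formula.Holds (x : ℕ → ℝ) : Formula → Prop
  | .eq s t => s.eval x = t.eval x
  | .lt s t => s.eval x < t.eval x
  | .le s t => s.eval x ≤ t.eval x
  | .not φ => ¬ φ.Holds x
  | .and φ ψ => φ.Holds x ∧ ψ.Holds x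
  | .or φ ψ => φ.Holds x ∨ ψ.Holds x

/-- A term written in reverse Polish order, as a list of symbols (tag, integer argument). -/
def Term.code : Term → List (ℕ × ℤ)
  | .var i => [(0, (i : ℤ))]
  | .const c => [(1, c)]
  | .add s t => s.code ++ t.code ++ [(2, 0)]
  | .mul s t => s.code ++ t.code ++ [(3, 0)]

/-- A formula written in reverse Polish order. -/
def Formula.code : Formula → List (ℕ × ℤ)
  | .eq s t => s.code ++ t.code ++ [(4, 0)]
  | .lt s t => s.code ++ t.code ++ [(5, 0)]
  | .le s t => s.code ++ t.code ++ [(6, 0)]
  | .not φ => φ.code ++ [(7, 0)]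
  | .and φ ψ => φ.code ++ ψ.code ++ [(8, 0)]
  | .or φ ψ => φ.code ++ ψ.code ++ [(9, 0)]

/-- The existential theory of the reals: bit strings that encode (numbers in binary) a formula
whose existential closure is true. -/
noncomputable def ETR : N68a2faeb.DecisionProblem := fun w =>
  decide (∃ φ : Formula, w = N487b59b3.bitEncode φ.code ∧ ∃ x : ℕ → ℝ, φ.Holds x)

/-- The class of problems that many-one reduce in polynomial time to `ETR`. -/
def ExistsR : N68a2faeb.DecisionComplexityClass := {L | N793a5b8e.ManyOneReducible L ETR}

/-- The adjacency matrix of a graph, row by row. -/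
noncomputable def adjBits {n : ℕ} (G : SimpleGraph (Fin n)) : List Bool :=
  (List.finRange n).flatMap fun i => (List.finRange n).map fun j => decide (G.Adj i j)

/-- The angular resolution of the straight-line drawing `p` of `G`: the infimum of the angles
between two edges at a common endpoint, `⊤` if there is no such pair. -/
noncomputable def angRes {n : ℕ} (G : SimpleGraph (Fin n))
    (p : Fin n → EuclideanSpace ℝ (Fin 2)) : EReal :=
  ⨅ (v : Fin n) (a : Fin n) (b : Fin n) (_ : G.Adj v a) (_ : G.Adj v b) (_ : a ≠ b),
    ((EuclideanGeometry.angle (p a) (p v) (p b) : ℝ) : EReal)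

/-- `G` has a straight-line drawing (vertices at distinct points of the plane) with angular
resolution at least `α`; if `strict`, moreover no vertex lies on an edge not incident to it. -/
def Drawable (strict : Bool) (α : ℝ) {n : ℕ} (G : SimpleGraph (Fin n)) : Prop :=
  ∃ p : Fin n → EuclideanSpace ℝ (Fin 2), Function.Injective p ∧ (α : EReal) ≤ angRes G p ∧
    (strict = true → ∀ a b z, G.Adj a b → z ≠ a → z ≠ b → p z ∉ segment ℝ (p a) (p b))

/-- The problem AR(α): adjacency matrices of graphs that have such a drawing. -/
noncomputable def AR (strict : Bool) (α : ℝ) : N68a2faeb.DecisionProblem := fun w =>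
  decide (∃ (n : ℕ) (G : SimpleGraph (Fin n)), w = adjBits G ∧ Drawable strict α G)

end Pool.Agent.MP_aca74d_lc.H29
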