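import Mathlib
import Pool.Agent.MP_aca74d_lc.H29.Defs

/-!
A stack parser for the reverse Polish code.
-/

namespace Pool.Agent.MP_aca74d_lc.H29

open Classical

abbrev Tok := ℕ × ℤ
abbrev Tree := Term ⊕ Formula

def Tree.code : Tree → List Tok
  | .inl t => t.code
  | .inr φ => φ.code

def Tree.ty : Tree → Bool
  | .inl _ => false
  | .inr _ => true

def Tree.tm : Tree → Term
  | .inl t => t
  | .inr _ => .const 0

def Tree.fm : Tree → Formula
  | .inl _ => .eq (.const 0) (.const 0)
  | .inr φ => φ

noncomputable def Tree.val (x : ℕ → ℝ) : Tree → ℝ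
  | .inl t => t.eval x
  | .inr φ => if φ.Holds x then 1 else 0

def pop (k : Tok) : ℕ := if k.1 ≤ 1 then 0 else if k.1 = 7 then 1 else 2

def need (k : Tok) : List Bool :=
  if k.1 ≤ 1 then [] else if k.1 = 7 then [true] else if k.1 < 7 then [false, false]
  else [true, true]

def Valid (k : Tok) (tys : List Bool) : Prop :=
  k.1 ≤ 9 ∧ (k.1 ≠ 0 ∨ 0 ≤ k.2) ∧ (k.1 ≤ 1 ∨ k.2 = 0) ∧ tys.take (pop k) = need k

instance (k : Tok) (tys : List Bool) : Decidable (Valid k tys) := by
  unfold Valid; infer_instance

def build (k : Tok) (a b : Tree) : Tree :=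
  if k.1 = 0 then .inl (.var k.2.toNat)
  else if k.1 = 1 then .inl (.const k.2)
  else if k.1 = 2 then .inl (.add a.tm b.tm)
  else if k.1 = 3 then .inl (.mul a.tm b.tm)
  else if k.1 = 4 then .inr (.eq a.tm b.tm)
  else if k.1 = 5 then .inr (.lt a.tm b.tm)
  else if k.1 = 6 then .inr (.le a.tm b.tm)
  else if k.1 = 7 then .inr (.not b.fm)
  else if k.1 = 8 then .inr (.and a.fm b.fm)
  else .inr (.or a.fm b.fm)

def dT : Tree := .inl (.const 0)

def pstep (o : Option (List Tree)) (k : Tok) : Option (List Tree) :=
  o.bind fun st => if Valid k (st.map Tree.ty) then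
    some (build k (st.tail.headD dT) (st.headD dT) :: st.drop (pop k)) else none

def parse (L : List Tok) : Option (List Tree) := L.foldl pstep (some [])

lemma valid_cases {k : Tok} {st : List Tree} (h : Valid k (st.map Tree.ty)) :
    (∃ i : ℕ, k = (0, (i : ℤ))) ∨ (∃ c, k = (1, c)) ∨
    (∃ s t r, st = .inl t :: .inl s :: r ∧
      (k = (2, 0) ∨ k = (3, 0) ∨ k = (4, 0) ∨ k = (5, 0) ∨ k = (6, 0))) ∨
    (∃ φ r, st = .inr φ :: r ∧ k = (7, 0)) ∨
    (∃ φ ψ r, st = .inr ψ :: .inr φ :: r ∧ (k = (8, 0) ∨ k = (9, 0))) := by
  obtain ⟨a, c⟩ := k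
  obtain ⟨h1, h2, h3, h4⟩ := h
  simp only at h1 h2 h3
  by_cases e0 : a = 0
  · left; refine ⟨c.toNat, ?_⟩
    subst e0
    rw [Int.toNat_of_nonneg (by omega)]
  by_cases e1 : a = 1
  · right; left; exact ⟨c, by rw [e1]⟩
  have hc : c = 0 := by omega
  subst hc
  by_cases e7 : a = 7
  · subst e7
    right; right; right; left
    rcases st with _ | ⟨t | φ, r⟩
    · simp [pop, need] at h4
    · simp [pop, need, Tree.ty] at h4
    · exact ⟨φ, r, rfl, rfl⟩
  by_cases e8 : a < 7
  · right; right; left
    have hp : pop (a, 0) = 2 := by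
      simp only [pop]; rw [if_neg (by omega), if_neg e7]
    have hn : need (a, 0) = [false, false] := by
      simp only [need]; rw [if_neg (by omega), if_neg e7, if_pos e8]
    rw [hp, hn] at h4
    rcases st with _ | ⟨t | φ, _ | ⟨s | ψ, r⟩⟩ <;> simp [Tree.ty] at h4
    refine ⟨s, t, r, rfl, ?_⟩
    simp only [Prod.mk.injEq, and_true]; omega
  · right; right; right; right
    have hp : pop (a, 0) = 2 := by
      simp only [pop]; rw [if_neg (by omega), if_neg e7]
    have hn : need (a, 0) = [true, true] := by
      simp only [need]; rw [if_neg (by omega), if_neg e7, if_neg e8]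
    rw [hp, hn] at h4
    rcases st with _ | ⟨t | φ, _ | ⟨s | ψ, r⟩⟩ <;> simp [Tree.ty] at h4
    refine ⟨ψ, φ, r, rfl, ?_⟩
    simp only [Prod.mk.injEq, and_true]; omega

lemma run_term (t : Term) : ∀ st : List Tree,
    t.code.foldl pstep (some st) = some (.inl t :: st) := by
  induction t with
  | var i => intro st; simp [Term.code, pstep, Valid, pop, need, build]
  | const c => intro st; simp [Term.code, pstep, Valid, pop, need, build]
  | add s t ihs iht =>
    intro st
    simp [Term.code, List.foldl_append, ihs, iht, pstep, Valid, pop, need, build, Tree.ty, Tree.tm]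
  | mul s t ihs iht =>
    intro st
    simp [Term.code, List.foldl_append, ihs, iht, pstep, Valid, pop, need, build, Tree.ty, Tree.tm]

lemma run_formula (φ : Formula) : ∀ st : List Tree,
    φ.code.foldl pstep (some st) = some (.inr φ :: st) := by
  induction φ with
  | eq s t =>
    intro st
    simp [Formula.code, List.foldl_append, run_term, pstep, Valid, pop, need, build, Tree.ty, Tree.tm]
  | lt s t =>
    intro st
    simp [Formula.code, List.foldl_append, run_term, pstep, Valid, pop, need, build, Tree.ty, Tree.tm]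
  | le s t =>
    intro st
    simp [Formula.code, List.foldl_append, run_term, pstep, Valid, pop, need, build, Tree.ty, Tree.tm]
  | not φ ih =>
    intro st
    simp [Formula.code, List.foldl_append, ih, pstep, Valid, pop, need, build, Tree.ty, Tree.fm]
  | and φ ψ ih1 ih2 =>
    intro st
    simp [Formula.code, List.foldl_append, ih1, ih2, pstep, Valid, pop, need, build, Tree.ty, Tree.fm]
  | or φ ψ ih1 ih2 =>
    intro st
    simp [Formula.code, List.foldl_append, ih1, ih2, pstep, Valid, pop, need, build, Tree.ty, Tree.fm]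

lemma parse_code (φ : Formula) : parse φ.code = some [.inr φ] := run_formula φ []

lemma code_inj {φ ψ : Formula} (h : φ.code = ψ.code) : φ = ψ := by
  have h1 := parse_code φ
  rw [h, parse_code] at h1
  simpa using h1.symm

def flat (st : List Tree) : List Tok := st.reverse.flatMap Tree.code

lemma pstep_flat {st st' : List Tree} {k : Tok} (h : pstep (some st) k = some st') :
    flat st' = flat st ++ [k] := by
  simp only [pstep, Option.bind_some] at h
  split_ifs at h with hv
  simp only [Option.some.injEq] at h
  subst h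
  rcases valid_cases hv with ⟨i, rfl⟩ | ⟨c, rfl⟩ | ⟨s, t, r, rfl, h⟩ | ⟨φ, r, rfl, rfl⟩ |
    ⟨φ, ψ, r, rfl, h⟩
  · simp [flat, build, pop, Tree.code, Term.code]
  · simp [flat, build, pop, Tree.code, Term.code]
  · rcases h with rfl | rfl | rfl | rfl | rfl <;>
      simp [flat, build, pop, Tree.code, Term.code, Formula.code, Tree.tm]
  · simp [flat, build, pop, Tree.code, Formula.code, Tree.fm]
  · rcases h with rfl | rfl <;> simp [flat, build, pop, Tree.code, Formula.code, Tree.fm]

lemma foldl_none (L : List Tok) : L.foldl pstep none = none := by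
  induction L with
  | nil => rfl
  | cons k L ih => simpa [pstep] using ih

lemma run_flat (L : List Tok) : ∀ st st' : List Tree, L.foldl pstep (some st) = some st' →
    flat st' = flat st ++ L := by
  induction L with
  | nil => intro st st' h; simp at h; simp [h]
  | cons k L ih =>
    intro st st' h
    rw [List.foldl_cons] at h
    cases e : pstep (some st) k with
    | none => rw [e, foldl_none] at h; simp at h
    | some s =>
      rw [e] at h
      rw [ih _ _ h, pstep_flat e]; simp

lemma parse_eq {L : List Tok} {φ : Formula} (h : parse L = some [.inr φ]) : L = φ.code := by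
  have := run_flat L [] _ h
  simpa [flat, Tree.code] using this.symm

lemma ETR_code (ψ : Formula) :
    ETR (N487b59b3.bitEncode ψ.code) = true ↔ ∃ x : ℕ → ℝ, ψ.Holds x := by
  simp only [ETR, decide_eq_true_eq]
  constructor
  · rintro ⟨φ, h1, h2⟩
    rwa [code_inj (N487b59b3.bitEncode_injective h1)]
  · intro h; exact ⟨ψ, rfl, h⟩

lemma Term.eval_congr {x y : ℕ → ℝ} (t : Term) (h : ∀ i : ℕ, (0, (i : ℤ)) ∈ t.code → x i = y i) :
    t.eval x = t.eval y := by
  induction t with
  | var i => exact h i (by simp [Term.code])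
  | const c => rfl
  | add s t ihs iht =>
    simp only [Term.eval]
    rw [ihs fun i hi => h i (by simp [Term.code, hi]), iht fun i hi => h i (by simp [Term.code, hi])]
  | mul s t ihs iht =>
    simp only [Term.eval]
    rw [ihs fun i hi => h i (by simp [Term.code, hi]), iht fun i hi => h i (by simp [Term.code, hi])]

lemma Formula.holds_congr {x y : ℕ → ℝ} (φ : Formula)
    (h : ∀ i : ℕ, (0, (i : ℤ)) ∈ φ.code → x i = y i) : φ.Holds x ↔ φ.Holds y := by
  induction φ with
  | eq s t =>
    simp only [Formula.Holds]
    rw [s.eval_congr fun i hi => h i (by simp [Formula.code, hi]),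
      t.eval_congr fun i hi => h i (by simp [Formula.code, hi])]
  | lt s t =>
    simp only [Formula.Holds]
    rw [s.eval_congr fun i hi => h i (by simp [Formula.code, hi]),
      t.eval_congr fun i hi => h i (by simp [Formula.code, hi])]
  | le s t =>
    simp only [Formula.Holds]
    rw [s.eval_congr fun i hi => h i (by simp [Formula.code, hi]),
      t.eval_congr fun i hi => h i (by simp [Formula.code, hi])]
  | not φ ih =>
    simp only [Formula.Holds]
    rw [ih fun i hi => h i (by simp [Formula.code, hi])]
  | and φ ψ ih1 ih2 =>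
    simp only [Formula.Holds]
    rw [ih1 fun i hi => h i (by simp [Formula.code, hi]),
      ih2 fun i hi => h i (by simp [Formula.code, hi])]
  | or φ ψ ih1 ih2 =>
    simp only [Formula.Holds]
    rw [ih1 fun i hi => h i (by simp [Formula.code, hi]),
      ih2 fun i hi => h i (by simp [Formula.code, hi])]

end Pool.Agent.MP_aca74d_lc.H29
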