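import Mathlib
import Pool.Agent.MP_aca74d_lc.H29.Parse
import Pool.Agent.Shared.H56.Converse

/-!
Compilation of a formula into a system of equations of the form r i * r j + r k = r l.
-/

namespace Pool.Agent.MP_aca74d_lc.H29

open Classical Pool.Agent.Shared.H56

abbrev Con := ℕ × ℕ × ℕ × ℕ

def Sat (cs : List Con) (r : ℕ → ℝ) : Prop :=
  ∀ c ∈ cs, r c.1 * r c.2.1 + r c.2.2.1 = r c.2.2.2

def Bd (N : ℕ) (cs : List Con) : Prop :=
  ∀ c ∈ cs, c.1 < N ∧ c.2.1 < N ∧ c.2.2.1 < N ∧ c.2.2.2 < N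

def Base (r : ℕ → ℝ) : Prop := r 0 = 1 ∧ r 1 = 0 ∧ r 2 = 2 ∧ r 3 = -1

def horner (nx : ℕ) (c : ℤ) : List Con :=
  (0, 1, 1, nx + 1) :: (if c < 0 then 3 else 0, nx + 1 + c.natAbs.bits.length, 1, nx) ::
    c.natAbs.bits.reverse.zipIdx.map fun e =>
      (2, nx + 1 + e.2, bif e.1 then 0 else 1, nx + 1 + e.2 + 1)

def leG (s t nx : ℕ) : List Con :=
  [(nx + 1, nx + 1, t, nx + 3), (nx + 2, nx + 2, s, nx + 3), (nx + 1, nx + 2, 1, 1),
   (nx, nx + 1, 1, 1), (nx + 1, nx + 4, nx, 0)]

def gad (v : ℕ) (k : Tok) (x y nx : ℕ) : List Con :=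
  if k.1 = 0 then [(0, v, 1, nx)]
  else if k.1 = 1 then horner nx k.2
  else if k.1 = 2 then [(0, x, y, nx)]
  else if k.1 = 3 then [(x, y, 1, nx)]
  else if k.1 = 4 then [(3, x, y, nx + 1), (nx, nx + 1, 1, 1), (nx + 1, nx + 2, nx, 0)]
  else if k.1 = 5 then (3, nx + 1, 0, nx) :: leG y x (nx + 1)
  else if k.1 = 6 then leG x y nx
  else if k.1 = 7 then [(3, y, 0, nx)]
  else if k.1 = 8 then [(x, y, 1, nx)]
  else [(3, x, 0, nx + 1), (nx + 1, y, x, nx)]

noncomputable def opv (v : ℝ) (k : Tok) (a b : ℝ) : ℝ :=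
  if k.1 = 0 then v
  else if k.1 = 1 then (k.2 : ℝ)
  else if k.1 = 2 then a + b
  else if k.1 = 3 then a * b
  else if k.1 = 4 then (if a = b then 1 else 0)
  else if k.1 = 5 then (if a < b then 1 else 0)
  else if k.1 = 6 then (if a ≤ b then 1 else 0)
  else if k.1 = 7 then 1 - b
  else if k.1 = 8 then a * b
  else (1 - a) * b + a

lemma ofBE_take_succ (l : List Bool) (i : ℕ) (b : Bool) (h : l[i]? = some b) :
    ((ofBE (l.take (i + 1)) : ℕ) : ℝ) = 2 * (ofBE (l.take i) : ℕ) + (bif b then 1 else 0) := by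
  rw [List.take_add_one, h]
  simp only [ofBE, Option.toList_some, List.foldl_append, List.foldl_cons, List.foldl_nil]
  cases b <;> simp [Nat.bit_val]

lemma horner_sound {nx : ℕ} {c : ℤ} {r : ℕ → ℝ} (hb : Base r) (h : Sat (horner nx c) r) :
    r nx = c := by
  obtain ⟨b0, b1, b2, b3⟩ := hb
  set l := c.natAbs.bits.reverse with hl
  have key : ∀ i ≤ l.length, r (nx + 1 + i) = (ofBE (l.take i) : ℕ) := by
    intro i
    induction i with
    | zero =>
      intro _
      have := h (0, 1, 1, nx + 1) (by simp [horner])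
      simp only [b0, b1] at this
      simp [ofBE, ← this]
    | succ i ih =>
      intro hi
      have e : l[i]? = some l[i] := List.getElem?_eq_getElem hi
      rw [ofBE_take_succ l i _ e, ← ih (by omega)]
      have := h (2, nx + 1 + i, bif l[i] then 0 else 1, nx + 1 + i + 1) (by
        simp only [horner, List.mem_cons, List.mem_map]
        right; right
        exact ⟨(l[i], i), List.mem_zipIdx_iff_getElem?.2 e, rfl⟩)
      simp only [b2] at this
      rw [← add_assoc, ← this]
      cases l[i] <;> simp [b0, b1]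
  have h1 := key l.length le_rfl
  rw [List.take_length, hl, ofBE_reverse_bits, List.length_reverse] at h1
  have h2 := h (if c < 0 then 3 else 0, nx + 1 + c.natAbs.bits.length, 1, nx) (by simp [horner])
  simp only [h1, b1, add_zero] at h2
  rw [← h2, Nat.cast_natAbs, Int.cast_abs]
  split_ifs with hc
  · rw [b3, abs_of_neg (by exact_mod_cast hc)]; ring
  · rw [b0, abs_of_nonneg (by exact_mod_cast not_lt.1 hc)]; ring

lemma horner_ext {nx : ℕ} (c : ℤ) {r : ℕ → ℝ} (hb : Base r) (hn : 4 ≤ nx) :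
    ∃ r' : ℕ → ℝ, (∀ j < nx, r' j = r j) ∧ Sat (horner nx c) r' := by
  obtain ⟨b0, b1, b2, b3⟩ := hb
  set l := c.natAbs.bits.reverse with hl
  let r' : ℕ → ℝ := fun j => if j < nx then r j else if j = nx then c else
    (ofBE (l.take (j - (nx + 1))) : ℕ)
  have e1 : ∀ j < nx, r' j = r j := fun j hj => if_pos hj
  have e2 : r' nx = c := by simp [r']
  have e3 : ∀ i, r' (nx + 1 + i) = (ofBE (l.take i) : ℕ) := by
    intro i
    simp only [r']
    rw [if_neg (by omega), if_neg (by omega), Nat.add_sub_cancel_left]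
  refine ⟨r', e1, fun q hq => ?_⟩
  simp only [horner, List.mem_cons, List.mem_map] at hq
  rcases hq with rfl | rfl | ⟨⟨b, i⟩, hi, rfl⟩
  · have := e3 0
    simp only [add_zero] at this
    simp [this, e1 0 (by omega), e1 1 (by omega), b0, b1, ofBE]
  · have := e3 l.length
    rw [List.take_length, hl, ofBE_reverse_bits, List.length_reverse] at this
    simp only [this, e1 1 (by omega), b1, add_zero, e2]
    rw [Nat.cast_natAbs, Int.cast_abs]
    split_ifs with hc
    · rw [e1 3 (by omega), b3, abs_of_neg (by exact_mod_cast hc)]; ring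
    · rw [e1 0 (by omega), b0, abs_of_nonneg (by exact_mod_cast not_lt.1 hc)]; ring
  · have e := List.mem_zipIdx_iff_getElem?.1 hi
    simp only at e ⊢
    rw [add_assoc (nx + 1) i 1, e3, e3, ofBE_take_succ l i b e, e1 2 (by omega), b2]
    cases b <;> simp [e1 0 (by omega), e1 1 (by omega), b0, b1]

lemma leG_sound {s t nx : ℕ} {r : ℕ → ℝ} (hb : Base r) (h : Sat (leG s t nx) r) :
    r nx = if r s ≤ r t then 1 else 0 := by
  obtain ⟨b0, b1, b2, b3⟩ := hb
  simp only [Sat, leG, List.mem_cons, List.not_mem_nil, or_false, forall_eq_or_imp, forall_eq,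
    b0, b1, add_zero] at h
  obtain ⟨h1, h2, h3, h4, h5⟩ := h
  by_cases hp : r (nx + 1) = 0
  · rw [hp] at h1 h5
    rw [if_pos (by nlinarith [mul_self_nonneg (r (nx + 2))])]
    linarith
  · have h6 : r (nx + 2) = 0 := (mul_eq_zero.1 h3).resolve_left hp
    have h7 : r nx = 0 := (mul_eq_zero.1 h4).resolve_right hp
    rw [h6] at h2
    rw [if_neg (by nlinarith [mul_self_pos.2 hp]), h7]

lemma leG_ext {s t nx : ℕ} {r : ℕ → ℝ} (hb : Base r) (hn : 4 ≤ nx) (hs : s < nx) (ht : t < nx) :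
    ∃ r' : ℕ → ℝ, (∀ j < nx, r' j = r j) ∧ Sat (leG s t nx) r' := by
  obtain ⟨b0, b1, b2, b3⟩ := hb
  have key : ∀ b p q A w : ℝ, p * p + r t = A → q * q + r s = A → p * q = 0 → b * p = 0 →
      p * w + b = 1 → ∃ r' : ℕ → ℝ, (∀ j < nx, r' j = r j) ∧ Sat (leG s t nx) r' := by
    intro b p q A w h1 h2 h3 h4 h5
    let r' : ℕ → ℝ := fun j => if j < nx then r j else [b, p, q, A, w].getD (j - nx) 0
    have e1 : ∀ j < nx, r' j = r j := fun j hj => if_pos hj
    have e2 : ∀ i, r' (nx + i) = [b, p, q, A, w].getD i 0 := by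
      intro i
      simp only [r']
      rw [if_neg (by omega), Nat.add_sub_cancel_left]
    refine ⟨r', e1, ?_⟩
    have e3 := e2 0
    simp only [add_zero] at e3
    simp only [Sat, leG, List.mem_cons, List.not_mem_nil, or_false, forall_eq_or_imp, forall_eq,
      e2, e3, e1 s hs, e1 t ht, e1 0 (by omega), e1 1 (by omega), b0, b1]
    simp [h1, h2, h3, h4, h5]
  by_cases hst : r s ≤ r t
  · refine key 1 0 (Real.sqrt (r t - r s)) (r t) 0 (by simp) ?_ (by simp) (by simp) (by simp)
    rw [Real.mul_self_sqrt (by linarith)]; ring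
  · have hp : 0 < Real.sqrt (r s - r t) := Real.sqrt_pos.2 (by linarith)
    refine key 0 (Real.sqrt (r s - r t)) 0 (r s) (Real.sqrt (r s - r t))⁻¹ ?_ (by simp) (by simp)
      (by simp) (by simp [hp.ne'])
    rw [Real.mul_self_sqrt (by linarith)]; ring

lemma gad_sound {v x y nx : ℕ} {k : Tok} {r : ℕ → ℝ} (hb : Base r) (h : Sat (gad v k x y nx) r) :
    r nx = opv (r v) k (r x) (r y) := by
  have hb' := hb
  obtain ⟨b0, b1, b2, b3⟩ := hb
  unfold gad at h
  unfold opv
  split_ifs at h with h0 h1 h2 h3 h4 h5 h6 h7 h8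
  · simp [Sat, b0, b1] at h; simp [h0, h]
  · simp [h1, horner_sound hb' h]
  · simp [Sat, b0] at h; simp [h2, h]
  · simp [Sat, b1] at h; simp [h3, h]
  · simp only [Sat, List.mem_cons, List.not_mem_nil, or_false, forall_eq_or_imp, forall_eq,
      b0, b1, b3, add_zero] at h
    obtain ⟨e1, e2, e3⟩ := h
    simp only [h4]
    norm_num
    split_ifs with hxy
    · have : r (nx + 1) = 0 := by linarith
      rw [this] at e3; linarith
    · refine (mul_eq_zero.1 e2).resolve_right fun e => hxy ?_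
      linarith
  · have e1 := h _ List.mem_cons_self
    have e2 := leG_sound hb' (fun c hc => h c (List.mem_cons_of_mem _ hc))
    simp only [b0, b3, e2] at e1
    simp only [h5]
    norm_num
    rw [← e1]
    by_cases hxy : r x < r y
    · rw [if_neg (by linarith), if_pos hxy]; ring
    · rw [if_pos (by linarith), if_neg hxy]; ring
  · simp only [h6]
    norm_num
    exact leG_sound hb' h
  · simp [Sat, b0, b3] at h; simp [h7, ← h]; ring
  · simp [Sat, b1] at h; simp [h8, h]
  · simp only [Sat, List.mem_cons, List.not_mem_nil, or_false, forall_eq_or_imp, forall_eq,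
      b0, b3] at h
    obtain ⟨e1, e2⟩ := h
    simp only [h0, h1, h2, h3, h4, h5, h6, h7, h8, if_false]
    rw [← e2, ← e1]; ring

lemma ext_list {nx : ℕ} (r : ℕ → ℝ) (l : List ℝ) :
    ∃ r' : ℕ → ℝ, (∀ j < nx, r' j = r j) ∧ (∀ i, r' (nx + i) = l.getD i 0) ∧
      r' nx = l.getD 0 0 := by
  refine ⟨fun j => if j < nx then r j else l.getD (j - nx) 0, fun j hj => if_pos hj, fun i => ?_, ?_⟩
  · simp
  · simp

lemma gad_ext {v x y nx : ℕ} (k : Tok) {r : ℕ → ℝ} (hb : Base r) (hn : 4 ≤ nx) (hv : v < nx)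
    (hx : x < nx) (hy : y < nx) :
    ∃ r' : ℕ → ℝ, (∀ j < nx, r' j = r j) ∧ Sat (gad v k x y nx) r' := by
  have hb' := hb
  obtain ⟨b0, b1, b2, b3⟩ := hb
  have one : ∀ i j l : ℕ, i < nx → j < nx → l < nx →
      ∃ r' : ℕ → ℝ, (∀ j < nx, r' j = r j) ∧ Sat [(i, j, l, nx)] r' := by
    intro i j l hi hj hl
    obtain ⟨r', e1, -, e3⟩ := ext_list (nx := nx) r [r i * r j + r l]
    exact ⟨r', e1, by simp [Sat, e1 i hi, e1 j hj, e1 l hl, e3]⟩
  unfold gad
  split_ifs with h0 h1 h2 h3 h4 h5 h6 h7 h8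
  · exact one _ _ _ (by omega) hv (by omega)
  · exact horner_ext _ hb' hn
  · exact one _ _ _ (by omega) hx hy
  · exact one _ _ _ hx hy (by omega)
  · obtain ⟨r', e1, e2, e3⟩ := ext_list (nx := nx) r
      [if r x = r y then 1 else 0, r y - r x, (r y - r x)⁻¹]
    refine ⟨r', e1, ?_⟩
    simp only [Sat, List.mem_cons, List.not_mem_nil, or_false, forall_eq_or_imp, forall_eq,
      e2, e3, e1 x hx, e1 y hy, e1 0 (by omega), e1 1 (by omega), e1 3 (by omega), b0, b1, b3]
    by_cases hxy : r x = r y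
    · simp [hxy]
    · have : r y - r x ≠ 0 := fun e => hxy (by linarith)
      simp [hxy, this]; ring
  · let r1 : ℕ → ℝ := Function.update r nx (if r x < r y then 1 else 0)
    have e1 : ∀ j < nx, r1 j = r j := fun j hj => Function.update_of_ne (by omega) _ _
    have hb1 : Base r1 :=
      ⟨by rw [e1 0 (by omega), b0], by rw [e1 1 (by omega), b1], by rw [e1 2 (by omega), b2],
        by rw [e1 3 (by omega), b3]⟩
    obtain ⟨r', e2, e3⟩ := leG_ext (s := y) (t := x) (nx := nx + 1) hb1 (by omega) (by omega)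
      (by omega)
    have e4 : ∀ j < nx, r' j = r j := fun j hj => (e2 j (by omega)).trans (e1 j hj)
    have hb2 : Base r' :=
      ⟨by rw [e4 0 (by omega), b0], by rw [e4 1 (by omega), b1], by rw [e4 2 (by omega), b2],
        by rw [e4 3 (by omega), b3]⟩
    refine ⟨r', e4, fun c hc => ?_⟩
    rcases List.mem_cons.1 hc with rfl | hc
    · have e5 := leG_sound hb2 e3
      simp only [e5, e4 x hx, e4 y hy, e4 0 (by omega), e4 3 (by omega), b0, b3,
        e2 nx (by omega), r1, Function.update_self]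
      by_cases hxy : r x < r y
      · rw [if_neg (by linarith), if_pos hxy]; ring
      · rw [if_pos (by linarith), if_neg hxy]; ring
    · exact e3 c hc
  · exact leG_ext hb' hn hx hy
  · exact one _ _ _ (by omega) hy (by omega)
  · exact one _ _ _ hx hy (by omega)
  · obtain ⟨r', e1, e2, e3⟩ := ext_list (nx := nx) r [(1 - r x) * r y + r x, 1 - r x]
    refine ⟨r', e1, ?_⟩
    simp only [Sat, List.mem_cons, List.not_mem_nil, or_false, forall_eq_or_imp, forall_eq,
      e2, e3, e1 x hx, e1 y hy, e1 0 (by omega), e1 3 (by omega), b0, b3]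
    simp; ring

lemma gad_bd {v x y nx : ℕ} (k : Tok) (hn : 4 ≤ nx) (hv : v < nx) (hx : x < nx) (hy : y < nx) :
    Bd (nx + (gad v k x y nx).length) (gad v k x y nx) ∧ 0 < (gad v k x y nx).length := by
  unfold gad
  split_ifs with h0 h1 h2 h3 h4 h5 h6 h7 h8
  all_goals first
    | (simp [Bd, leG]; omega)
    | skip
  refine ⟨fun c hc => ?_, by simp [horner]⟩
  simp only [horner, List.mem_cons, List.mem_map] at hc
  simp only [horner, List.length_cons, List.length_map, List.length_zipIdx, List.length_reverse]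
  rcases hc with rfl | rfl | ⟨⟨b, i⟩, hi, rfl⟩
  · simp only; omega
  · simp only; split_ifs <;> omega
  · have := (List.mem_zipIdx' hi).1
    simp only [List.length_reverse] at this ⊢
    cases b <;> simp <;> omega

lemma gad_length (v x y nx : ℕ) (k : Tok) : (gad v k x y nx).length ≤ sz k + 6 := by
  unfold gad
  split_ifs with h0 h1 h2 h3 h4 h5 h6 h7 h8
  all_goals first
    | (simp [leG]; done)
    | skip
  obtain ⟨a, c⟩ := k
  have h2 := sz_natAbs_le c
  rw [sz, enc_nat] at h2
  simp [horner]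
  omega

lemma build_val {k : Tok} {st : List Tree} (h : Valid k (st.map Tree.ty)) (x : ℕ → ℝ) :
    (build k (st.tail.headD dT) (st.headD dT)).val x =
      opv (x k.2.toNat) k ((st.tail.headD dT).val x) ((st.headD dT).val x) ∧
    (build k (st.tail.headD dT) (st.headD dT)).ty = decide (4 ≤ k.1) := by
  rcases valid_cases h with ⟨i, rfl⟩ | ⟨c, rfl⟩ | ⟨s, t, r, rfl, h'⟩ | ⟨φ, r, rfl, rfl⟩ |
    ⟨φ, ψ, r, rfl, h'⟩
  · simp [build, opv, Tree.val, Tree.ty, Term.eval]
  · simp [build, opv, Tree.val, Tree.ty, Term.eval]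
  · rcases h' with rfl | rfl | rfl | rfl | rfl <;>
      simp [build, opv, Tree.val, Tree.ty, Term.eval, Tree.tm, Formula.Holds]
  · by_cases h1 : φ.Holds x <;> simp [build, opv, Tree.val, Tree.ty, Tree.fm, Formula.Holds, h1]
  · by_cases h1 : φ.Holds x <;> by_cases h2 : ψ.Holds x <;> rcases h' with rfl | rfl <;>
      simp [build, opv, Tree.val, Tree.ty, Tree.fm, Formula.Holds, h1, h2]

end Pool.Agent.MP_aca74d_lc.H29
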