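import Mathlib
import Pool.Agent.MP_aca74d_lc.H29.Compile

/-!
The compiler as a fold over the symbols of the code.
-/

namespace Pool.Agent.MP_aca74d_lc.H29

open Classical Pool.Agent.Shared.H56

abbrev St := List Con × List (Bool × ℕ)

def step (L : List Tok) (s : St) (k : Tok) : St :=
  if Valid k (s.2.map fun e => e.1) then
    (s.1 ++ gad (4 + L.idxOf k) k (s.2.tail.headD (false, 1)).2 (s.2.headD (false, 1)).2
      (L.length + 5 + s.1.length),
     (decide (4 ≤ k.1), L.length + 5 + s.1.length) :: s.2.drop (pop k))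
  else (s.1 ++ [(0, 0, 0, 0)], s.2)

def init : St := ([(0, 0, 1, 0), (0, 0, 0, 2), (0, 3, 0, 1)], [])

def final (s : St) : List Con :=
  s.1 ++ [if (s.2.map fun e => e.1) = [true] then (0, (s.2.headD (false, 1)).2, 1, 0)
    else (0, 0, 0, 0)]

structure Wf (L : List Tok) (s : St) : Prop where
  bd : Bd (L.length + 5 + s.1.length) s.1
  stk : ∀ e ∈ s.2, e.2 < L.length + 5 + s.1.length
  base : ∀ r : ℕ → ℝ, r 0 = 1 → Sat s.1 r → Base r

lemma Sat.append {a b : List Con} {r : ℕ → ℝ} : Sat (a ++ b) r ↔ Sat a r ∧ Sat b r := by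
  simp only [Sat, List.mem_append]
  exact ⟨fun h => ⟨fun c hc => h c (Or.inl hc), fun c hc => h c (Or.inr hc)⟩,
    fun h c hc => hc.elim (h.1 c) (h.2 c)⟩

lemma Bd.mono {N M : ℕ} {a : List Con} (h : Bd N a) (e : N ≤ M) : Bd M a := fun c hc => by
  have := h c hc; omega

lemma Bd.append {N : ℕ} {a b : List Con} (ha : Bd N a) (hb : Bd N b) : Bd N (a ++ b) :=
  fun c hc => (List.mem_append.1 hc).elim (ha c) (hb c)

lemma Sat.congr {N : ℕ} {a : List Con} {r r' : ℕ → ℝ} (hb : Bd N a) (e : ∀ j < N, r' j = r j)
    (h : Sat a r) : Sat a r' := fun c hc => by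
  obtain ⟨h1, h2, h3, h4⟩ := hb c hc
  rw [e _ h1, e _ h2, e _ h3, e _ h4]; exact h c hc

lemma headD_lt {N : ℕ} (hN : 1 < N) {l : List (Bool × ℕ)} (h : ∀ e ∈ l, e.2 < N) :
    (l.headD (false, 1)).2 < N := by
  cases l with
  | nil => exact hN
  | cons a l => exact h a List.mem_cons_self

lemma wf_init (L : List Tok) : Wf L init := by
  refine ⟨?_, by simp [init], fun r h0 h => ?_⟩
  · simp [Bd, init]
  · simp only [Sat, init, List.mem_cons, List.not_mem_nil, or_false, forall_eq_or_imp, forall_eq,
      h0] at h
    obtain ⟨h1, h2, h3⟩ := h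
    exact ⟨h0, by linarith, by linarith, by linarith⟩

lemma Wf.step {L : List Tok} {s : St} (h : Wf L s) (k : Tok) : Wf L (step L s k) := by
  unfold H29.step
  split_ifs with hv
  · have hi : L.idxOf k ≤ L.length := List.idxOf_le_length
    obtain ⟨g1, g2⟩ := gad_bd (v := 4 + L.idxOf k) (x := (s.2.tail.headD (false, 1)).2)
      (y := (s.2.headD (false, 1)).2) (nx := L.length + 5 + s.1.length) k (by omega) (by omega)
      (headD_lt (by omega) fun e he => h.stk e (List.mem_of_mem_tail he))
      (headD_lt (by omega) h.stk)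
    refine ⟨?_, fun e he => ?_, fun r h0 hr => h.base r h0 (Sat.append.1 hr).1⟩
    · simp only [List.length_append]
      exact (h.bd.mono (by omega)).append (g1.mono (by omega))
    · simp only [List.length_append]
      rcases List.mem_cons.1 he with rfl | he
      · simp only; omega
      · have := h.stk e (List.mem_of_mem_drop he); omega
  · refine ⟨?_, fun e he => ?_, fun r h0 hr => h.base r h0 (Sat.append.1 hr).1⟩
    · simp only [List.length_append]
      exact (h.bd.mono (by omega)).append (by simp [Bd])
    · have := h.stk e he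
      simp only [List.length_append]; omega

lemma Wf.foldl {L : List Tok} (M : List Tok) : ∀ {s : St}, Wf L s → Wf L (M.foldl (H29.step L) s) := by
  induction M with
  | nil => intro s h; exact h
  | cons k M ih => intro s h; exact ih (h.step k)

def asg (L : List Tok) (r : ℕ → ℝ) : ℕ → ℝ := fun i => r (4 + L.idxOf (0, (i : ℤ)))

def Rel (L : List Tok) (s : St) : Option (List Tree) → Prop
  | none => (0, 0, 0, 0) ∈ s.1
  | some ts => (s.2.map fun e => e.1) = ts.map Tree.ty ∧
      (∀ r : ℕ → ℝ, r 0 = 1 → Sat s.1 r → (s.2.map fun e => r e.2) = ts.map (Tree.val (asg L r))) ∧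
      ∀ r0 : ℕ → ℝ, Base r0 → ∃ r : ℕ → ℝ, (∀ j < L.length + 5, r j = r0 j) ∧ Sat s.1 r

lemma rel_init (L : List Tok) : Rel L init (some []) := by
  refine ⟨rfl, fun _ _ _ => rfl, fun r0 hb => ⟨r0, fun _ _ => rfl, ?_⟩⟩
  obtain ⟨b0, b1, b2, b3⟩ := hb
  simp only [Sat, init, List.mem_cons, List.not_mem_nil, or_false, forall_eq_or_imp, forall_eq,
    b0, b1, b2, b3]
  norm_num

lemma headD_val {r : ℕ → ℝ} {x : ℕ → ℝ} (h1 : r 1 = 0) {l : List (Bool × ℕ)} {ts : List Tree}
    (h : (l.map fun e => r e.2) = ts.map (Tree.val x)) :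
    r (l.headD (false, 1)).2 = (ts.headD dT).val x := by
  cases l with
  | nil =>
    cases ts with
    | nil => simp [h1, dT, Tree.val, Term.eval]
    | cons a ts => simp at h
  | cons e l =>
    cases ts with
    | nil => simp at h
    | cons a ts => simp only [List.map_cons, List.cons.injEq] at h; exact h.1

lemma Rel.step {L : List Tok} {s : St} {o : Option (List Tree)} (hw : Wf L s) (h : Rel L s o)
    (k : Tok) : Rel L (step L s k) (pstep o k) := by
  cases o with
  | none =>
    show (0, 0, 0, 0) ∈ (H29.step L s k).1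
    unfold H29.step
    split_ifs <;> exact List.mem_append_left _ h
  | some ts =>
    obtain ⟨h1, h2, h3⟩ := h
    unfold H29.step pstep
    simp only [Option.bind_some]
    rw [h1]
    split_ifs with hv
    · refine ⟨?_, fun r h0 hr => ?_, fun r0 hb => ?_⟩
      · simp only [List.map_cons, List.map_drop, h1, (build_val hv (fun _ => 0)).2]
      · obtain ⟨hr1, hr2⟩ := Sat.append.1 hr
        have hb := hw.base r h0 hr1
        have e := h2 r h0 hr1
        simp only [List.map_cons, List.map_drop, e, (build_val hv _).1, gad_sound hb hr2]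
        congr 1
        rw [headD_val hb.2.1 e, headD_val (ts := ts.tail) hb.2.1
          (by rw [List.map_tail, List.map_tail, e])]
        unfold opv
        by_cases hk : k.1 = 0
        · rw [if_pos hk, if_pos hk]
          have := hv.2.1.resolve_left (by simp [hk])
          unfold asg
          rw [Int.toNat_of_nonneg this, ← hk]
        · rw [if_neg hk, if_neg hk]
      · obtain ⟨r, e1, e2⟩ := h3 r0 hb
        have hb1 : Base r := hw.base r (by rw [e1 0 (by omega), hb.1]) e2
        have hi : L.idxOf k ≤ L.length := List.idxOf_le_length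
        obtain ⟨r', e3, e4⟩ := gad_ext (v := 4 + L.idxOf k) (x := (s.2.tail.headD (false, 1)).2)
          (y := (s.2.headD (false, 1)).2) (nx := L.length + 5 + s.1.length) k hb1 (by omega)
          (by omega) (headD_lt (by omega) fun e he => hw.stk e (List.mem_of_mem_tail he))
          (headD_lt (by omega) hw.stk)
        exact ⟨r', fun j hj => (e3 j (by omega)).trans (e1 j hj),
          Sat.append.2 ⟨e2.congr hw.bd e3, e4⟩⟩
    · show (0, 0, 0, 0) ∈ s.1 ++ [(0, 0, 0, 0)]
      simp

lemma Rel.foldl {L : List Tok} (M : List Tok) : ∀ {s : St} {o : Option (List Tree)}, Wf L s →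
    Rel L s o → Rel L (M.foldl (H29.step L) s) (M.foldl pstep o) := by
  induction M with
  | nil => intro s o _ h; exact h
  | cons k M ih => intro s o hw h; exact ih (hw.step k) (h.step hw k)

lemma not_sat {cs : List Con} {r : ℕ → ℝ} (h : (0, 0, 0, 0) ∈ cs) (h0 : r 0 = 1) : ¬ Sat cs r := by
  intro hs
  have := hs _ h
  simp [h0] at this

def compile (L : List Tok) : List Con := final (L.foldl (step L) init)

lemma compile_bd (L : List Tok) : Bd (L.length + 5 + (compile L).length) (compile L) := by
  have hw := Wf.foldl L (wf_init L)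
  unfold compile final
  simp only [List.length_append]
  refine (hw.bd.mono (by omega)).append ?_
  have := headD_lt (by omega) hw.stk
  split_ifs
  · simp only [Bd, List.mem_singleton, forall_eq]; omega
  · simp [Bd]

theorem compile_iff (L : List Tok) :
    (∃ r : ℕ → ℝ, r 0 = 1 ∧ Sat (compile L) r) ↔
      ∃ φ : Formula, L = φ.code ∧ ∃ x : ℕ → ℝ, φ.Holds x := by
  have hw := Wf.foldl L (wf_init L)
  have hr := Rel.foldl L (wf_init L) (rel_init L)
  unfold compile final
  generalize L.foldl (step L) init = s at hw hr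
  constructor
  · rintro ⟨r, h0, hs⟩
    obtain ⟨hs1, hs2⟩ := Sat.append.1 hs
    have hb := hw.base r h0 hs1
    change Rel L s (parse L) at hr
    cases e : parse L with
    | none => rw [e] at hr; exact absurd hs1 (not_sat hr h0)
    | some ts =>
      rw [e] at hr
      obtain ⟨h1, h2, -⟩ := hr
      split_ifs at hs2 with ht
      · rw [h1] at ht
        rcases ts with _ | ⟨t | φ, _ | ⟨u, ts⟩⟩ <;> simp [Tree.ty] at ht
        refine ⟨φ, parse_eq e, asg L r, ?_⟩
        have e1 := headD_val hb.2.1 (h2 r h0 hs1)
        have e2 := hs2 _ List.mem_cons_self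
        simp only [e1, h0, hb.2.1, List.headD_cons, Tree.val] at e2
        by_contra hn
        simp [hn] at e2
      · exact absurd hs2 (not_sat (by simp) h0)
  · rintro ⟨φ, hL, x, hx⟩
    change Rel L s (parse L) at hr
    have e : parse L = some [.inr φ] := by rw [hL, parse_code]
    rw [e] at hr
    obtain ⟨h1, h2, h3⟩ := hr
    obtain ⟨r, e1, e2⟩ := h3 (fun j => if j < 4 then [1, 0, 2, -1].getD j 0 else
      x (L.getD (j - 4) (0, 0)).2.toNat) (by simp [Base])
    have h0 : r 0 = 1 := by rw [e1 0 (by omega)]; simp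
    have hb := hw.base r h0 e2
    refine ⟨r, h0, Sat.append.2 ⟨e2, ?_⟩⟩
    rw [if_pos (by simp [h1, Tree.ty])]
    have e3 := headD_val hb.2.1 (h2 r h0 e2)
    have e4 : φ.Holds (asg L r) := by
      refine (φ.holds_congr fun i hi => ?_).1 hx
      rw [← hL] at hi
      have hi' := List.idxOf_lt_length_of_mem hi
      unfold asg
      rw [e1 _ (by omega), if_neg (by omega), Nat.add_sub_cancel_left,
        List.getD_eq_getElem _ _ hi', List.getElem_idxOf hi']
      simp
    simp only [Sat, List.mem_singleton, forall_eq, e3, h0, hb.2.1, List.headD_cons, Tree.val,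
      if_pos e4]
    norm_num

/-! ### Polynomial time -/

variable {α : Type} [N487b59b3 α]

@[fun_prop] theorem pt_horner {n : α → ℕ} {c : α → ℤ} (hn : PT n) (hc : PT c) :
    PT fun a => horner (n a) (c a) := by
  unfold horner; fun_prop

@[fun_prop] theorem pt_leG {s t n : α → ℕ} (hs : PT s) (ht : PT t) (hn : PT n) :
    PT fun a => leG (s a) (t a) (n a) := by
  unfold leG; fun_prop

@[fun_prop] theorem pt_gad {v x y n : α → ℕ} {k : α → Tok} (hv : PT v) (hk : PT k) (hx : PT x)
    (hy : PT y) (hn : PT n) : PT fun a => gad (v a) (k a) (x a) (y a) (n a) := by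
  unfold gad; fun_prop

@[fun_prop] theorem pt_pop {k : α → Tok} (hk : PT k) : PT fun a => pop (k a) := by
  unfold pop; fun_prop

@[fun_prop] theorem pt_need {k : α → Tok} (hk : PT k) : PT fun a => need (k a) := by
  unfold need; fun_prop

theorem pt_valid {k : α → Tok} {t : α → List Bool} (hk : PT k) (ht : PT t) :
    PT fun a => decide (Valid (k a) (t a)) := by
  refine (show PT fun a => decide ((k a).1 ≤ 9) && (decide ((k a).1 ≠ 0) || decide (0 ≤ (k a).2)) &&
    (decide ((k a).1 ≤ 1) || decide ((k a).2 = 0)) &&
    decide ((t a).take (pop (k a)) = need (k a)) by fun_prop).congr fun a => ?_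
  rw [Bool.eq_iff_iff]
  simp [Valid, and_assoc]

theorem pt_step : PT fun p : List Tok × St × Tok => step p.1 p.2.1 p.2.2 := by
  unfold step
  refine PT.ite (pt_valid (by fun_prop) (by fun_prop)) (by fun_prop) (by fun_prop)

lemma sz_list_le {β : Type} [N487b59b3 β] (l : List β) (B : ℕ) (h : ∀ x ∈ l, sz x ≤ B) :
    sz l ≤ l.length * (2 * B + 1) := by
  induction l with
  | nil => simp
  | cons a l ih =>
    have h1 := h a List.mem_cons_self
    have h2 := ih fun x hx => h x (List.mem_cons_of_mem _ hx)
    simp only [sz_cons, List.length_cons]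
    nlinarith

lemma foldl_len (L : List Tok) (B : ℕ) (M : List Tok) : ∀ s : St, (∀ k ∈ M, sz k ≤ B) →
    (M.foldl (step L) s).1.length ≤ s.1.length + M.length * (B + 6) ∧
    (M.foldl (step L) s).2.length ≤ s.2.length + M.length := by
  induction M with
  | nil => intro s _; simp
  | cons k M ih =>
    intro s h
    obtain ⟨h1, h2⟩ := ih (step L s k) fun x hx => h x (List.mem_cons_of_mem _ hx)
    have h3 := h k List.mem_cons_self
    have h4 : (step L s k).1.length ≤ s.1.length + (B + 6) ∧
        (step L s k).2.length ≤ s.2.length + 1 := by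
      unfold step
      split_ifs
      · have := gad_length (4 + L.idxOf k) (s.2.tail.headD (false, 1)).2 (s.2.headD (false, 1)).2
          (L.length + 5 + s.1.length) k
        simp only [List.length_append, List.length_cons, List.length_drop]
        omega
      · simp
    simp only [List.foldl_cons, List.length_cons]
    constructor
    · nlinarith [h4.1]
    · omega

open Polynomial in
theorem pt_run : PT fun L : List Tok => L.foldl (step L) init := by
  refine PT.foldl (f := step) (i := fun _ => init) (l := fun L => L) pt_step (by fun_prop)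
    (by fun_prop) ⟨2 * ((X * (X + 7) + 8) * (2 * (7 * (X * (X + 7) + 8) + 3) + 1)) + 1 +
      X * (2 * (3 + (X * (X + 7) + 8)) + 1), fun L k => ?_⟩
  have hw := Wf.foldl (L.take k) (wf_init L)
  obtain ⟨h1, h2⟩ := foldl_len L (sz L) (L.take k) init
    fun x hx => sz_le_of_mem (List.mem_of_mem_take hx)
  generalize (L.take k).foldl (step L) init = s at hw h1 h2
  have h3 : (L.take k).length ≤ sz L := (List.length_take_le' _ _).trans (length_le_sz L)
  have h4 := length_le_sz L
  have h5 := Nat.mul_le_mul_right (sz L + 6) h3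
  simp only [init, List.length_cons, List.length_nil] at h1 h2
  set N := sz L * (sz L + 7) + 8 with hN
  have h6 : L.length + 5 + s.1.length ≤ N := by nlinarith
  have h7 := sz_list_le s.1 (7 * N + 3) fun c hc => by
    obtain ⟨a, b, c, d⟩ := c
    obtain ⟨e1, e2, e3, e4⟩ := hw.bd _ hc
    have := sz_nat_le_self a
    have := sz_nat_le_self b
    have := sz_nat_le_self c
    have := sz_nat_le_self d
    simp only [sz_pair] at *
    omega
  have h8 := sz_list_le s.2 (3 + N) fun e he => by
    obtain ⟨a, b⟩ := e
    have e1 := hw.stk _ he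
    have := sz_nat_le_self b
    simp only [sz_pair, sz_bool] at *
    omega
  have h9 := Nat.mul_le_mul_right (2 * (7 * N + 3) + 1) (show s.1.length ≤ N by omega)
  have h10 := Nat.mul_le_mul_right (2 * (3 + N) + 1) (show s.2.length ≤ sz L by omega)
  obtain ⟨s1, s2⟩ := s
  simp only [sz_pair, eval_add, eval_mul, eval_X, eval_ofNat, eval_one, ← hN] at *
  omega

@[fun_prop] theorem pt_compile {L : α → List Tok} (hL : PT L) : PT fun a => compile (L a) := by
  have h1 : PT fun a => (L a).foldl (step (L a)) init := pt_run.comp hL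
  unfold compile final
  fun_prop

end Pool.Agent.MP_aca74d_lc.H29
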