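import Mathlib

/-!
Plane geometry in the complex numbers: pairs of vectors at angle at least sixty degrees.
-/

namespace Pool.Agent.MP_aca74d_lc.H29

open Complex

/-- The two vectors make an angle of at least sixty degrees. -/
def Sep (u w : ℂ) : Prop := 2 * (u.re * w.re + u.im * w.im) ≤ ‖u‖ * ‖w‖

/-- A primitive sixth root of unity. -/
def IsZ (ζ : ℂ) : Prop := ζ ^ 2 = ζ - 1

lemma Sep.symm {u w : ℂ} (h : Sep u w) : Sep w u := by
  unfold Sep at *; linarith [mul_comm ‖u‖ ‖w‖, mul_comm u.re w.re, mul_comm u.im w.im]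

lemma sq_norm_eq (u : ℂ) : ‖u‖ ^ 2 = u.re ^ 2 + u.im ^ 2 := by
  rw [Complex.sq_norm, normSq_apply]; ring

lemma sep_mul_left {c u w : ℂ} (hc : c ≠ 0) : Sep (c * u) (c * w) ↔ Sep u w := by
  unfold Sep
  have hpos : 0 < ‖c‖ ^ 2 := by positivity
  have h1 : (c * u).re * (c * w).re + (c * u).im * (c * w).im =
      ‖c‖ ^ 2 * (u.re * w.re + u.im * w.im) := by
    rw [sq_norm_eq]; simp only [mul_re, mul_im]; ring
  have h2 : ‖c * u‖ * ‖c * w‖ = ‖c‖ ^ 2 * (‖u‖ * ‖w‖) := by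
    rw [norm_mul, norm_mul]; ring
  rw [h1, h2]
  constructor
  · intro h
    have : ‖c‖ ^ 2 * (2 * (u.re * w.re + u.im * w.im)) ≤ ‖c‖ ^ 2 * (‖u‖ * ‖w‖) := by linarith
    exact le_of_mul_le_mul_left this hpos
  · intro h
    have := mul_le_mul_of_nonneg_left h hpos.le
    linarith

lemma sep_scale {r s : ℝ} (hr : 0 < r) (hs : 0 < s) {u w : ℂ} (h : Sep u w) :
    Sep ((r : ℂ) * u) ((s : ℂ) * w) := by
  unfold Sep at *
  simp only [mul_re, mul_im, ofReal_re, ofReal_im, zero_mul, sub_zero, add_zero, norm_mul,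
    Complex.norm_real, Real.norm_eq_abs, abs_of_pos hr, abs_of_pos hs]
  have := mul_le_mul_of_nonneg_left h (mul_pos hr hs).le
  nlinarith

lemma IsZ.re_im {ζ : ℂ} (h : IsZ ζ) : ζ.re = 1 / 2 ∧ ζ.im ^ 2 = 3 / 4 := by
  unfold IsZ at h
  have h1 := congrArg Complex.re h
  have h2 := congrArg Complex.im h
  simp only [pow_two, mul_re, mul_im, sub_re, sub_im, one_re, one_im] at h1 h2
  have h3 : ζ.im ≠ 0 := by
    intro h0
    rw [h0] at h1
    nlinarith [sq_nonneg (ζ.re - 1 / 2)]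
  have h4 : ζ.re = 1 / 2 := by
    have : ζ.im * (2 * ζ.re - 1) = 0 := by linarith
    rcases mul_eq_zero.1 this with h | h
    · exact absurd h h3
    · linarith
  refine ⟨h4, ?_⟩
  rw [h4] at h1
  nlinarith

lemma IsZ.im_ne {ζ : ℂ} (h : IsZ ζ) : ζ.im ≠ 0 := by
  intro h0
  have := h.re_im.2
  rw [h0] at this
  norm_num at this

lemma IsZ.norm_eq {ζ : ℂ} (h : IsZ ζ) : ‖ζ‖ = 1 := by
  have h1 := sq_norm_eq ζ
  rw [h.re_im.1, h.re_im.2] at h1
  have := norm_nonneg ζ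
  nlinarith

lemma IsZ.ne_zero {ζ : ℂ} (h : IsZ ζ) : ζ ≠ 0 := by
  intro h0
  have := h.norm_eq
  rw [h0] at this
  simp at this

lemma IsZ.coord {ζ : ℂ} (h : IsZ ζ) {α β α' β' : ℝ}
    (e : (α : ℂ) + β * ζ = α' + β' * ζ) : α = α' ∧ β = β' := by
  have h1 := congrArg Complex.re e
  have h2 := congrArg Complex.im e
  simp only [add_re, add_im, mul_re, mul_im, ofReal_re, ofReal_im, zero_mul, sub_zero, add_zero,
    zero_add] at h1 h2
  have h3 : β = β' := mul_right_cancel₀ h.im_ne h2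
  rw [h3] at h1
  exact ⟨by linarith, h3⟩

lemma IsZ.eq_or {ζ ζ' : ℂ} (h : IsZ ζ) (h' : IsZ ζ') : ζ' = ζ ∨ ζ' = 1 - ζ := by
  unfold IsZ at h h'
  have : (ζ' - ζ) * (ζ' - (1 - ζ)) = 0 := by linear_combination h' - h
  rcases mul_eq_zero.1 this with h1 | h1
  · left; linear_combination h1
  · right; linear_combination h1

lemma law_cos (u w : ℂ) (h : Sep u w) : ‖u‖ ^ 2 + ‖w‖ ^ 2 - ‖u‖ * ‖w‖ ≤ ‖u - w‖ ^ 2 := by
  unfold Sep at h
  rw [sq_norm_eq (u - w), sq_norm_eq u, sq_norm_eq w]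
  simp only [sub_re, sub_im]
  nlinarith

/-- A triangle all of whose angles are at least sixty degrees is equilateral. -/
lemma tri {a b c : ℂ} (hab : a ≠ b) (h1 : Sep (b - a) (c - a)) (h2 : Sep (a - b) (c - b))
    (h3 : Sep (a - c) (b - c)) : ∃ ζ, IsZ ζ ∧ c - a = ζ * (b - a) := by
  have k1 := law_cos _ _ h1
  have k2 := law_cos _ _ h2
  have k3 := law_cos _ _ h3
  have e1 : b - a - (c - a) = b - c := by ring
  have e2 : a - b - (c - b) = a - c := by ring
  have e3 : a - c - (b - c) = a - b := by ring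
  rw [e1] at k1; rw [e2] at k2; rw [e3] at k3
  rw [norm_sub_rev a b, norm_sub_rev c b, norm_sub_rev a c] at k2
  rw [norm_sub_rev a c, norm_sub_rev a b] at k3
  set A := ‖b - c‖ with hA
  set B := ‖c - a‖ with hB
  set C := ‖b - a‖ with hC
  have hAB : A = B := by nlinarith [sq_nonneg (A - B), sq_nonneg (B - C), sq_nonneg (A - C)]
  have hBC : B = C := by nlinarith [sq_nonneg (A - B), sq_nonneg (B - C), sq_nonneg (A - C)]
  have hne : b - a ≠ 0 := sub_ne_zero.2 hab.symm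
  refine ⟨(c - a) / (b - a), ?_, by field_simp⟩
  set z := (c - a) / (b - a) with hz
  have n1 : ‖z‖ = 1 := by
    rw [hz, norm_div, ← hB, ← hC, hBC]
    exact div_self (by rw [hC]; exact norm_ne_zero_iff.2 hne)
  have n2 : ‖z - 1‖ = 1 := by
    have : z - 1 = -(b - c) / (b - a) := by rw [hz]; field_simp; ring
    rw [this, norm_div, norm_neg, ← hA, ← hC, hAB, hBC]
    exact div_self (by rw [hC]; exact norm_ne_zero_iff.2 hne)
  have m1 := sq_norm_eq z
  have m2 := sq_norm_eq (z - 1)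
  rw [n1] at m1; rw [n2] at m2
  simp only [sub_re, sub_im, one_re, one_im, sub_zero] at m2
  have hre : z.re = 1 / 2 := by nlinarith
  unfold IsZ
  apply Complex.ext
  · simp only [pow_two, mul_re, sub_re, one_re]; nlinarith
  · simp only [pow_two, mul_im, sub_im, one_im]; rw [hre]; ring

lemma rhomb {a b c d ζ ζ' : ℂ} (hcd : c ≠ d) (hζ : IsZ ζ) (hζ' : IsZ ζ')
    (hc : c - a = ζ * (b - a)) (hd : d - a = ζ' * (b - a)) : d = a + b - c := by
  rcases hζ.eq_or hζ' with h | h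
  · exfalso; apply hcd; rw [h] at hd; linear_combination hc - hd
  · rw [h] at hd; linear_combination hc + hd

/-- The sixth edge at a vertex carrying a fan of four triangles is forced. -/
lemma ray {ζ u z : ℂ} (hζ : IsZ ζ) (hu : u ≠ 0) (hz : z ≠ 0)
    (h1 : Sep z (u * ζ)) (h2 : Sep z (u * (ζ - 1))) (h3 : Sep z (u * (-1)))
    (h4 : Sep z (u * (-ζ))) (h5 : Sep z (u * (1 - ζ))) : ∃ r : ℝ, 0 < r ∧ z = r * u := by
  obtain ⟨y, rfl⟩ : ∃ y, z = u * y := ⟨z / u, by field_simp⟩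
  rw [sep_mul_left hu] at h1 h2 h3 h4 h5
  have hy : y ≠ 0 := by rintro rfl; simp at hz
  obtain ⟨hre, him⟩ := hζ.re_im
  have n1 : ‖ζ - 1‖ = 1 := by
    have : ζ - 1 = ζ ^ 2 := hζ.symm
    rw [this, norm_pow, hζ.norm_eq]; norm_num
  have n2 : ‖1 - ζ‖ = 1 := by rw [norm_sub_rev]; exact n1
  unfold Sep at h1 h2 h3 h4 h5
  simp only [hζ.norm_eq, n1, n2, norm_neg, norm_one, sub_re, sub_im, one_re, one_im, neg_re,
    neg_im, hre, mul_one] at h1 h2 h3 h4 h5
  have hN := sq_norm_eq y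
  have hN0 := norm_nonneg y
  set N := ‖y‖
  set t := y.im * ζ.im with ht
  have ht2 : t ^ 2 = 3 / 4 * y.im ^ 2 := by rw [ht, mul_pow, him]; ring
  have a1 : y.re + 2 * t ≤ N := by linarith
  have a2 : -y.re + 2 * t ≤ N := by linarith
  have a4 : -y.re - 2 * t ≤ N := by linarith
  have a5 : y.re - 2 * t ≤ N := by linarith
  have him0 : y.im = 0 := by
    have b1 : (y.re + 2 * t) ^ 2 ≤ N ^ 2 := by
      apply sq_le_sq'; linarith; linarith
    have b2 : (y.re - 2 * t) ^ 2 ≤ N ^ 2 := by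
      apply sq_le_sq'; linarith; linarith
    have : y.im ^ 2 ≤ 0 := by nlinarith
    exact pow_eq_zero_iff (two_ne_zero) |>.1 (le_antisymm this (sq_nonneg _))
  have hre0 : y.re ≠ 0 := fun h => hy (Complex.ext h him0)
  have hpos : 0 < y.re := by
    rw [him0] at hN h3
    by_contra hneg
    have hlt : y.re < 0 := lt_of_le_of_ne (not_lt.1 hneg) hre0
    nlinarith
  refine ⟨y.re, hpos, ?_⟩
  have : y = (y.re : ℂ) := Complex.ext (by simp) (by simp [him0])
  rw [mul_comm]; congr 1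

end Pool.Agent.MP_aca74d_lc.H29
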