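import Mathlib
import Pool.Agent.MP_aca74d_lc.H29.Defs
import Pool.Agent.MP_aca74d_lc.H29.Basic

/-!
Drawings with angular resolution at least sixty degrees, in complex coordinates.
-/

namespace Pool.Agent.MP_aca74d_lc.H29

open Real

def DrawC (strict : Bool) {n : ℕ} (G : SimpleGraph (Fin n)) : Prop :=
  ∃ q : Fin n → ℂ, Function.Injective q ∧
    (∀ v a b, G.Adj v a → G.Adj v b → a ≠ b → Sep (q a - q v) (q b - q v)) ∧
    (strict = true → ∀ a b z, G.Adj a b → z ≠ a → z ≠ b → q z ∉ segment ℝ (q a) (q b))

lemma angle_iff (u w : ℂ) : π / 3 ≤ InnerProductGeometry.angle u w ↔ Sep u w := by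
  have h3 : arccos (1 / 2) = π / 3 := by
    rw [← cos_pi_div_three, arccos_cos] <;> linarith [pi_pos]
  have hi : inner ℝ u w = u.re * w.re + u.im * w.im := by
    rw [Complex.inner]; simp; ring
  unfold InnerProductGeometry.angle Sep
  rw [← hi, ← h3]
  have hc := real_inner_le_norm u w
  rcases (mul_nonneg (norm_nonneg u) (norm_nonneg w)).eq_or_lt with h0 | h0
  · rw [← h0] at hc ⊢
    simp only [div_zero]
    exact ⟨fun _ => by linarith, fun _ => arccos_le_arccos (by norm_num)⟩
  · constructor
    · intro h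
      by_contra hn
      refine absurd h (not_le.2 (arccos_lt_arccos (by norm_num) ?_ ?_))
      · rw [lt_div_iff₀ h0]; linarith
      · rw [div_le_one h0]; exact hc
    · intro h
      refine arccos_le_arccos ?_
      rw [div_le_iff₀ h0]; linarith

lemma angle_iff' (e : ℂ ≃ₗᵢ[ℝ] EuclideanSpace ℝ (Fin 2)) (a v b : ℂ) :
    π / 3 ≤ EuclideanGeometry.angle (e a) (e v) (e b) ↔ Sep (a - v) (b - v) := by
  rw [← angle_iff, EuclideanGeometry.angle, vsub_eq_sub, vsub_eq_sub, ← map_sub, ← map_sub]
  have := LinearIsometry.angle_map e.toLinearIsometry (a - v) (b - v)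
  simp only [LinearIsometryEquiv.coe_toLinearIsometry] at this
  rw [this]

lemma segment_iff (e : ℂ ≃ₗᵢ[ℝ] EuclideanSpace ℝ (Fin 2)) (a b z : ℂ) :
    e z ∈ segment ℝ (e a) (e b) ↔ z ∈ segment ℝ a b := by
  have := image_segment ℝ e.toLinearEquiv.toLinearMap.toAffineMap a b
  simp only [LinearMap.coe_toAffineMap, LinearEquiv.coe_coe,
    LinearIsometryEquiv.coe_toLinearEquiv] at this
  rw [← this]
  exact e.injective.mem_set_image

theorem drawable_iff (strict : Bool) {n : ℕ} (G : SimpleGraph (Fin n)) :
    Drawable strict (π / 3) G ↔ DrawC strict G := by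
  let e : ℂ ≃ₗᵢ[ℝ] EuclideanSpace ℝ (Fin 2) := Complex.orthonormalBasisOneI.repr
  unfold Drawable DrawC angRes
  simp only [le_iInf_iff, EReal.coe_le_coe_iff]
  constructor
  · rintro ⟨p, h1, h2, h3⟩
    refine ⟨fun i => e.symm (p i), e.symm.injective.comp h1, fun v a b ha hb hab => ?_,
      fun hs a b z hab hza hzb => ?_⟩
    · rw [← angle_iff' e]; simpa using h2 v a b ha hb hab
    · rw [← segment_iff e]; simpa using h3 hs a b z hab hza hzb
  · rintro ⟨q, h1, h2, h3⟩
    refine ⟨fun i => e (q i), e.injective.comp h1, fun v a b ha hb hab => ?_,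
      fun hs a b z hab hza hzb => ?_⟩
    · rw [angle_iff' e]; exact h2 v a b ha hb hab
    · rw [segment_iff e]; exact h3 hs a b z hab hza hzb

lemma sep_iff (u w : ℂ) : Sep u w ↔ u.re * w.re + u.im * w.im ≤ 0 ∨
    4 * ((u.re * w.re + u.im * w.im) * (u.re * w.re + u.im * w.im)) ≤
      (u.re * u.re + u.im * u.im) * (w.re * w.re + w.im * w.im) := by
  unfold Sep
  have h0 := mul_nonneg (norm_nonneg u) (norm_nonneg w)
  have h1 : (u.re * u.re + u.im * u.im) * (w.re * w.re + w.im * w.im) = (‖u‖ * ‖w‖) ^ 2 := by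
    rw [mul_pow, sq_norm_eq, sq_norm_eq]; ring
  rw [h1]
  generalize u.re * w.re + u.im * w.im = s at *
  generalize ‖u‖ * ‖w‖ = t at *
  constructor
  · intro h
    rcases le_total s 0 with hs | hs
    · exact Or.inl hs
    · right; nlinarith
  · rintro (h | h)
    · linarith
    · by_contra hn
      nlinarith

lemma mem_segment_iff (a b z : ℂ) : z ∈ segment ℝ a b ↔
    (z.re - a.re) * (z.im - b.im) = (z.im - a.im) * (z.re - b.re) ∧
      (z.re - a.re) * (z.re - b.re) + (z.im - a.im) * (z.im - b.im) ≤ 0 := by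
  constructor
  · rintro ⟨s, t, hs, ht, hst, rfl⟩
    have e : s = 1 - t := by linarith
    subst e
    simp only [Complex.add_re, Complex.add_im, Complex.real_smul, Complex.mul_re, Complex.mul_im,
      Complex.ofReal_re, Complex.ofReal_im, zero_mul, sub_zero, add_zero]
    refine ⟨by ring, ?_⟩
    nlinarith [mul_nonneg (mul_nonneg hs ht) (mul_self_nonneg (a.re - b.re)),
      mul_nonneg (mul_nonneg hs ht) (mul_self_nonneg (a.im - b.im))]
  · rintro ⟨h1, h2⟩
    by_cases hab : a = b
    · subst hab
      have e1 : z.re - a.re = 0 := by nlinarith [mul_self_nonneg (z.re - a.re), mul_self_nonneg (z.im - a.im)]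
      have e2 : z.im - a.im = 0 := by nlinarith [mul_self_nonneg (z.re - a.re), mul_self_nonneg (z.im - a.im)]
      have : z = a := Complex.ext (by linarith) (by linarith)
      rw [this]; exact left_mem_segment _ _ _
    · set D := (b.re - a.re) * (b.re - a.re) + (b.im - a.im) * (b.im - a.im) with hD
      have hD0 : 0 < D := by
        by_contra hn
        refine hab (Complex.ext ?_ ?_) <;>
          nlinarith [mul_self_nonneg (b.re - a.re), mul_self_nonneg (b.im - a.im)]
      set N := (z.re - a.re) * (b.re - a.re) + (z.im - a.im) * (b.im - a.im) with hN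
      have hN0 : 0 ≤ N := by nlinarith [mul_self_nonneg (z.re - a.re), mul_self_nonneg (z.im - a.im)]
      have hN1 : N ≤ D := by nlinarith [mul_self_nonneg (z.re - b.re), mul_self_nonneg (z.im - b.im)]
      refine ⟨1 - N / D, N / D, ?_, div_nonneg hN0 hD0.le, by ring, Complex.ext ?_ ?_⟩
      · rw [sub_nonneg, div_le_one hD0]; exact hN1
      · simp only [Complex.add_re, Complex.real_smul, Complex.mul_re,
          Complex.ofReal_re, Complex.ofReal_im, zero_mul, sub_zero]
        field_simp
        rw [hD, hN]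
        linear_combination (b.im - a.im) * h1
      · simp only [Complex.add_im, Complex.real_smul, Complex.mul_im,
          Complex.ofReal_re, Complex.ofReal_im, zero_mul, add_zero]
        field_simp
        rw [hD, hN]
        linear_combination (a.re - b.re) * h1

end Pool.Agent.MP_aca74d_lc.H29
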