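import Mathlib
import Pool.Agent.MP_aca74d_lc.H29.Basic

/-!
The universal rigid patch: 36 points of the triangular lattice, twelve of which (the fans,
numbered 0 to 11) have five neighbours and one free lattice direction.
-/

namespace Pool.Agent.MP_aca74d_lc.H29

open Complex

def posL : List (ℤ × ℤ) :=
  [(2, 1), (-1, 3), (-3, 2), (-2, -1), (1, -3), (3, -2), (3, -1), (1, 2), (-2, 3), (-3, 1),
   (-1, -2), (2, -3), (3, 0), (0, 3), (-3, 3), (-3, 0), (0, -3), (3, -3), (2, 2), (-2, 4),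
   (-4, 2), (-2, -2), (2, -4), (4, -2), (-2, 0), (-2, 1), (-2, 2), (-1, -1), (-1, 2), (0, -2),
   (0, 2), (1, -2), (1, 1), (2, -2), (2, -1), (2, 0)]

def pos (v : ℕ) : ℤ × ℤ := posL.getD v (0, 0)

def UE : List (ℕ × ℕ) :=
  [(0, 18), (0, 7), (0, 32), (0, 35), (0, 12), (1, 13), (1, 19), (1, 8), (1, 28), (1, 30),
   (2, 26), (2, 14), (2, 20), (2, 9), (2, 25), (3, 27), (3, 24), (3, 15), (3, 21), (3, 10),
   (4, 11), (4, 31), (4, 29), (4, 16), (4, 22), (5, 23), (5, 6), (5, 34), (5, 33), (5, 17),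
   (6, 12), (6, 35), (6, 34), (6, 23), (7, 18), (7, 13), (7, 30), (7, 32), (8, 19), (8, 14),
   (8, 26), (8, 28), (9, 25), (9, 20), (9, 15), (9, 24), (10, 29), (10, 27), (10, 21), (10, 16),
   (11, 17), (11, 33), (11, 31), (11, 22), (12, 35), (13, 30), (14, 26), (15, 24), (16, 29),
   (17, 33), (24, 25), (24, 27), (25, 26), (26, 28), (27, 29), (28, 30), (29, 31), (30, 32),
   (31, 33), (32, 35), (33, 34), (34, 35)]

def tabL : List (List ℕ) :=
  [[99, 18, 7, 32, 35, 12], [13, 99, 19, 8, 28, 30], [26, 14, 99, 20, 9, 25],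
   [27, 24, 15, 99, 21, 10], [11, 31, 29, 16, 99, 22], [23, 6, 34, 33, 17, 99],
   [99, 12, 35, 34, 5, 23], [18, 99, 13, 30, 32, 0], [1, 19, 99, 14, 26, 28],
   [25, 2, 20, 99, 15, 24], [29, 27, 3, 21, 99, 16], [17, 33, 31, 4, 22, 99],
   [99, 99, 0, 35, 6, 99], [99, 99, 99, 1, 30, 7], [8, 99, 99, 99, 2, 26],
   [24, 9, 99, 99, 99, 3], [4, 29, 10, 99, 99, 99], [99, 5, 33, 11, 99, 99],
   [99, 99, 99, 7, 0, 99], [99, 99, 99, 99, 8, 1], [2, 99, 99, 99, 99, 9],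
   [10, 3, 99, 99, 99, 99], [99, 11, 4, 99, 99, 99], [99, 99, 6, 5, 99, 99],
   [99, 25, 9, 15, 3, 27], [99, 26, 2, 9, 24, 99], [28, 8, 14, 2, 25, 99],
   [99, 99, 24, 3, 10, 29], [30, 1, 8, 26, 99, 99], [31, 99, 27, 10, 16, 4],
   [7, 13, 1, 28, 99, 32], [33, 99, 99, 29, 4, 11], [0, 7, 30, 99, 99, 35],
   [5, 34, 99, 31, 11, 17], [6, 35, 99, 99, 33, 5], [12, 0, 32, 99, 34, 6]]

/-- The neighbour of patch vertex `v` in lattice direction `k`, or `99`. -/
def tab (v k : ℕ) : ℕ := (tabL.getD v []).getD k 99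

def dirv (k : ℕ) : ℤ × ℤ :=
  [((1 : ℤ), (0 : ℤ)), (0, 1), (-1, 1), (-1, 0), (0, -1), (1, -1)].getD k (0, 0)

noncomputable def lat (ζ : ℂ) (z : ℤ × ℤ) : ℂ := (z.1 : ℂ) + (z.2 : ℂ) * ζ

def UAdj (v w : ℕ) : Prop := (v, w) ∈ UE ∨ (w, v) ∈ UE

instance (v w : ℕ) : Decidable (UAdj v w) := by unfold UAdj; infer_instance

lemma UAdj.symm {v w : ℕ} (h : UAdj v w) : UAdj w v := Or.symm h

lemma lat_add (ζ : ℂ) (z w : ℤ × ℤ) : lat ζ (z + w) = lat ζ z + lat ζ w := by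
  simp only [lat, Prod.fst_add, Prod.snd_add]; push_cast; ring

def chainL : List (ℕ × ℕ × ℕ × ℕ) :=
  [(14, 26, 2, 8), (2, 26, 14, 25), (2, 25, 26, 9), (2, 9, 25, 20), (9, 25, 2, 24),
   (9, 24, 25, 15), (15, 24, 9, 3), (3, 24, 15, 27), (3, 27, 24, 10), (3, 10, 27, 21),
   (8, 26, 14, 28), (8, 28, 26, 1), (1, 8, 28, 19), (10, 27, 3, 29), (10, 29, 27, 16),
   (16, 29, 10, 4), (1, 28, 8, 30), (1, 30, 28, 13), (13, 30, 1, 7), (4, 29, 16, 31),
   (4, 31, 29, 11), (4, 11, 31, 22), (7, 30, 13, 32), (7, 32, 30, 0), (0, 7, 32, 18),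
   (11, 31, 4, 33), (11, 33, 31, 17), (17, 33, 11, 5), (5, 33, 17, 34), (5, 34, 33, 6),
   (5, 6, 34, 23), (0, 32, 7, 35), (0, 35, 32, 12)]

def chainOK : List ℕ → List (ℕ × ℕ × ℕ × ℕ) → Prop
  | known, [] => ∀ v < 36, v ∈ known
  | known, (a, b, c, d) :: rest =>
    (a ∈ known ∧ b ∈ known ∧ c ∈ known ∧ UAdj a b ∧ UAdj a c ∧ UAdj b c ∧ UAdj a d ∧ UAdj b d ∧
      a ≠ b ∧ b ≠ c ∧ a ≠ c ∧ b ≠ d ∧ a ≠ d ∧ c ≠ d ∧ a < 36 ∧ b < 36 ∧ c < 36 ∧ d < 36 ∧
      pos c + pos d = pos a + pos b) ∧ chainOK (d :: known) rest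

instance chainOKDec : ∀ known l, Decidable (chainOK known l)
  | known, [] => by unfold chainOK; infer_instance
  | known, (a, b, c, d) :: rest => by
    unfold chainOK
    have := chainOKDec (d :: known) rest
    infer_instance

lemma chain_ok : chainOK [2, 26, 14] chainL := by decide +kernel

section Rigid

variable (q : ℕ → ℂ) (inj : ∀ v < 36, ∀ w < 36, q v = q w → v = w)
  (sep : ∀ v a b, UAdj v a → UAdj v b → a ≠ b → Sep (q a - q v) (q b - q v))

include inj sep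

lemma tri_local {a b c : ℕ} (ha : a < 36) (hb : b < 36) (hab : UAdj a b) (hac : UAdj a c)
    (hbc : UAdj b c) (nab : a ≠ b) (nbc : b ≠ c) (nac : a ≠ c) :
    ∃ ζ, IsZ ζ ∧ q c - q a = ζ * (q b - q a) :=
  tri (fun h => nab (inj a ha b hb h)) (sep a b c hab hac nbc) (sep b a c hab.symm hbc nac)
    (sep c a b hac.symm hbc.symm nab)

lemma chain_rigid (A B ζ : ℂ) : ∀ (l : List (ℕ × ℕ × ℕ × ℕ)) (known : List ℕ),
    chainOK known l → (∀ v ∈ known, q v = A + B * lat ζ (pos v)) →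
    ∀ v < 36, q v = A + B * lat ζ (pos v) := by
  intro l
  induction l with
  | nil => intro known h hk v hv; exact hk v (h v hv)
  | cons e rest ih =>
    obtain ⟨a, b, c, d⟩ := e
    rintro known ⟨⟨ka, kb, kc, hab, hac, hbc, had, hbd, nab, nbc, nac, nbd, nad, ncd, la, lb, lc,
      ld, hpos⟩, hrest⟩ hk
    refine ih (d :: known) hrest ?_
    intro v hv
    rcases List.mem_cons.1 hv with rfl | hv
    · obtain ⟨z1, hz1, e1⟩ := tri_local q inj sep la lb hab hac hbc nab nbc nac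
      obtain ⟨z2, hz2, e2⟩ := tri_local q inj sep la lb hab had hbd nab nbd nad
      have := rhomb (fun h => ncd (inj c lc v ld h)) hz1 hz2 e1 e2
      have hl := congrArg (lat ζ) hpos
      rw [lat_add, lat_add] at hl
      rw [this, hk a ka, hk b kb, hk c kc]
      linear_combination (-B) * hl
    · exact hk v hv

theorem rigid : ∃ A B ζ : ℂ, B ≠ 0 ∧ IsZ ζ ∧ ∀ v < 36, q v = A + B * lat ζ (pos v) := by
  obtain ⟨ζ, hζ, e⟩ := tri_local q inj sep (a := 2) (b := 26) (c := 14) (by norm_num)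
    (by norm_num) (by decide) (by decide) (by decide) (by norm_num) (by norm_num) (by norm_num)
  refine ⟨q 2 - (q 26 - q 2) * lat ζ (pos 2), q 26 - q 2, ζ, ?_, hζ, ?_⟩
  · intro h
    have := inj 26 (by norm_num) 2 (by norm_num) (by linear_combination h)
    omega
  · apply chain_rigid q inj sep _ _ ζ chainL _ chain_ok
    intro v hv
    simp only [List.mem_cons, List.not_mem_nil, or_false] at hv
    rcases hv with rfl | rfl | rfl
    · ring
    · simp [lat, pos, posL]; ring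
    · simp [lat, pos, posL]; linear_combination e

end Rigid

lemma IsZ.pow3 {ζ : ℂ} (h : IsZ ζ) : ζ ^ 3 = -1 := by
  unfold IsZ at h; linear_combination (ζ + 1) * h

lemma IsZ.pow6 {ζ : ℂ} (h : IsZ ζ) : ζ ^ 6 = 1 := by
  have := h.pow3
  linear_combination (ζ ^ 3 - 1) * this

lemma lat_dirv {ζ : ℂ} (h : IsZ ζ) {k : ℕ} (hk : k < 6) : lat ζ (dirv k) = ζ ^ k := by
  have h3 := h.pow3
  unfold IsZ at h
  interval_cases k <;> simp [lat, dirv]
  · linear_combination -h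
  · linear_combination -h3
  · linear_combination (-ζ) * h3
  · linear_combination (-ζ ^ 2) * h3 + h

lemma pow_mod6 {ζ : ℂ} (h : IsZ ζ) (k : ℕ) : ζ ^ (k % 6) = ζ ^ k := by
  conv_rhs => rw [← Nat.mod_add_div k 6, pow_add, pow_mul, h.pow6, one_pow, mul_one]

lemma fan_table : ∀ f < 12, ∀ j < 5, UAdj f (tab f ((f % 6 + j + 1) % 6)) ∧
    tab f ((f % 6 + j + 1) % 6) < 36 ∧
    pos (tab f ((f % 6 + j + 1) % 6)) = pos f + dirv ((f % 6 + j + 1) % 6) := by
  decide +kernel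

/-- The extra edge at a fan leaves in the free lattice direction. -/
theorem fan_ray (q : ℕ → ℂ) {A B ζ : ℂ} (hB : B ≠ 0) (hζ : IsZ ζ)
    (hq : ∀ v < 36, q v = A + B * lat ζ (pos v)) {f : ℕ} (hf : f < 12) {z : ℂ} (hz : z ≠ q f)
    (hs : ∀ w, UAdj f w → Sep (z - q f) (q w - q f)) :
    ∃ r : ℝ, 0 < r ∧ z = q f + r * (B * ζ ^ (f % 6)) := by
  have key : ∀ j < 5, Sep (z - q f) (B * ζ ^ (f % 6) * ζ ^ (j + 1)) := by
    intro j hj
    obtain ⟨h1, h2, h3⟩ := fan_table f hf j hj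
    have := hs _ h1
    rw [hq _ h2, h3, lat_add, lat_dirv hζ (Nat.mod_lt _ (by norm_num)), pow_mod6 hζ] at this
    convert this using 1
    rw [hq f (by omega)]
    ring
  have h3 := hζ.pow3
  have hζ' := hζ
  unfold IsZ at hζ'
  obtain ⟨r, hr, e⟩ := ray hζ (u := B * ζ ^ (f % 6)) (z := z - q f)
    (mul_ne_zero hB (pow_ne_zero _ hζ.ne_zero)) (sub_ne_zero.2 hz)
    (by simpa using key 0 (by norm_num))
    (by have := key 1 (by norm_num); rwa [show ζ ^ (1 + 1) = ζ - 1 from hζ'] at this)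
    (by have := key 2 (by norm_num); rwa [show ζ ^ (2 + 1) = -1 from h3] at this)
    (by
      have := key 3 (by norm_num)
      rwa [show ζ ^ (3 + 1) = -ζ by linear_combination ζ * h3] at this)
    (by
      have := key 4 (by norm_num)
      rwa [show ζ ^ (4 + 1) = 1 - ζ by linear_combination ζ ^ 2 * h3 - hζ'] at this)
  exact ⟨r, hr, by linear_combination e⟩

/-- Distinct lattice directions are at least sixty degrees apart. -/
lemma sep_pow {ζ : ℂ} (h : IsZ ζ) {k l : ℕ} (hk : k < 6) (hl : l < 6) (hkl : k ≠ l) :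
    Sep (ζ ^ k) (ζ ^ l) := by
  have hn : ∀ j : ℕ, ‖ζ ^ j‖ = 1 := fun j => by rw [norm_pow, h.norm_eq, one_pow]
  unfold Sep
  rw [hn, hn, ← lat_dirv h hk, ← lat_dirv h hl]
  obtain ⟨hre, him⟩ := h.re_im
  interval_cases k <;> interval_cases l <;> simp [lat, dirv, hre] at hkl ⊢ <;> nlinarith

/-- Every internal edge runs in a lattice direction recorded in the table. -/
lemma ue_table : ∀ e ∈ UE, e.1 < 36 ∧ e.2 < 36 ∧
    (∃ k < 6, tab e.1 k = e.2 ∧ pos e.2 = pos e.1 + dirv k) ∧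
    (∃ k < 6, tab e.2 k = e.1 ∧ pos e.1 = pos e.2 + dirv k) := by
  decide +kernel

end Pool.Agent.MP_aca74d_lc.H29
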