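import Mathlib
import Pool.Agent.MP_aca74d_lc.H29.Patch

/-!
The graph attached to a system of constraints, on vertices (row, column, local index).
-/

namespace Pool.Agent.MP_aca74d_lc.H29

abbrev V3 := ℕ × ℕ × ℕ

/-- The variable used in column `m`. -/
def var (cs : List (List ℕ)) (m : ℕ) : ℕ := (cs.getD (m / 9) []).getD (m % 9) 0

/-- Edges inside one gadget: (column, local index, column, local index). -/
def GE : List (ℕ × ℕ × ℕ × ℕ) :=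
  [(3, 6, 4, 36), (3, 0, 5, 3), (5, 9, 4, 37), (2, 6, 4, 38), (2, 0, 6, 9), (6, 3, 4, 39),
   (7, 2, 4, 36), (7, 8, 1, 11), (1, 5, 4, 37), (8, 2, 4, 38), (8, 8, 0, 11), (0, 5, 4, 39),
   (4, 3, 4, 36), (4, 6, 4, 37), (4, 9, 4, 38), (4, 0, 4, 39)]

inductive Edge (n : ℕ) (cs : List (List ℕ)) : V3 → V3 → Prop
  | int (y m a b : ℕ) : y ≤ n → m < 9 * cs.length → (a, b) ∈ UE → Edge n cs (y, m, a) (y, m, b)
  | ch1 (x m : ℕ) : x < n → m + 1 < 9 * cs.length → Edge n cs (x + 1, m, 0) (x + 1, m + 1, 9)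
  | ch2 (x m : ℕ) : x < n → m + 1 < 9 * cs.length → Edge n cs (x + 1, m, 6) (x + 1, m + 1, 3)
  | up1 (m : ℕ) : m < 9 * cs.length → m % 9 ≠ 4 → Edge n cs (var cs m + 1, m, 1) (0, m, 10)
  | up2 (m : ℕ) : m < 9 * cs.length → m % 9 ≠ 4 → Edge n cs (var cs m + 1, m, 7) (0, m, 4)
  | gad (t j f j' f' : ℕ) : t < cs.length → (j, f, j', f') ∈ GE →
      Edge n cs (0, 9 * t + j, f) (0, 9 * t + j', f')

def Adj (n : ℕ) (cs : List (List ℕ)) (u w : V3) : Prop := Edge n cs u w ∨ Edge n cs w u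

def Box (n : ℕ) (cs : List (List ℕ)) (u : V3) : Prop :=
  u.1 ≤ n ∧ u.2.1 < 9 * cs.length ∧ u.2.2 < 40

/-- A drawing with angular resolution at least sixty degrees. -/
structure Good (n : ℕ) (cs : List (List ℕ)) (p : V3 → ℂ) : Prop where
  inj : ∀ u w, Box n cs u → Box n cs w → p u = p w → u = w
  sep : ∀ v a b, Adj n cs v a → Adj n cs v b → a ≠ b → Sep (p a - p v) (p b - p v)

/-- The equation imposed by one gadget. -/
def Qeq (y : ℕ → ℝ) : Prop := (y 3 + y 5) * (y 8 + y 0) = (y 2 - y 6) * (y 7 + y 1)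

def Solvable (n : ℕ) (cs : List (List ℕ)) : Prop :=
  ∃ x : ℕ → ℝ, (∀ i < n, 0 < x i) ∧ ∀ t < cs.length, Qeq fun j => x (var cs (9 * t + j))

def VarsOK (n : ℕ) (cs : List (List ℕ)) : Prop := ∀ m < 9 * cs.length, var cs m < n

def Aligned (n : ℕ) (cs : List (List ℕ)) : Prop :=
  ∀ v < n, ∃ t < cs.length, var cs (9 * t + 3) = v ∧ var cs (9 * t + 5) = 0 ∧
    var cs (9 * t + 7) = v ∧ var cs (9 * t + 1) = 0

lemma ge_table : ∀ e ∈ GE, e.1 < 9 ∧ e.2.1 < 12 ∧ e.2.2.1 < 9 ∧ e.2.2.2 < 40 := by decide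

lemma Edge.box {n : ℕ} {cs : List (List ℕ)} (hv : VarsOK n cs) {u w : V3} (h : Edge n cs u w) :
    Box n cs u ∧ Box n cs w := by
  cases h with
  | int y m a b hy hm he =>
    have := ue_table _ he
    simp only at this
    exact ⟨⟨hy, hm, by simp only; omega⟩, ⟨hy, hm, by simp only; omega⟩⟩
  | ch1 x m hx hm => refine ⟨⟨?_, ?_, ?_⟩, ⟨?_, ?_, ?_⟩⟩ <;> simp only <;> omega
  | ch2 x m hx hm => refine ⟨⟨?_, ?_, ?_⟩, ⟨?_, ?_, ?_⟩⟩ <;> simp only <;> omega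
  | up1 m hm h4 =>
    have := hv m hm
    refine ⟨⟨?_, ?_, ?_⟩, ⟨?_, ?_, ?_⟩⟩ <;> simp only <;> omega
  | up2 m hm h4 =>
    have := hv m hm
    refine ⟨⟨?_, ?_, ?_⟩, ⟨?_, ?_, ?_⟩⟩ <;> simp only <;> omega
  | gad t j f j' f' ht he =>
    have := ge_table _ he
    simp only at this
    refine ⟨⟨?_, ?_, ?_⟩, ⟨?_, ?_, ?_⟩⟩ <;> simp only <;> omega

end Pool.Agent.MP_aca74d_lc.H29
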