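import Mathlib
import Pool.Agent.MP_aca74d_lc.H29.Graph

/-!
The explicit drawing attached to a positive solution: coordinates.
-/

namespace Pool.Agent.MP_aca74d_lc.H29

noncomputable section

/-- Data for the drawing: values of the variables and two shift parameters per gadget. -/
structure Data where
  x : ℕ → ℝ
  c : ℕ → ℝ
  c' : ℕ → ℝ

def pos40 (v : ℕ) : ℤ × ℤ := (posL ++ [((0 : ℤ), (0 : ℤ)), (1, 0), (0, 1), (-1, 0)]).getD v (0, 0)

lemma pos40_eq : ∀ v < 36, pos40 v = pos v := by decide +kernel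

lemma pos40_inj : ∀ v < 40, ∀ w < 40, pos40 v = pos40 w → v = w := by decide +kernel

variable (cs : List (List ℕ)) (d : Data)

def X (t j : ℕ) : ℝ := d.x (var cs (9 * t + j))
def gS (t : ℕ) : ℝ := X cs d t 7 + X cs d t 1
def gS' (t : ℕ) : ℝ := X cs d t 8 + X cs d t 0
def gA (t : ℕ) : ℝ := X cs d t 3 + X cs d t 5
def gA' (t : ℕ) : ℝ := X cs d t 2 - X cs d t 6
def eps (t : ℕ) : ℝ := gS' cs d t / (7 * (gS cs d t + gS' cs d t))
/-- Coordinates of the frame of the rotated patch. -/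
def b1 (t : ℕ) : ℝ := eps cs d t * (2 * gS cs d t - 2 * gA cs d t)
def b2 (t : ℕ) : ℝ := eps cs d t * (2 * gA cs d t)
def len (t : ℕ) : ℝ := 7 * (gS cs d t + gS' cs d t) / gS' cs d t
def len' (t : ℕ) : ℝ := 7 * (gS cs d t + gS' cs d t) / gS cs d t

/-- Local coordinates in the rotated block. -/
def rmu (t v : ℕ) : ℝ :=
  if v < 36 then d.c t + (pos v).1 else if v = 36 then 0 else if v = 37 then len cs d t
  else if v = 38 then d.c' t else d.c' t + len' cs d t
def rnu (v : ℕ) : ℝ := if v < 36 then 1 + (pos v).2 else if v ≤ 37 then 0 else 2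

def r1 (t v : ℕ) : ℝ := b1 cs d t * rmu cs d t v - b2 cs d t * rnu v
def r2 (t v : ℕ) : ℝ := b1 cs d t * rnu v + b2 cs d t * rmu cs d t v + b2 cs d t * rnu v

def phi1 (t j : ℕ) : ℝ :=
  if j = 7 then X cs d t 7 else if j = 1 then 2 * X cs d t 7 + X cs d t 1
  else if j = 8 then r1 cs d t 38 + r2 cs d t 38 + X cs d t 8
  else if j = 0 then r1 cs d t 38 + r2 cs d t 38 + 2 * X cs d t 8 + X cs d t 0 else 0

def phi2 (t j : ℕ) : ℝ :=
  if j = 3 then X cs d t 3 else if j = 5 then 2 * X cs d t 3 + X cs d t 5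
  else if j = 2 then r2 cs d t 38 + X cs d t 2
  else if j = 6 then r2 cs d t 38 + 2 * X cs d t 2 - X cs d t 6 else 0

def gf1 (t j v : ℕ) : ℝ := if j = 4 then r1 cs d t v else phi1 cs d t j + X cs d t j * (pos40 v).1
def gf2 (t j v : ℕ) : ℝ := if j = 4 then r2 cs d t v else phi2 cs d t j + X cs d t j * (pos40 v).2

/-- Fine coordinates. -/
def f1 (u : V3) : ℝ :=
  if u.1 = 0 then gf1 cs d (u.2.1 / 9) (u.2.1 % 9) u.2.2
  else phi1 cs d (u.2.1 / 9) (u.2.1 % 9) + d.x (u.1 - 1) * (pos40 u.2.2).1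
def f2 (u : V3) : ℝ :=
  if u.1 = 0 then gf2 cs d (u.2.1 / 9) (u.2.1 % 9) u.2.2
  else d.x (u.1 - 1) * (pos40 u.2.2).2

def row (j : ℕ) : ℤ := [(16 : ℤ), 14, 8, 8, 8, 8, 8, 2, 0].getD j 0

/-- Coarse coordinates. -/
def K1 (y m : ℕ) : ℤ :=
  if y = 0 then 2 * m else if var cs m + 1 = y ∧ m % 9 ≠ 4 then 2 * m else 2 * m + 1
def K2 (y m : ℕ) : ℤ := if y = 0 then row (m % 9) else -y

def P1 (L : ℝ) (u : V3) : ℝ := L * K1 cs u.1 u.2.1 + f1 cs d u
def P2 (L : ℝ) (u : V3) : ℝ := L * K2 u.1 u.2.1 + f2 cs d u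

def pt (ω : ℂ) (L : ℝ) (u : V3) : ℂ := (P1 cs d L u : ℂ) + (P2 cs d L u : ℂ) * ω

/-- The hypotheses on the data. -/
structure DataOK (n : ℕ) : Prop where
  vars : VarsOK n cs
  pos : ∀ i < n, 0 < d.x i
  eqn : ∀ t < cs.length, Qeq fun j => d.x (var cs (9 * t + j))
  hc : ∀ t, 5 / 2 < d.c t ∧ d.c t < 7 / 2
  hc' : ∀ t, -3 / 2 < d.c' t ∧ d.c' t < -1 / 2

def Big (n : ℕ) (L : ℝ) : Prop := ∀ u, Box n cs u → 4 * |f1 cs d u| < L ∧ 4 * |f2 cs d u| < L

lemma exists_big (n : ℕ) : ∃ L, 0 < L ∧ Big cs d n L := by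
  have hfin : {u : V3 | Box n cs u}.Finite := by
    apply Set.Finite.subset (Finset.finite_toSet ((Finset.range (n + 1)) ×ˢ
      (Finset.range (9 * cs.length)) ×ˢ (Finset.range 40)))
    rintro ⟨y, m, v⟩ ⟨h1, h2, h3⟩
    simp only [Finset.coe_product, Finset.coe_range, Set.mem_prod, Set.mem_Iio]
    exact ⟨by simp only at h1; omega, h2, h3⟩
  obtain ⟨B, hB⟩ := (hfin.image fun u => |f1 cs d u| + |f2 cs d u|).bddAbove
  refine ⟨4 * |B| + 1, by positivity, fun u hu => ?_⟩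
  have := hB ⟨u, hu, rfl⟩
  have h1 := abs_nonneg (f1 cs d u)
  have h2 := abs_nonneg (f2 cs d u)
  have h3 := le_abs_self B
  simp only at this
  constructor <;> linarith

lemma md {t j : ℕ} (hj : j < 9) : (9 * t + j) / 9 = t ∧ (9 * t + j) % 9 = j := by omega

lemma f1_G (t : ℕ) {j : ℕ} (hj : j < 9) (v : ℕ) : f1 cs d (0, 9 * t + j, v) = gf1 cs d t j v := by
  simp [f1, (md (t := t) hj).1, (md (t := t) hj).2]

lemma f2_G (t : ℕ) {j : ℕ} (hj : j < 9) (v : ℕ) : f2 cs d (0, 9 * t + j, v) = gf2 cs d t j v := by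
  simp [f2, (md (t := t) hj).1, (md (t := t) hj).2]

lemma K1_G (m : ℕ) : K1 cs 0 m = 2 * m := by simp [K1]

lemma K2_G (t : ℕ) {j : ℕ} (hj : j < 9) : K2 0 (9 * t + j) = row j := by
  simp [K2, (md (t := t) hj).2]

variable {cs d}
variable {n : ℕ}

lemma DataOK.Xpos (h : DataOK cs d n) {t j : ℕ} (ht : t < cs.length) (hj : j < 9) :
    0 < X cs d t j := h.pos _ (h.vars _ (by omega))

/-- The basic numerical facts about one gadget. -/
lemma DataOK.facts (h : DataOK cs d n) {t : ℕ} (ht : t < cs.length) :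
    0 < gS cs d t ∧ 0 < gS' cs d t ∧ 0 < gA cs d t ∧ 0 < eps cs d t ∧ 7 < len cs d t ∧
    7 < len' cs d t ∧ b2 cs d t * len cs d t = 2 * gA cs d t ∧
    (b1 cs d t + b2 cs d t) * len cs d t = 2 * gS cs d t ∧
    b2 cs d t * len' cs d t = 2 * gA' cs d t ∧
    (b1 cs d t + b2 cs d t) * len' cs d t = 2 * gS' cs d t ∧
    0 < b2 cs d t ∧ 0 < b1 cs d t + b2 cs d t := by
  have hS : 0 < gS cs d t := add_pos (h.Xpos ht (by norm_num)) (h.Xpos ht (by norm_num))
  have hS' : 0 < gS' cs d t := add_pos (h.Xpos ht (by norm_num)) (h.Xpos ht (by norm_num))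
  have hA : 0 < gA cs d t := add_pos (h.Xpos ht (by norm_num)) (h.Xpos ht (by norm_num))
  have hq : gA cs d t * gS' cs d t = gA' cs d t * gS cs d t := h.eqn t ht
  have he : 0 < eps cs d t := by unfold eps; positivity
  refine ⟨hS, hS', hA, he, ?_, ?_, ?_, ?_, ?_, ?_, ?_, ?_⟩
  · unfold len; rw [lt_div_iff₀ hS']; linarith
  · unfold len'; rw [lt_div_iff₀ hS]; linarith
  · unfold b2 len eps; field_simp
  · unfold b1 b2 len eps; field_simp; ring
  · unfold b2 len' eps; field_simp; linear_combination hq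
  · unfold b1 b2 len' eps; field_simp; ring
  · unfold b2; positivity
  · have : b1 cs d t + b2 cs d t = eps cs d t * (2 * gS cs d t) := by unfold b1 b2; ring
    rw [this]; positivity

lemma row_nonneg : ∀ j < 9, 0 ≤ row j := by decide

lemma K_inj {y m y' m' : ℕ} (h1 : K1 cs y m = K1 cs y' m') (h2 : K2 y m = K2 y' m') :
    y = y' ∧ m = m' := by
  have r1 := row_nonneg (m % 9) (Nat.mod_lt _ (by norm_num))
  have r2 := row_nonneg (m' % 9) (Nat.mod_lt _ (by norm_num))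
  unfold K1 at h1
  unfold K2 at h2
  split_ifs at h1 h2 <;> omega

lemma int_eq_of_big {L a b : ℝ} {k l : ℤ} (ha : 2 * |a| < L) (hb : 2 * |b| < L)
    (e : L * k + a = L * l + b) : k = l := by
  have h1 := abs_lt.1 (show |a| < L / 2 by linarith)
  have h2 := abs_lt.1 (show |b| < L / 2 by linarith)
  have hL : 0 < L := by linarith [abs_nonneg a]
  by_contra hne
  rcases lt_or_gt_of_ne hne with h | h
  · have : (k : ℝ) + 1 ≤ l := by exact_mod_cast h
    nlinarith
  · have : (l : ℝ) + 1 ≤ k := by exact_mod_cast h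
    nlinarith

lemma lt_of_big {L a b : ℝ} {k l : ℤ} (ha : 2 * |a| < L) (hb : 2 * |b| < L) (h : k < l) :
    L * k + a < L * l + b := by
  have h1 := abs_lt.1 (show |a| < L / 2 by linarith)
  have h2 := abs_lt.1 (show |b| < L / 2 by linarith)
  have hL : 0 < L := by linarith [abs_nonneg a]
  have : (k : ℝ) + 1 ≤ l := by exact_mod_cast h
  nlinarith

lemma pos_rows : ∀ v < 36, ((pos v).2 = -1 → -2 ≤ (pos v).1 ∧ (pos v).1 ≤ 3) ∧
    ((pos v).2 = 1 → -3 ≤ (pos v).1 ∧ (pos v).1 ≤ 2) := by decide +kernel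

lemma rloc_inj (h : DataOK cs d n) {t : ℕ} (ht : t < cs.length) {v w : ℕ} (hv : v < 40)
    (hw : w < 40) (e1 : rmu cs d t v = rmu cs d t w) (e2 : rnu v = rnu w) : v = w := by
  obtain ⟨-, -, -, -, hl, hl', -⟩ := h.facts ht
  obtain ⟨c1, c2⟩ := h.hc t
  obtain ⟨c1', c2'⟩ := h.hc' t
  have key : ∀ a < 36, ∀ b, 36 ≤ b → b < 40 → rmu cs d t a = rmu cs d t b → rnu a = rnu b →
      False := by
    intro a ha b hb1 hb2 e1 e2
    obtain ⟨p1, p2⟩ := pos_rows a ha
    simp only [rmu, rnu, if_pos ha, if_neg (show ¬ b < 36 by omega)] at e1 e2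
    interval_cases b <;> simp at e1 e2
    · have : (pos a).2 = -1 := by exact_mod_cast (by linarith : ((pos a).2 : ℝ) = -1)
      have : (-2 : ℝ) ≤ (pos a).1 := by exact_mod_cast (p1 this).1
      linarith
    · have : (pos a).2 = -1 := by exact_mod_cast (by linarith : ((pos a).2 : ℝ) = -1)
      have : ((pos a).1 : ℝ) ≤ 3 := by exact_mod_cast (p1 this).2
      linarith
    · have : (pos a).2 = 1 := by exact_mod_cast (by linarith : ((pos a).2 : ℝ) = 1)
      have : (-3 : ℝ) ≤ (pos a).1 := by exact_mod_cast (p2 this).1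
      linarith
    · have : (pos a).2 = 1 := by exact_mod_cast (by linarith : ((pos a).2 : ℝ) = 1)
      have : ((pos a).1 : ℝ) ≤ 2 := by exact_mod_cast (p2 this).2
      linarith
  by_cases h1 : v < 36 <;> by_cases h2 : w < 36
  · simp only [rmu, rnu, if_pos h1, if_pos h2, add_right_inj, Int.cast_inj] at e1 e2
    apply pos40_inj v hv w hw
    rw [pos40_eq v h1, pos40_eq w h2]
    exact Prod.ext e1 e2
  · exact (key v h1 w (by omega) hw e1 e2).elim
  · exact (key w h2 v (by omega) hv e1.symm e2.symm).elim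
  · have h1' : 36 ≤ v := by omega
    have h2' : 36 ≤ w := by omega
    interval_cases v <;> interval_cases w <;> simp [rmu, rnu] at e1 e2 ⊢ <;> linarith

lemma r_inj (h : DataOK cs d n) {t : ℕ} (ht : t < cs.length) {v w : ℕ}
    (e1 : r1 cs d t v = r1 cs d t w) (e2 : r2 cs d t v = r2 cs d t w) :
    rmu cs d t v = rmu cs d t w ∧ rnu v = rnu w := by
  obtain ⟨-, -, -, -, -, -, -, -, -, -, hb2, hb12⟩ := h.facts ht
  unfold r1 at e1
  unfold r2 at e2
  set p := b1 cs d t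
  set q := b2 cs d t
  have hN : 0 < p ^ 2 + p * q + q ^ 2 := by nlinarith [sq_nonneg (p + q / 2)]
  constructor
  · have : (p ^ 2 + p * q + q ^ 2) * (rmu cs d t v - rmu cs d t w) = 0 := by
      linear_combination (p + q) * e1 + q * e2
    have := (mul_eq_zero.1 this).resolve_left hN.ne'
    linarith
  · have : (p ^ 2 + p * q + q ^ 2) * (rnu v - rnu w) = 0 := by
      linear_combination (-q) * e1 + p * e2
    have := (mul_eq_zero.1 this).resolve_left hN.ne'
    linarith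

lemma aligned_inj {s a b : ℝ} (hs : 0 < s) {v w : ℕ} (hv : v < 40) (hw : w < 40)
    (e1 : a + s * (pos40 v).1 = a + s * (pos40 w).1)
    (e2 : b + s * (pos40 v).2 = b + s * (pos40 w).2) : v = w := by
  apply pos40_inj v hv w hw
  have k1 : ((pos40 v).1 : ℝ) = (pos40 w).1 := mul_left_cancel₀ hs.ne' (by linarith)
  have k2 : ((pos40 v).2 : ℝ) = (pos40 w).2 := mul_left_cancel₀ hs.ne' (by linarith)
  exact Prod.ext (by exact_mod_cast k1) (by exact_mod_cast k2)

lemma P_inj (h : DataOK cs d n) {L : ℝ} (hL : Big cs d n L) {u w : V3} (hu : Box n cs u)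
    (hw : Box n cs w) (e1 : P1 cs d L u = P1 cs d L w) (e2 : P2 cs d L u = P2 cs d L w) :
    u = w := by
  obtain ⟨a1, a2⟩ := hL u hu
  obtain ⟨c1, c2⟩ := hL w hw
  have n1 := abs_nonneg (f1 cs d u)
  have n2 := abs_nonneg (f2 cs d u)
  have n3 := abs_nonneg (f1 cs d w)
  have n4 := abs_nonneg (f2 cs d w)
  have k1 := int_eq_of_big (by linarith) (by linarith) e1
  have k2 := int_eq_of_big (by linarith) (by linarith) e2
  obtain ⟨y, m, v⟩ := u
  obtain ⟨y', m', v'⟩ := w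
  obtain ⟨rfl, rfl⟩ := K_inj k1 k2
  have g1 : f1 cs d (y, m, v) = f1 cs d (y, m, v') := by unfold P1 at e1; simpa using e1
  have g2 : f2 cs d (y, m, v) = f2 cs d (y, m, v') := by unfold P2 at e2; simpa using e2
  obtain ⟨hy, hm, hv⟩ := hu
  obtain ⟨-, -, hv'⟩ := hw
  simp only at hy hm hv hv'
  have ht : m / 9 < cs.length := by omega
  suffices v = v' by rw [this]
  unfold f1 at g1
  unfold f2 at g2
  simp only at g1 g2
  by_cases y0 : y = 0
  · rw [if_pos y0, if_pos y0] at g1 g2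
    unfold gf1 at g1
    unfold gf2 at g2
    by_cases j4 : m % 9 = 4
    · rw [if_pos j4, if_pos j4] at g1 g2
      obtain ⟨k1, k2⟩ := r_inj h ht g1 g2
      exact rloc_inj h ht hv hv' k1 k2
    · rw [if_neg j4, if_neg j4] at g1 g2
      exact aligned_inj (h.Xpos ht (Nat.mod_lt _ (by norm_num))) hv hv' g1 g2
  · rw [if_neg y0, if_neg y0] at g1 g2
    exact aligned_inj (b := 0) (h.pos (y - 1) (by omega)) hv hv' g1 (by simpa using g2)

lemma pt_inj (h : DataOK cs d n) {L : ℝ} (hL : Big cs d n L) {ω : ℂ} (hω : IsZ ω) {u w : V3}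
    (hu : Box n cs u) (hw : Box n cs w) (e : pt cs d ω L u = pt cs d ω L w) : u = w := by
  obtain ⟨e1, e2⟩ := hω.coord e
  exact P_inj h hL hu hw e1 e2

end

end Pool.Agent.MP_aca74d_lc.H29
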