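import Mathlib
import Pool.Agent.MP_aca74d_lc.H29.Layout

/-!
Completeness: the explicit drawing has angular resolution at least sixty degrees.
-/

namespace Pool.Agent.MP_aca74d_lc.H29

noncomputable section

variable {cs : List (List ℕ)} {d : Data} {n : ℕ}

def H0 (cs : List (List ℕ)) (d : Data) (u w : V3) : Prop :=
  f2 cs d w = f2 cs d u ∧ K2 w.1 w.2.1 = K2 u.1 u.2.1 ∧ K1 cs u.1 u.2.1 < K1 cs w.1 w.2.1
def H1 (cs : List (List ℕ)) (d : Data) (u w : V3) : Prop :=
  f1 cs d w = f1 cs d u ∧ K1 cs w.1 w.2.1 = K1 cs u.1 u.2.1 ∧ K2 u.1 u.2.1 < K2 w.1 w.2.1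
def H2 (cs : List (List ℕ)) (d : Data) (u w : V3) : Prop :=
  f1 cs d w + f2 cs d w = f1 cs d u + f2 cs d u ∧
    K1 cs w.1 w.2.1 + K2 w.1 w.2.1 = K1 cs u.1 u.2.1 + K2 u.1 u.2.1 ∧ K2 u.1 u.2.1 < K2 w.1 w.2.1

lemma h_ch1 (x m : ℕ) : H0 cs d (x + 1, m, 0) (x + 1, m + 1, 9) := by
  refine ⟨by simp [f2, pos40, posL], by simp [K2], ?_⟩
  simp only [K1]; split_ifs <;> omega

lemma h_ch2 (x m : ℕ) : H0 cs d (x + 1, m, 6) (x + 1, m + 1, 3) := by
  refine ⟨by simp [f2, pos40, posL], by simp [K2], ?_⟩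
  simp only [K1]; split_ifs <;> omega

lemma X_var (m : ℕ) : X cs d (m / 9) (m % 9) = d.x (var cs m) := by
  unfold X; rw [Nat.div_add_mod]

lemma h_up1 (m : ℕ) (h4 : m % 9 ≠ 4) : H1 cs d (var cs m + 1, m, 1) (0, m, 10) := by
  have := row_nonneg (m % 9) (Nat.mod_lt _ (by norm_num))
  refine ⟨by simp [f1, gf1, h4, X_var, pos40, posL], by simp [K1, h4], ?_⟩
  simp only [K2]; simp; omega

lemma h_up2 (m : ℕ) (h4 : m % 9 ≠ 4) : H1 cs d (var cs m + 1, m, 7) (0, m, 4) := by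
  have := row_nonneg (m % 9) (Nat.mod_lt _ (by norm_num))
  refine ⟨by simp [f1, gf1, h4, X_var, pos40, posL], by simp [K1, h4], ?_⟩
  simp only [K2]; simp; omega

lemma hit_coords (h : DataOK cs d n) {t : ℕ} (ht : t < cs.length) :
    r1 cs d t 36 = 0 ∧ r2 cs d t 36 = 0 ∧ r2 cs d t 37 = 2 * gA cs d t ∧
    r1 cs d t 37 + r2 cs d t 37 = 2 * gS cs d t ∧
    r2 cs d t 39 = r2 cs d t 38 + 2 * gA' cs d t ∧
    r1 cs d t 39 + r2 cs d t 39 = r1 cs d t 38 + r2 cs d t 38 + 2 * gS' cs d t := by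
  obtain ⟨-, -, -, -, -, -, k1, k2, k3, k4, -, -⟩ := h.facts ht
  simp only [r1, r2, rmu, rnu]
  norm_num
  refine ⟨?_, ?_, ?_, ?_⟩
  · linear_combination k1
  · linear_combination k2
  · linear_combination k3
  · linear_combination k4

/-- The twelve long edges of a gadget, oriented in a positive lattice direction. -/
lemma h_gad (h : DataOK cs d n) {t : ℕ} (ht : t < cs.length) :
    H0 cs d (0, 9 * t + 3, 6) (0, 9 * t + 4, 36) ∧ H0 cs d (0, 9 * t + 3, 0) (0, 9 * t + 5, 3) ∧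
    H0 cs d (0, 9 * t + 4, 37) (0, 9 * t + 5, 9) ∧ H0 cs d (0, 9 * t + 2, 6) (0, 9 * t + 4, 38) ∧
    H0 cs d (0, 9 * t + 2, 0) (0, 9 * t + 6, 9) ∧ H0 cs d (0, 9 * t + 4, 39) (0, 9 * t + 6, 3) ∧
    H2 cs d (0, 9 * t + 7, 2) (0, 9 * t + 4, 36) ∧ H2 cs d (0, 9 * t + 7, 8) (0, 9 * t + 1, 11) ∧
    H2 cs d (0, 9 * t + 4, 37) (0, 9 * t + 1, 5) ∧ H2 cs d (0, 9 * t + 8, 2) (0, 9 * t + 4, 38) ∧
    H2 cs d (0, 9 * t + 8, 8) (0, 9 * t + 0, 11) ∧ H2 cs d (0, 9 * t + 4, 39) (0, 9 * t + 0, 5) := by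
  obtain ⟨k1, k2, k3, k4, k5, k6⟩ := hit_coords h ht
  unfold gA at k3; unfold gS at k4; unfold gA' at k5; unfold gS' at k6
  unfold H0 H2
  simp only [f1_G cs d t (show 0 < 9 by norm_num), f1_G cs d t (show 1 < 9 by norm_num),
    f1_G cs d t (show 4 < 9 by norm_num), f1_G cs d t (show 7 < 9 by norm_num),
    f1_G cs d t (show 8 < 9 by norm_num),
    f2_G cs d t (show 0 < 9 by norm_num), f2_G cs d t (show 1 < 9 by norm_num),
    f2_G cs d t (show 2 < 9 by norm_num), f2_G cs d t (show 3 < 9 by norm_num),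
    f2_G cs d t (show 4 < 9 by norm_num), f2_G cs d t (show 5 < 9 by norm_num),
    f2_G cs d t (show 6 < 9 by norm_num), f2_G cs d t (show 7 < 9 by norm_num),
    f2_G cs d t (show 8 < 9 by norm_num), K1_G,
    K2_G t (show 0 < 9 by norm_num), K2_G t (show 1 < 9 by norm_num),
    K2_G t (show 2 < 9 by norm_num), K2_G t (show 3 < 9 by norm_num),
    K2_G t (show 4 < 9 by norm_num), K2_G t (show 5 < 9 by norm_num),
    K2_G t (show 6 < 9 by norm_num), K2_G t (show 7 < 9 by norm_num),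
    K2_G t (show 8 < 9 by norm_num)]
  simp only [gf1, gf2, phi1, phi2, pos40, posL, row]
  norm_num
  refine ⟨?_, ?_, ?_, ?_, ?_, ?_, ?_, ?_, ?_, ?_, ?_, ?_⟩ <;>
    first
      | linarith
      | (constructor <;> linarith)

variable {ω : ℂ} {L : ℝ}

def Lng (cs : List (List ℕ)) (d : Data) (ω : ℂ) (L : ℝ) (k : ℕ) (u w : V3) : Prop :=
  ∃ r : ℝ, 0 < r ∧ pt cs d ω L w - pt cs d ω L u = r * ω ^ k

lemma Lng.rev (hω : IsZ ω) {k : ℕ} {u w : V3} (h : Lng cs d ω L k u w) :
    Lng cs d ω L ((k + 3) % 6) w u := by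
  obtain ⟨r, hr, e⟩ := h
  refine ⟨r, hr, ?_⟩
  rw [pow_mod6 hω, pow_add, hω.pow3]
  linear_combination -e

lemma H0.lng (hL : Big cs d n L) {u w : V3} (hu : Box n cs u) (hw : Box n cs w)
    (h : H0 cs d u w) : Lng cs d ω L 0 u w := by
  obtain ⟨e1, e2, e3⟩ := h
  have := lt_of_big (L := L) (a := f1 cs d u) (b := f1 cs d w)
    (by linarith [(hL u hu).1, abs_nonneg (f1 cs d u)])
    (by linarith [(hL w hw).1, abs_nonneg (f1 cs d w)]) e3
  refine ⟨P1 cs d L w - P1 cs d L u, by unfold P1; linarith, ?_⟩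
  have : P2 cs d L w = P2 cs d L u := by unfold P2; rw [e1, e2]
  unfold pt; rw [this]; push_cast; ring

lemma H1.lng (hL : Big cs d n L) {u w : V3} (hu : Box n cs u) (hw : Box n cs w)
    (h : H1 cs d u w) : Lng cs d ω L 1 u w := by
  obtain ⟨e1, e2, e3⟩ := h
  have := lt_of_big (L := L) (a := f2 cs d u) (b := f2 cs d w)
    (by linarith [(hL u hu).2, abs_nonneg (f2 cs d u)])
    (by linarith [(hL w hw).2, abs_nonneg (f2 cs d w)]) e3
  refine ⟨P2 cs d L w - P2 cs d L u, by unfold P2; linarith, ?_⟩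
  have : P1 cs d L w = P1 cs d L u := by unfold P1; rw [e1, e2]
  unfold pt; rw [this]; push_cast; ring

lemma H2.lng (hω : IsZ ω) (hL : Big cs d n L) {u w : V3} (hu : Box n cs u) (hw : Box n cs w)
    (h : H2 cs d u w) : Lng cs d ω L 2 u w := by
  obtain ⟨e1, e2, e3⟩ := h
  have := lt_of_big (L := L) (a := f2 cs d u) (b := f2 cs d w)
    (by linarith [(hL u hu).2, abs_nonneg (f2 cs d u)])
    (by linarith [(hL w hw).2, abs_nonneg (f2 cs d w)]) e3
  refine ⟨P2 cs d L w - P2 cs d L u, by unfold P2; linarith, ?_⟩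
  have e2' : ((K1 cs w.1 w.2.1 : ℤ) : ℝ) + (K2 w.1 w.2.1 : ℤ) =
      (K1 cs u.1 u.2.1 : ℤ) + (K2 u.1 u.2.1 : ℤ) := by exact_mod_cast e2
  have : P1 cs d L w = P1 cs d L u + P2 cs d L u - P2 cs d L w := by
    unfold P1 P2; linear_combination e1 + L * e2'
  have h2 : ω ^ 2 = ω - 1 := hω
  unfold pt; rw [this, h2]; push_cast; ring

/-- The frame of a block. -/
def fr (cs : List (List ℕ)) (d : Data) (ω : ℂ) (y m : ℕ) : ℂ :=
  if y = 0 then (if m % 9 = 4 then (b1 cs d (m / 9) : ℂ) + (b2 cs d (m / 9) : ℂ) * ω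
    else (X cs d (m / 9) (m % 9) : ℂ)) else (d.x (y - 1) : ℂ)

lemma pt_block (hω : IsZ ω) (y m : ℕ) {a b : ℕ} (ha : a < 36) (hb : b < 36) :
    pt cs d ω L (y, m, b) - pt cs d ω L (y, m, a) =
      fr cs d ω y m * (lat ω (pos b) - lat ω (pos a)) := by
  have h2 : ω ^ 2 = ω - 1 := hω
  unfold pt P1 P2 f1 f2 fr gf1 gf2 lat
  simp only [pos40_eq a ha, pos40_eq b hb]
  split_ifs
  · simp only [r1, r2, rmu, rnu, if_pos ha, if_pos hb]
    push_cast
    linear_combination (-(b2 cs d (m / 9) : ℂ)) * (((pos b).2 : ℂ) - (pos a).2) * h2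
  · push_cast; ring
  · push_cast; ring

lemma pt_rblock (hω : IsZ ω) (t a b : ℕ) :
    pt cs d ω L (0, 9 * t + 4, b) - pt cs d ω L (0, 9 * t + 4, a) =
      fr cs d ω 0 (9 * t + 4) * ((rmu cs d t b - rmu cs d t a : ℝ) + (rnu b - rnu a : ℝ) * ω) := by
  have h2 : ω ^ 2 = ω - 1 := hω
  unfold pt P1 P2 fr
  rw [f1_G cs d t (by norm_num), f1_G cs d t (by norm_num), f2_G cs d t (by norm_num),
    f2_G cs d t (by norm_num)]
  simp only [gf1, gf2, (md (t := t) (show 4 < 9 by norm_num)).1,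
    (md (t := t) (show 4 < 9 by norm_num)).2, if_true, r1, r2]
  push_cast
  linear_combination (-(b2 cs d t : ℂ)) * ((rnu b : ℂ) - rnu a) * h2

def gtab (j v : ℕ) : ℕ × ℕ :=
  match GE.find? (fun e => e.1 = j ∧ e.2.1 = v) with
  | some e => e.2.2
  | none => match GE.find? (fun e => e.2.2.1 = j ∧ e.2.2.2 = v) with
    | some e => (e.1, e.2.1)
    | none => (0, 0)

def htab (v k : ℕ) : ℕ × ℕ :=
  ([[(3, 6), (7, 2), (4, 3)], [(5, 9), (1, 5), (4, 6)], [(2, 6), (8, 2), (4, 9)],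
    [(6, 3), (0, 5), (4, 0)]].getD (v - 36) []).getD k (0, 0)

def partner (cs : List (List ℕ)) (u : V3) : V3 :=
  if u.1 = 0 then
    (if u.2.2 = 10 then (var cs u.2.1 + 1, u.2.1, 1)
     else if u.2.2 = 4 then (var cs u.2.1 + 1, u.2.1, 7)
     else (0, 9 * (u.2.1 / 9) + (gtab (u.2.1 % 9) u.2.2).1, (gtab (u.2.1 % 9) u.2.2).2))
  else if u.2.2 = 0 then (u.1, u.2.1 + 1, 9) else if u.2.2 = 6 then (u.1, u.2.1 + 1, 3)
  else if u.2.2 = 9 then (u.1, u.2.1 - 1, 0) else if u.2.2 = 3 then (u.1, u.2.1 - 1, 6)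
  else if u.2.2 = 1 then (0, u.2.1, 10) else (0, u.2.1, 4)

def nbr (cs : List (List ℕ)) (u : V3) (k : ℕ) : V3 :=
  if u.2.2 < 36 then (if tab u.2.2 k < 36 then (u.1, u.2.1, tab u.2.2 k) else partner cs u)
  else (0, 9 * (u.2.1 / 9) + (htab u.2.2 k).1, (htab u.2.2 k).2)

def ds (cs : List (List ℕ)) (d : Data) (ω : ℂ) (u : V3) (k : ℕ) : ℂ :=
  if u.2.2 < 36 then fr cs d ω u.1 u.2.1 * ω ^ k
  else if u.2.2 = 36 ∨ u.2.2 = 38 then
    (if k = 0 then ω ^ 3 else if k = 1 then ω ^ 5 else fr cs d ω u.1 u.2.1)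
  else (if k = 0 then ω ^ 0 else if k = 1 then ω ^ 2 else -fr cs d ω u.1 u.2.1)

def Dir (cs : List (List ℕ)) (d : Data) (ω : ℂ) (L : ℝ) (u w : V3) : Prop :=
  (36 ≤ u.2.2 → u.1 = 0 ∧ u.2.1 % 9 = 4) ∧
  ∃ k, k < (if u.2.2 < 36 then 6 else 3) ∧ w = nbr cs u k ∧
    ∃ r : ℝ, 0 < r ∧ pt cs d ω L w - pt cs d ω L u = r * ds cs d ω u k

lemma fr_aligned (h : DataOK cs d n) {y m : ℕ} (hy : y ≤ n) (hm : m < 9 * cs.length)
    (hne : ¬ (y = 0 ∧ m % 9 = 4)) : ∃ s : ℝ, 0 < s ∧ fr cs d ω y m = s := by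
  unfold fr
  by_cases y0 : y = 0
  · have : m % 9 ≠ 4 := fun h => hne ⟨y0, h⟩
    rw [if_pos y0, if_neg this]
    exact ⟨_, h.Xpos (by omega) (Nat.mod_lt _ (by norm_num)), rfl⟩
  · rw [if_neg y0]
    exact ⟨_, h.pos (y - 1) (by omega), rfl⟩

lemma fr_ne (h : DataOK cs d n) (hω : IsZ ω) {y m : ℕ} (hy : y ≤ n) (hm : m < 9 * cs.length) :
    fr cs d ω y m ≠ 0 := by
  by_cases hne : y = 0 ∧ m % 9 = 4
  · unfold fr
    rw [if_pos hne.1, if_pos hne.2]
    intro e
    have := (hω.coord (α' := 0) (β' := 0) (by simpa using e)).2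
    have h2 := (h.facts (t := m / 9) (by omega)).2.2.2.2.2.2.2.2.2.2.1
    linarith
  · obtain ⟨s, hs, e⟩ := fr_aligned (ω := ω) h hy hm hne
    rw [e]; exact_mod_cast hs.ne'

lemma fan_free : ∀ f < 12, ¬ tab f (f % 6) < 36 := by decide

/-- A long edge leaving a fan of an aligned block. -/
lemma dir_fan (h : DataOK cs d n) {y m f : ℕ} {w : V3} (hb : Box n cs (y, m, f)) (hf : f < 12)
    (hne : ¬ (y = 0 ∧ m % 9 = 4)) (hw : w = partner cs (y, m, f))
    (hl : Lng cs d ω L (f % 6) (y, m, f) w) : Dir cs d ω L (y, m, f) w := by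
  have h36 : f < 36 := by omega
  refine ⟨fun h' => by simp only at h'; omega, f % 6, ?_, ?_, ?_⟩
  · simp only [if_pos h36]; exact Nat.mod_lt _ (by norm_num)
  · simp only [nbr, if_pos h36, if_neg (fan_free f hf)]; exact hw
  · obtain ⟨r, hr, e⟩ := hl
    obtain ⟨s, hs, es⟩ := fr_aligned (ω := ω) h hb.1 hb.2.1 hne
    refine ⟨r / s, div_pos hr hs, ?_⟩
    simp only [ds, if_pos h36, es]
    have : (s : ℂ) ≠ 0 := by exact_mod_cast hs.ne'
    rw [e]; push_cast; field_simp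

lemma sep_cone (hω : IsZ ω) {α β : ℝ} (hα : 0 < α) (hβ : 0 < β) :
    Sep (ω ^ 3) ((α - β : ℝ) + (β : ℝ) * ω) ∧ Sep (ω ^ 5) ((α - β : ℝ) + (β : ℝ) * ω) := by
  obtain ⟨hre, him⟩ := hω.re_im
  have hn : ∀ j : ℕ, ‖ω ^ j‖ = 1 := fun j => by rw [norm_pow, hω.norm_eq, one_pow]
  have hN := sq_norm_eq (((α - β : ℝ) : ℂ) + (β : ℝ) * ω)
  have hN0 := norm_nonneg (((α - β : ℝ) : ℂ) + (β : ℝ) * ω)
  unfold Sep
  rw [hn, hn, ← lat_dirv hω (show 3 < 6 by norm_num), ← lat_dirv hω (show 5 < 6 by norm_num)]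
  set N := ‖((α - β : ℝ) : ℂ) + (β : ℝ) * ω‖
  simp only [Complex.add_re, Complex.add_im, Complex.mul_re, Complex.mul_im, Complex.ofReal_re,
    Complex.ofReal_im, hre, zero_mul, sub_zero, add_zero, zero_add] at hN
  have hN' : N ^ 2 = α ^ 2 - α * β + β ^ 2 := by rw [hN, mul_pow, him]; ring
  constructor
  · simp [lat, dirv, hre]
    by_contra hc
    rw [not_le] at hc
    have : β - 2 * α > N := by linarith
    nlinarith
  · simp [lat, dirv, hre]
    by_contra hc
    rw [not_le] at hc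
    have h2 : ω.im * (β * ω.im) = 3 / 4 * β := by linear_combination β * him
    have : α - 2 * β > N := by linarith
    nlinarith

lemma sep_neg {u w : ℂ} (h : Sep u w) : Sep (-u) (-w) := by
  have := (sep_mul_left (c := -1) (u := u) (w := w) (by norm_num)).2 h
  simpa using this

lemma sep_ds (h : DataOK cs d n) (hω : IsZ ω) {u : V3} (hu : Box n cs u)
    (h36 : 36 ≤ u.2.2 → u.1 = 0 ∧ u.2.1 % 9 = 4) {k l : ℕ}
    (hk : k < (if u.2.2 < 36 then 6 else 3)) (hl : l < (if u.2.2 < 36 then 6 else 3))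
    (hkl : k ≠ l) : Sep (ds cs d ω u k) (ds cs d ω u l) := by
  by_cases hv : u.2.2 < 36
  · simp only [if_pos hv] at hk hl
    simp only [ds, if_pos hv]
    exact (sep_mul_left (fr_ne h hω hu.1 hu.2.1)).2 (sep_pow hω hk hl hkl)
  · simp only [if_neg hv] at hk hl
    obtain ⟨y0, j4⟩ := h36 (by omega)
    have ht : u.2.1 / 9 < cs.length := by have := hu.2.1; omega
    obtain ⟨-, -, -, -, -, -, -, -, -, -, hb2, hb12⟩ := h.facts ht
    obtain ⟨s1, s2⟩ := sep_cone hω hb12 hb2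
    have s0 : Sep (ω ^ 3) (ω ^ 5) := sep_pow hω (by norm_num) (by norm_num) (by norm_num)
    have hfr : fr cs d ω u.1 u.2.1 = ((b1 cs d (u.2.1 / 9) + b2 cs d (u.2.1 / 9) -
        b2 cs d (u.2.1 / 9) : ℝ) : ℂ) + (b2 cs d (u.2.1 / 9) : ℝ) * ω := by
      unfold fr; rw [if_pos y0, if_pos j4]; push_cast; ring
    rw [← hfr] at s1 s2
    have h3 := hω.pow3
    have n3 : ω ^ 0 = -ω ^ 3 := by rw [h3]; simp
    have n5 : ω ^ 2 = -ω ^ 5 := by linear_combination ω ^ 2 * h3
    simp only [ds, if_neg hv]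
    split_ifs with hc <;> first
      | omega
      | exact s0 | exact s0.symm | exact s1 | exact s1.symm | exact s2 | exact s2.symm
      | (rw [n3, n5]; first | exact sep_neg s0 | exact sep_neg s0.symm)
      | (rw [n3]; first | exact sep_neg s1 | exact sep_neg s1.symm)
      | (rw [n5]; first | exact sep_neg s2 | exact sep_neg s2.symm)

lemma dir_hit {t v k j f : ℕ} (hv : 36 ≤ v) (hk : k < 3) (ht : htab v k = (j, f)) {r : ℝ}
    (hr : 0 < r) (e : pt cs d ω L (0, 9 * t + j, f) - pt cs d ω L (0, 9 * t + 4, v) =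
      r * ds cs d ω (0, 9 * t + 4, v) k) : Dir cs d ω L (0, 9 * t + 4, v) (0, 9 * t + j, f) := by
  have h36 : ¬ v < 36 := by omega
  refine ⟨fun _ => ⟨rfl, by simp only; omega⟩, k, by simp only [if_neg h36]; exact hk, ?_,
    r, hr, e⟩
  simp only [nbr, if_neg h36, ht, (md (t := t) (show 4 < 9 by norm_num)).1]

lemma partner_G (t : ℕ) {j f : ℕ} (hj : j < 9) (h10 : f ≠ 10) (h4 : f ≠ 4) :
    partner cs (0, 9 * t + j, f) = (0, 9 * t + (gtab j f).1, (gtab j f).2) := by
  simp [partner, h10, h4, (md (t := t) hj).1, (md (t := t) hj).2]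

lemma dir_rfan (hω : IsZ ω) {t f v : ℕ} (hf : f < 12) (h10 : f ≠ 10) (h4 : f ≠ 4)
    (hg : gtab 4 f = (4, v)) {r : ℝ} (hr : 0 < r) (hnu : rnu v = rnu f)
    (e : ((rmu cs d t v - rmu cs d t f : ℝ) : ℂ) = r * ω ^ (f % 6)) :
    Dir cs d ω L (0, 9 * t + 4, f) (0, 9 * t + 4, v) := by
  have h36 : f < 36 := by omega
  refine ⟨fun h' => by simp only at h'; omega, f % 6, ?_, ?_, r, hr, ?_⟩
  · simp only [if_pos h36]; exact Nat.mod_lt _ (by norm_num)
  · simp only [nbr, if_pos h36, if_neg (fan_free f hf)]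
    rw [partner_G t (by norm_num) h10 h4, hg]
  · rw [pt_rblock hω, hnu, e]
    simp only [ds, if_pos h36, sub_self]
    push_cast; ring

theorem edge_dir (h : DataOK cs d n) (hω : IsZ ω) (hL : Big cs d n L) {u w : V3}
    (he : Edge n cs u w) : Dir cs d ω L u w ∧ Dir cs d ω L w u := by
  obtain ⟨bu, bw⟩ := he.box h.vars
  cases he with
  | int y m a b hy hm he =>
    obtain ⟨ha, hb, ⟨k, hk, t1, p1⟩, ⟨l, hl, t2, p2⟩⟩ := ue_table _ he
    simp only at ha hb t1 p1 t2 p2
    constructor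
    · refine ⟨fun h' => by simp only at h'; omega, k, by simp only [if_pos ha]; exact hk, ?_,
        1, one_pos, ?_⟩
      · simp only [nbr, if_pos ha, t1, if_pos hb]
      · rw [pt_block hω y m ha hb, p1, lat_add, lat_dirv hω hk]
        simp [ds, ha]
    · refine ⟨fun h' => by simp only at h'; omega, l, by simp only [if_pos hb]; exact hl, ?_,
        1, one_pos, ?_⟩
      · simp only [nbr, if_pos hb, t2, if_pos ha]
      · rw [pt_block hω y m hb ha, p2, lat_add, lat_dirv hω hl]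
        simp [ds, hb]
  | ch1 x m hx hm =>
    have l := (h_ch1 x m).lng (ω := ω) hL bu bw
    exact ⟨dir_fan h bu (by norm_num) (by omega) (by simp [partner]) l,
      dir_fan h bw (by norm_num) (by omega) (by simp [partner]) (l.rev hω)⟩
  | ch2 x m hx hm =>
    have l := (h_ch2 x m).lng (ω := ω) hL bu bw
    exact ⟨dir_fan h bu (by norm_num) (by omega) (by simp [partner]) l,
      dir_fan h bw (by norm_num) (by omega) (by simp [partner]) (l.rev hω)⟩
  | up1 m hm h4 =>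
    have l := (h_up1 m h4).lng (ω := ω) hL bu bw
    exact ⟨dir_fan h bu (by norm_num) (by omega) (by simp [partner]) l,
      dir_fan h bw (by norm_num) (by omega) (by simp [partner]) (l.rev hω)⟩
  | up2 m hm h4 =>
    have l := (h_up2 m h4).lng (ω := ω) hL bu bw
    exact ⟨dir_fan h bu (by norm_num) (by omega) (by simp [partner]) l,
      dir_fan h bw (by norm_num) (by omega) (by simp [partner]) (l.rev hω)⟩
  | gad t j f j' f' ht he =>
    obtain ⟨g1, g2, g3, g4, g5, g6, g7, g8, g9, g10, g11, g12⟩ := h_gad h ht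
    obtain ⟨-, -, -, -, hl, hl', -⟩ := h.facts ht
    obtain ⟨c1, c2⟩ := h.hc t
    obtain ⟨c1', c2'⟩ := h.hc' t
    have h3 := hω.pow3
    have fanG : ∀ {j f : ℕ} {w : V3}, Box n cs (0, 9 * t + j, f) → j < 9 → j ≠ 4 → f < 12 →
        f ≠ 10 → f ≠ 4 → w = (0, 9 * t + (gtab j f).1, (gtab j f).2) →
        Lng cs d ω L (f % 6) (0, 9 * t + j, f) w → Dir cs d ω L (0, 9 * t + j, f) w :=
      fun hb hj j4 hf h10 h4 hw hl => dir_fan h hb hf (by omega)
        (by rw [partner_G t hj h10 h4]; exact hw) hl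
    have hitG : ∀ {v k j f e : ℕ}, 36 ≤ v → k < 3 → htab v k = (j, f) →
        ds cs d ω (0, 9 * t + 4, v) k = ω ^ e →
        Lng cs d ω L e (0, 9 * t + 4, v) (0, 9 * t + j, f) →
        Dir cs d ω L (0, 9 * t + 4, v) (0, 9 * t + j, f) := by
      intro v k j f e hv hk ht hd ⟨r, hr, hl⟩
      exact dir_hit hv hk ht hr (by rw [hd, hl])
    simp only [GE, List.mem_cons, Prod.mk.injEq, List.not_mem_nil, or_false] at he
    rcases he with he | he | he | he | he | he | he | he | he | he | he | he | he | he | he | he <;>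
      obtain ⟨rfl, rfl, rfl, rfl⟩ := he
    · have l := g1.lng (ω := ω) hL bu bw
      exact ⟨fanG bu (by norm_num) (by norm_num) (by norm_num) (by norm_num) (by norm_num) rfl l,
        hitG (k := 0) (by norm_num) (by norm_num) rfl (by simp [ds]) (l.rev hω)⟩
    · have l := g2.lng (ω := ω) hL bu bw
      exact ⟨fanG bu (by norm_num) (by norm_num) (by norm_num) (by norm_num) (by norm_num) rfl l,
        fanG bw (by norm_num) (by norm_num) (by norm_num) (by norm_num) (by norm_num) rfl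
          (l.rev hω)⟩
    · have l := g3.lng (ω := ω) hL bw bu
      exact ⟨fanG bu (by norm_num) (by norm_num) (by norm_num) (by norm_num) (by norm_num) rfl
          (l.rev hω), hitG (k := 0) (by norm_num) (by norm_num) rfl (by simp [ds]) l⟩
    · have l := g4.lng (ω := ω) hL bu bw
      exact ⟨fanG bu (by norm_num) (by norm_num) (by norm_num) (by norm_num) (by norm_num) rfl l,
        hitG (k := 0) (by norm_num) (by norm_num) rfl (by simp [ds]) (l.rev hω)⟩
    · have l := g5.lng (ω := ω) hL bu bw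
      exact ⟨fanG bu (by norm_num) (by norm_num) (by norm_num) (by norm_num) (by norm_num) rfl l,
        fanG bw (by norm_num) (by norm_num) (by norm_num) (by norm_num) (by norm_num) rfl
          (l.rev hω)⟩
    · have l := g6.lng (ω := ω) hL bw bu
      exact ⟨fanG bu (by norm_num) (by norm_num) (by norm_num) (by norm_num) (by norm_num) rfl
          (l.rev hω), hitG (k := 0) (by norm_num) (by norm_num) rfl (by simp [ds]) l⟩
    · have l := g7.lng hω hL bu bw
      exact ⟨fanG bu (by norm_num) (by norm_num) (by norm_num) (by norm_num) (by norm_num) rfl l,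
        hitG (k := 1) (by norm_num) (by norm_num) rfl (by simp [ds]) (l.rev hω)⟩
    · have l := g8.lng hω hL bu bw
      exact ⟨fanG bu (by norm_num) (by norm_num) (by norm_num) (by norm_num) (by norm_num) rfl l,
        fanG bw (by norm_num) (by norm_num) (by norm_num) (by norm_num) (by norm_num) rfl
          (l.rev hω)⟩
    · have l := g9.lng hω hL bw bu
      exact ⟨fanG bu (by norm_num) (by norm_num) (by norm_num) (by norm_num) (by norm_num) rfl
          (l.rev hω), hitG (k := 1) (by norm_num) (by norm_num) rfl (by simp [ds]) l⟩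
    · have l := g10.lng hω hL bu bw
      exact ⟨fanG bu (by norm_num) (by norm_num) (by norm_num) (by norm_num) (by norm_num) rfl l,
        hitG (k := 1) (by norm_num) (by norm_num) rfl (by simp [ds]) (l.rev hω)⟩
    · have l := g11.lng hω hL bu bw
      exact ⟨fanG bu (by norm_num) (by norm_num) (by norm_num) (by norm_num) (by norm_num) rfl l,
        fanG bw (by norm_num) (by norm_num) (by norm_num) (by norm_num) (by norm_num) rfl
          (l.rev hω)⟩
    · have l := g12.lng hω hL bw bu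
      exact ⟨fanG bu (by norm_num) (by norm_num) (by norm_num) (by norm_num) (by norm_num) rfl
          (l.rev hω), hitG (k := 1) (by norm_num) (by norm_num) rfl (by simp [ds]) l⟩
    · refine ⟨dir_rfan hω (by norm_num) (by norm_num) (by norm_num) rfl (r := d.c t - 2)
        (by linarith) (by simp [rnu, pos, posL]) (by simp [rmu, pos, posL, h3]; ring),
        dir_hit (k := 2) (by norm_num) (by norm_num) rfl (r := d.c t - 2) (by linarith) ?_⟩
      rw [pt_rblock hω]; simp [ds, rmu, rnu, pos, posL]; ring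
    · refine ⟨dir_rfan hω (by norm_num) (by norm_num) (by norm_num) rfl
        (r := len cs d t - d.c t - 3)
        (by linarith) (by simp [rnu, pos, posL]) (by simp [rmu, pos, posL]; ring),
        dir_hit (k := 2) (by norm_num) (by norm_num) rfl (r := len cs d t - d.c t - 3)
          (by linarith) ?_⟩
      rw [pt_rblock hω]; simp [ds, rmu, rnu, pos, posL]; ring
    · refine ⟨dir_rfan hω (by norm_num) (by norm_num) (by norm_num) rfl
        (r := d.c t - 3 - d.c' t)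
        (by linarith) (by simp [rnu, pos, posL]; norm_num) (by simp [rmu, pos, posL, h3]; ring),
        dir_hit (k := 2) (by norm_num) (by norm_num) rfl (r := d.c t - 3 - d.c' t)
          (by linarith) ?_⟩
      rw [pt_rblock hω]; simp [ds, rmu, rnu, pos, posL]; ring
    · refine ⟨dir_rfan hω (by norm_num) (by norm_num) (by norm_num) rfl
        (r := d.c' t + len' cs d t - d.c t - 2)
        (by linarith) (by simp [rnu, pos, posL]; norm_num) (by simp [rmu, pos, posL]; ring),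
        dir_hit (k := 2) (by norm_num) (by norm_num) rfl
          (r := d.c' t + len' cs d t - d.c t - 2) (by linarith) ?_⟩
      rw [pt_rblock hω]; simp [ds, rmu, rnu, pos, posL]; ring

theorem good_pt (h : DataOK cs d n) (hω : IsZ ω) (hL : Big cs d n L) :
    Good n cs (pt cs d ω L) := by
  refine ⟨fun u w hu hw e => pt_inj h hL hω hu hw e, fun v a b ha hb hab => ?_⟩
  have hv : Box n cs v := ha.elim (fun e => (e.box h.vars).1) (fun e => (e.box h.vars).2)
  have da : Dir cs d ω L v a :=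
    ha.elim (fun e => (edge_dir h hω hL e).1) (fun e => (edge_dir h hω hL e).2)
  have db : Dir cs d ω L v b :=
    hb.elim (fun e => (edge_dir h hω hL e).1) (fun e => (edge_dir h hω hL e).2)
  obtain ⟨h36, k, hk, rfl, r, hr, e⟩ := da
  obtain ⟨-, l, hl, rfl, s, hs, e'⟩ := db
  rw [e, e']
  exact sep_scale hr hs (sep_ds h hω hv h36 hk hl (fun hkl => hab (by rw [hkl])))

end

end Pool.Agent.MP_aca74d_lc.H29
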