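import Mathlib
import Pool.Agent.MP_aca74d_lc.H29.Complete

/-!
Generic choice of the two shift parameters of each gadget.
-/

namespace Pool.Agent.MP_aca74d_lc.H29

noncomputable section

lemma avoid {ι : Type} [Countable ι] {a b β β' : ℝ} (hab : a < b) (hβ : β ≠ 0) (hβ' : β' ≠ 0)
    (τ τ' : ι → ℝ) : ∃ c, a < c ∧ c < b ∧ (∀ i, β * c ≠ τ i) ∧ ∀ i, β' * c ≠ τ' i := by
  have hc : ((Set.range fun i => τ i / β) ∪ (Set.range fun i => τ' i / β')).Countable :=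
    (Set.countable_range _).union (Set.countable_range _)
  obtain ⟨c, hc1, hc2⟩ := (hc.dense_compl ℝ).inter_open_nonempty (Set.Ioo a b) isOpen_Ioo
    (Set.nonempty_Ioo.2 hab)
  refine ⟨c, hc1.1, hc1.2, fun i e => hc2 (Or.inl ⟨i, ?_⟩), fun i e => hc2 (Or.inr ⟨i, ?_⟩)⟩
  · simp only; rw [← e]; field_simp
  · simp only; rw [← e]; field_simp

structure GenA (val : ℕ → ℝ) (u1 u2 u1' : ℝ) : Prop where
  h : ∀ h, 36 ≤ h → h < 40 → ∀ v < 40, v ≠ h → val v ≠ val h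
  m : ∀ v < 40, val v ≠ 2 * u1 ∧ val v ≠ val 38 + 2 * u1'
  a : ∀ k : ℤ, (val 38 ≠ u1 + u1 * k ∧ val 38 + 2 * u1' ≠ u1 + u1 * k) ∧
    (val 38 + 2 * u1' ≠ 2 * u1 + u2 + u2 * k ∧ val 39 ≠ 2 * u1 + u2 + u2 * k)

abbrev Z7 := ℤ × ℤ × ℤ × ℤ × ℤ × ℤ × ℤ

def comb (β α u1 u2 u1' W e : ℝ) (k : Z7) : ℝ :=
  k.1 * β + k.2.1 * α + k.2.2.1 * u1 + k.2.2.2.1 * u2 + k.2.2.2.2.1 * u1' + k.2.2.2.2.2.1 * W +
    k.2.2.2.2.2.2 * e

lemma genA {val : ℕ → ℝ} {β α u1 u2 u1' W c c' : ℝ} (h1 : 0 < u1) (h2 : 0 < u2) (h1' : 0 < u1')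
    (hW : W ≠ 0) (hW' : W ≠ u1')
    (hv : ∀ v < 36, val v = β * (c + (pos v).1) + α * (1 + (pos v).2)) (v36 : val 36 = 0)
    (v37 : val 37 = 2 * (u1 + u2)) (v38 : val 38 = β * c' + 2 * α) (v39 : val 39 = val 38 + 2 * W)
    (hc' : ∀ k, β * c' ≠ comb β α u1 u2 u1' W 0 k)
    (hc : ∀ k, β * c ≠ comb β α u1 u2 u1' W (β * c') k) : GenA val u1 u2 u1' := by
  have A : ∀ (a b c d e : ℤ), β * c' + a * α + b * u1 + c * u2 + d * u1' + e * W ≠ 0 := by
    intro a b c d e h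
    refine hc' (0, -a, -b, -c, -d, -e, 0) ?_
    simp only [comb]; push_cast; linarith
  have B : ∀ v < 36, ∀ (a b c d e f : ℤ),
      val v + a * α + b * u1 + c * u2 + d * u1' + e * W + f * (β * c') ≠ 0 := by
    intro v hv' a b c d e f h
    rw [hv v hv'] at h
    refine hc (-(pos v).1, -a - 1 - (pos v).2, -b, -c, -d, -e, -f) ?_
    simp only [comb]; push_cast; linarith
  refine ⟨fun h h1 h2 v hv' hne e => ?_, fun v hv' => ?_, fun k => ⟨⟨fun e => ?_, fun e => ?_⟩,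
    fun e => ?_, fun e => ?_⟩⟩
  · by_cases h36 : v < 36
    · interval_cases h
      · exact B v h36 0 0 0 0 0 0 (by push_cast; linarith)
      · exact B v h36 0 (-2) (-2) 0 0 0 (by push_cast; linarith)
      · exact B v h36 (-2) 0 0 0 0 (-1) (by push_cast; linarith)
      · exact B v h36 (-2) 0 0 0 (-2) (-1) (by push_cast; linarith)
    · have h36' : 36 ≤ v := by omega
      have a1 := A 2 0 0 0 0
      have a2 := A 2 0 0 0 2
      have a3 := A 2 (-2) (-2) 0 0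
      have a4 := A 2 (-2) (-2) 0 2
      push_cast at a1 a2 a3 a4
      interval_cases h <;> interval_cases v <;>
        first
          | exact hne rfl
          | (apply a1; linarith) | (apply a2; linarith) | (apply a3; linarith)
          | (apply a4; linarith) | linarith | (apply hW; linarith)
  · by_cases h36 : v < 36
    · exact ⟨fun e => B v h36 0 (-2) 0 0 0 0 (by push_cast; linarith),
        fun e => B v h36 (-2) 0 0 (-2) 0 (-1) (by push_cast; linarith)⟩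
    · have h36' : 36 ≤ v := by omega
      have a1 := A 2 (-2) 0 0 0
      have a2 := A 2 (-2) 0 0 2
      have a3 := A 2 0 0 2 0
      have a4 := A 2 (-2) (-2) 2 0
      push_cast at a1 a2 a3 a4
      interval_cases v <;> constructor <;> intro e <;>
        first
          | linarith
          | (apply a1; linarith) | (apply a2; linarith) | (apply a3; linarith)
          | (apply a4; linarith) | (apply hW'; linarith)
  · exact A 2 (-1 - k) 0 0 0 (by push_cast; linarith)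
  · exact A 2 (-1 - k) 0 2 0 (by push_cast; linarith)
  · exact A 2 (-2) (-1 - k) 2 0 (by push_cast; linarith)
  · exact A 2 (-2) (-1 - k) 0 2 (by push_cast; linarith)

/-- The genericity conditions for gadget `t`. -/
def Gen (cs : List (List ℕ)) (d : Data) (t : ℕ) : Prop :=
  GenA (r2 cs d t) (X cs d t 3) (X cs d t 5) (X cs d t 2) ∧
  GenA (fun v => r1 cs d t v + r2 cs d t v) (X cs d t 7) (X cs d t 1) (X cs d t 8)

theorem exists_data {n : ℕ} {cs : List (List ℕ)} (hv : VarsOK n cs) (hs : Solvable n cs) :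
    ∃ d : Data, DataOK cs d n ∧ ∀ t < cs.length, Gen cs d t := by
  obtain ⟨x, hx, hq⟩ := hs
  let d0 : Data := ⟨x, fun _ => 3, fun _ => -1⟩
  have h0 : DataOK cs d0 n := ⟨hv, hx, hq, fun _ => by norm_num [d0], fun _ => by norm_num [d0]⟩
  have key : ∀ t, ∃ c c' : ℝ, (5 / 2 < c ∧ c < 7 / 2) ∧ (-3 / 2 < c' ∧ c' < -1 / 2) ∧
      (t < cs.length →
      (∀ k, b2 cs d0 t * c' ≠ comb (b2 cs d0 t) (b1 cs d0 t + b2 cs d0 t) (X cs d0 t 3)
        (X cs d0 t 5) (X cs d0 t 2) (gA' cs d0 t) 0 k) ∧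
      (∀ k, (b1 cs d0 t + b2 cs d0 t) * c' ≠ comb (b1 cs d0 t + b2 cs d0 t) (b1 cs d0 t)
        (X cs d0 t 7) (X cs d0 t 1) (X cs d0 t 8) (gS' cs d0 t) 0 k) ∧
      (∀ k, b2 cs d0 t * c ≠ comb (b2 cs d0 t) (b1 cs d0 t + b2 cs d0 t) (X cs d0 t 3)
        (X cs d0 t 5) (X cs d0 t 2) (gA' cs d0 t) (b2 cs d0 t * c') k) ∧
      (∀ k, (b1 cs d0 t + b2 cs d0 t) * c ≠ comb (b1 cs d0 t + b2 cs d0 t) (b1 cs d0 t)
        (X cs d0 t 7) (X cs d0 t 1) (X cs d0 t 8) (gS' cs d0 t)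
        ((b1 cs d0 t + b2 cs d0 t) * c') k)) := by
    intro t
    by_cases ht : t < cs.length
    · obtain ⟨-, -, -, -, -, -, -, -, -, -, hb2, hb12⟩ := h0.facts ht
      obtain ⟨c', k1, k2, k3, k4⟩ := avoid (show (-3 / 2 : ℝ) < -1 / 2 by norm_num) hb2.ne'
        hb12.ne' (comb (b2 cs d0 t) (b1 cs d0 t + b2 cs d0 t) (X cs d0 t 3)
        (X cs d0 t 5) (X cs d0 t 2) (gA' cs d0 t) 0) (comb (b1 cs d0 t + b2 cs d0 t) (b1 cs d0 t)
        (X cs d0 t 7) (X cs d0 t 1) (X cs d0 t 8) (gS' cs d0 t) 0)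
      obtain ⟨c, l1, l2, l3, l4⟩ := avoid (show (5 / 2 : ℝ) < 7 / 2 by norm_num) hb2.ne'
        hb12.ne' (comb (b2 cs d0 t) (b1 cs d0 t + b2 cs d0 t) (X cs d0 t 3)
        (X cs d0 t 5) (X cs d0 t 2) (gA' cs d0 t) (b2 cs d0 t * c'))
        (comb (b1 cs d0 t + b2 cs d0 t) (b1 cs d0 t)
        (X cs d0 t 7) (X cs d0 t 1) (X cs d0 t 8) (gS' cs d0 t) ((b1 cs d0 t + b2 cs d0 t) * c'))
      exact ⟨c, c', ⟨l1, l2⟩, ⟨k1, k2⟩, fun _ => ⟨k3, k4, l3, l4⟩⟩
    · exact ⟨3, -1, by norm_num, by norm_num, fun h => absurd h ht⟩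
  choose c c' hc hc' hg using key
  let d : Data := ⟨x, c, c'⟩
  have hd : DataOK cs d n := ⟨hv, hx, hq, hc, hc'⟩
  refine ⟨d, hd, fun t ht => ?_⟩
  obtain ⟨g1, g2, g3, g4⟩ := hg t ht
  obtain ⟨k1, k2, k3, k4, k5, k6⟩ := hit_coords hd ht
  obtain ⟨hS, hS', hA, -, -, hl', -, -, kA, -, hb2, -⟩ := hd.facts ht
  have hA' : 0 < gA' cs d t := by nlinarith
  have x6 := hd.Xpos ht (show 6 < 9 by norm_num)
  have x0 := hd.Xpos ht (show 0 < 9 by norm_num)
  constructor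
  · refine genA (β := b2 cs d t) (α := b1 cs d t + b2 cs d t) (W := gA' cs d t) (c := c t)
      (c' := c' t) (hd.Xpos ht (by norm_num)) (hd.Xpos ht (by norm_num))
      (hd.Xpos ht (by norm_num)) hA'.ne' (by unfold gA'; linarith) ?_ k2 k3 ?_ k5 g1 g3
    · intro v hv
      simp only [r2, rmu, rnu, if_pos hv, d]; ring
    · simp only [r2, rmu, rnu, d]; norm_num; ring
  · refine genA (β := b1 cs d t + b2 cs d t) (α := b1 cs d t) (W := gS' cs d t) (c := c t)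
      (c' := c' t) (hd.Xpos ht (by norm_num)) (hd.Xpos ht (by norm_num))
      (hd.Xpos ht (by norm_num)) hS'.ne' (by unfold gS'; linarith) ?_ (by linarith) k4 ?_ k6 g2 g4
    · intro v hv
      simp only [r1, r2, rmu, rnu, if_pos hv, d]; ring
    · simp only [r1, r2, rmu, rnu, d]; norm_num; ring

end

end Pool.Agent.MP_aca74d_lc.H29
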