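import Mathlib
import Pool.Agent.MP_aca74d_lc.H29.Graph

/-!
Soundness: a drawing with angular resolution at least sixty degrees yields a positive solution.
-/

namespace Pool.Agent.MP_aca74d_lc.H29

open Complex

lemma dl_alg {A A' u u' ζ ζ' : ℂ} (hζ : IsZ ζ) (hζ' : IsZ ζ') (hu : u ≠ 0) {r1 s1 r2 : ℝ}
    (hr1 : 0 < r1) (hs1 : 0 < s1)
    (e1 : A' + u' * (-(3 - ζ')) = A + u * (2 + ζ) + r1 * u)
    (e1' : A + u * (2 + ζ) = A' + u' * (-(3 - ζ')) + s1 * (-u'))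
    (e2 : A' + u' * (-(2 + ζ')) = A + u * (3 - ζ) + r2 * u) : u' = u ∧ ζ' = ζ := by
  have hs : (s1 : ℂ) ≠ 0 := by exact_mod_cast hs1.ne'
  obtain ⟨κ, hκ, hu'⟩ : ∃ κ : ℝ, 0 < κ ∧ u' = κ * u := by
    refine ⟨r1 / s1, div_pos hr1 hs1, ?_⟩
    push_cast
    field_simp
    linear_combination e1' + e1
  have h1 : u * (κ * (2 * ζ' - 1) - (2 * ζ - 1) - (r1 - r2)) = 0 := by
    rw [hu'] at e1 e2
    linear_combination e1 - e2
  have h2 := (mul_eq_zero.1 h1).resolve_left hu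
  have h3 := congrArg Complex.im h2
  simp only [sub_im, mul_im, ofReal_re, ofReal_im, re_ofNat, im_ofNat, one_im, zero_mul, add_zero,
    sub_zero, zero_im] at h3
  have h4 : κ * ζ'.im = ζ.im := by linarith
  have h5 : κ ^ 2 = 1 := by
    have := congrArg (· ^ 2) h4
    simp only [mul_pow, hζ.re_im.2, hζ'.re_im.2] at this
    linarith
  have h6 : κ = 1 := by nlinarith
  rw [h6] at hu' h4
  refine ⟨by rw [hu']; simp, Complex.ext (by rw [hζ.re_im.1, hζ'.re_im.1]) (by linarith)⟩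

lemma align_alg {β β0 ζ ζ0 : ℂ} (hζ : IsZ ζ) (hζ0 : IsZ ζ0) (hβ0 : β0 ≠ 0) {r s r' s' : ℝ}
    (hr : 0 < r) (hs : 0 < s) (_hr' : 0 < r') (hs' : 0 < s')
    (e1 : r * β = s * β0) (e2 : r' * (β * ζ ^ 2) = s' * (β0 * ζ0 ^ 2)) :
    ∃ κ : ℝ, 0 < κ ∧ β = κ * β0 ∧ ζ = ζ0 := by
  have hr0 : (r : ℂ) ≠ 0 := by exact_mod_cast hr.ne'
  have hβ : β = ((s / r : ℝ) : ℂ) * β0 := by
    push_cast; field_simp; linear_combination e1
  have hκ : 0 < s / r := div_pos hs hr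
  refine ⟨s / r, hκ, hβ, ?_⟩
  generalize s / r = κ at hβ hκ
  have h1 : β0 * (r' * κ * (ζ - 1) - s' * (ζ0 - 1)) = 0 := by
    rw [hβ, hζ, hζ0] at e2
    linear_combination e2
  have h2 := (mul_eq_zero.1 h1).resolve_left hβ0
  have h3 := congrArg Complex.re h2
  have h4 := congrArg Complex.im h2
  simp only [sub_re, sub_im, mul_re, mul_im, ofReal_re, ofReal_im, one_re, one_im, zero_mul,
    mul_zero, add_zero, sub_zero, zero_re, zero_im, hζ.re_im.1, hζ0.re_im.1] at h3 h4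
  have h5 : r' * κ = s' := by linarith
  rw [h5] at h4
  refine Complex.ext (by rw [hζ.re_im.1, hζ0.re_im.1]) ?_
  have : s' * (ζ.im - ζ0.im) = 0 := by linarith
  have := (mul_eq_zero.1 this).resolve_left hs'.ne'
  linarith

lemma gad_alg {β bR ζ D D' : ℂ} (hζ : IsZ ζ) (hβ : β ≠ 0) {A A' S S' ρ ρ' σ σ' l l' : ℝ}
    (hl : 0 < l)
    (e1 : D = β * (A * (2 * ζ - 1) + ρ)) (e2 : D = β * (S * (1 + ζ) + σ * ζ ^ 2))
    (e1' : D' = β * (A' * (2 * ζ - 1) + ρ')) (e2' : D' = β * (S' * (1 + ζ) + σ' * ζ ^ 2))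
    (e3 : D = l * bR) (e3' : D' = l' * bR) : A * S' = A' * S := by
  have hz : ζ ^ 2 = ζ - 1 := hζ
  rw [hz] at e2 e2'
  have c1 : ((ρ - A : ℝ) : ℂ) + ((2 * A : ℝ) : ℂ) * ζ = ((S - σ : ℝ) : ℂ) + ((S + σ : ℝ) : ℂ) * ζ := by
    apply mul_left_cancel₀ hβ
    push_cast
    linear_combination e2 - e1
  have c2 : ((ρ' - A' : ℝ) : ℂ) + ((2 * A' : ℝ) : ℂ) * ζ =
      ((S' - σ' : ℝ) : ℂ) + ((S' + σ' : ℝ) : ℂ) * ζ := by
    apply mul_left_cancel₀ hβ
    push_cast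
    linear_combination e2' - e1'
  have c3 : ((l' * (S - σ) : ℝ) : ℂ) + ((l' * (S + σ) : ℝ) : ℂ) * ζ =
      ((l * (S' - σ') : ℝ) : ℂ) + ((l * (S' + σ') : ℝ) : ℂ) * ζ := by
    apply mul_left_cancel₀ hβ
    push_cast
    linear_combination (-l') * e2 + l * e2' + l' * e3 - l * e3'
  obtain ⟨-, d1⟩ := hζ.coord c1
  obtain ⟨-, d2⟩ := hζ.coord c2
  obtain ⟨d3, d4⟩ := hζ.coord c3
  have f1 : l' * S = l * S' := by linarith
  have f2 : l' * A = l * A' := by linear_combination (l' / 2) * d1 - (l / 2) * d2 + (1 / 2) * d4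
  have : l * (A * S' - A' * S) = 0 := by linear_combination (-A) * f1 + S * f2
  have := (mul_eq_zero.1 this).resolve_left hl.ne'
  linarith

section

variable {n : ℕ} {cs : List (List ℕ)} {p : V3 → ℂ}

lemma Good.frames (hp : Good n cs p) : ∃ A B ζ : ℕ → ℕ → ℂ, ∀ y m, y ≤ n → m < 9 * cs.length →
    B y m ≠ 0 ∧ IsZ (ζ y m) ∧ ∀ v < 36, p (y, m, v) = A y m + B y m * lat (ζ y m) (pos v) := by
  have : ∀ y m, ∃ A B ζ : ℂ, y ≤ n → m < 9 * cs.length →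
      B ≠ 0 ∧ IsZ ζ ∧ ∀ v < 36, p (y, m, v) = A + B * lat ζ (pos v) := by
    intro y m
    by_cases h : y ≤ n ∧ m < 9 * cs.length
    · obtain ⟨A, B, ζ, h'⟩ := rigid (fun v => p (y, m, v))
        (fun v hv w hw e => by
          have := hp.inj (y, m, v) (y, m, w) ⟨h.1, h.2, by simp only; omega⟩
            ⟨h.1, h.2, by simp only; omega⟩ e
          simpa using this)
        (fun v a b ha hb hab => by
          refine hp.sep (y, m, v) (y, m, a) (y, m, b) ?_ ?_ (by simpa using hab)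
          · exact ha.imp (Edge.int y m v a h.1 h.2) (Edge.int y m a v h.1 h.2)
          · exact hb.imp (Edge.int y m v b h.1 h.2) (Edge.int y m b v h.1 h.2))
      exact ⟨A, B, ζ, fun _ _ => h'⟩
    · exact ⟨0, 0, 0, fun h1 h2 => absurd ⟨h1, h2⟩ h⟩
  choose A B ζ h using this
  exact ⟨A, B, ζ, h⟩

lemma Good.ray (hp : Good n cs p) (hv : VarsOK n cs) {A B ζ : ℂ} {y m : ℕ} (hy : y ≤ n)
    (hm : m < 9 * cs.length)
    (hF : B ≠ 0 ∧ IsZ ζ ∧ ∀ v < 36, p (y, m, v) = A + B * lat ζ (pos v)) {f : ℕ} (hf : f < 12)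
    {w : V3} (hadj : Adj n cs (y, m, f) w) (hw : ∀ v < 36, w ≠ (y, m, v)) :
    ∃ r : ℝ, 0 < r ∧ p w = A + B * lat ζ (pos f) + r * (B * ζ ^ (f % 6)) := by
  have hwb : Box n cs w := hadj.elim (fun h => (h.box hv).2) (fun h => (h.box hv).1)
  obtain ⟨r, hr, e⟩ := fan_ray (fun v => p (y, m, v)) hF.1 hF.2.1 hF.2.2 hf (z := p w)
    (fun e => hw f (by omega) (hp.inj _ _ hwb ⟨hy, hm, by simp only; omega⟩ e))
    (fun v hv => by
      have hv36 : v < 36 := hv.elim (fun h => (ue_table _ h).2.1) (fun h => (ue_table _ h).1)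
      exact hp.sep (y, m, f) w (y, m, v) hadj
        (hv.imp (Edge.int y m f v hy hm) (Edge.int y m v f hy hm)) (hw v hv36))
  refine ⟨r, hr, ?_⟩
  rw [e, hF.2.2 f (by omega)]

theorem sound (hv : VarsOK n cs) (hal : Aligned n cs) (hp : Good n cs p) : Solvable n cs := by
  obtain ⟨A, B, ζ, hF⟩ := hp.frames
  -- rays along an edge, from either end
  have rayL : ∀ {y m f : ℕ} {w : V3}, Edge n cs (y, m, f) w → f < 12 → (∀ v < 36, w ≠ (y, m, v)) →
      ∃ r : ℝ, 0 < r ∧ p w = A y m + B y m * lat (ζ y m) (pos f) +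
        r * (B y m * ζ y m ^ (f % 6)) := by
    intro y m f w he hf hw
    have hb := (he.box hv).1
    exact hp.ray hv hb.1 hb.2.1 (hF y m hb.1 hb.2.1) hf (Or.inl he) hw
  have rayR : ∀ {y m f : ℕ} {w : V3}, Edge n cs w (y, m, f) → f < 12 → (∀ v < 36, w ≠ (y, m, v)) →
      ∃ r : ℝ, 0 < r ∧ p w = A y m + B y m * lat (ζ y m) (pos f) +
        r * (B y m * ζ y m ^ (f % 6)) := by
    intro y m f w he hf hw
    have hb := (he.box hv).2
    exact hp.ray hv hb.1 hb.2.1 (hF y m hb.1 hb.2.1) hf (Or.inr he) hw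
  -- the chains
  have chain : ∀ x < n, ∀ m, m < 9 * cs.length → B (x + 1) m = B (x + 1) 0 ∧
      ζ (x + 1) m = ζ (x + 1) 0 := by
    intro x hx m
    induction m with
    | zero => intro _; exact ⟨rfl, rfl⟩
    | succ m ih =>
      intro hm
      obtain ⟨i1, i2⟩ := ih (by omega)
      obtain ⟨hB, hζ, hq⟩ := hF (x + 1) m hx (by omega)
      obtain ⟨hB', hζ', hq'⟩ := hF (x + 1) (m + 1) hx hm
      obtain ⟨r1, hr1, e1⟩ := rayL (Edge.ch1 x m hx hm) (by norm_num) (by simp)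
      obtain ⟨s1, hs1, e1'⟩ := rayR (Edge.ch1 x m hx hm) (by norm_num) (by simp)
      obtain ⟨r2, hr2, e2⟩ := rayL (Edge.ch2 x m hx hm) (by norm_num) (by simp)
      rw [hq' _ (by norm_num)] at e1 e2
      rw [hq _ (by norm_num)] at e1'
      have h3 := hζ'.pow3
      simp [lat, pos, posL] at e1 e1' e2
      obtain ⟨k1, k2⟩ := dl_alg (A := A (x + 1) m) (A' := A (x + 1) (m + 1))
        (u' := B (x + 1) (m + 1)) hζ hζ' hB hr1 hs1 (r2 := r2)
        (by linear_combination e1) (by linear_combination e1' + s1 * B (x + 1) (m + 1) * h3)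
        (by linear_combination e2)
      exact ⟨k1.trans i1, k2.trans i2⟩
  -- the uplinks
  have up : ∀ m, m < 9 * cs.length → m % 9 ≠ 4 → B 0 m = B (var cs m + 1) 0 ∧
      ζ 0 m = ζ (var cs m + 1) 0 := by
    intro m hm h4
    obtain ⟨i1, i2⟩ := chain _ (hv m hm) m hm
    obtain ⟨hB, hζ, hq⟩ := hF (var cs m + 1) m (hv m hm) hm
    obtain ⟨hB', hζ', hq'⟩ := hF 0 m (Nat.zero_le _) hm
    obtain ⟨r1, hr1, e1⟩ := rayL (Edge.up1 m hm h4) (by norm_num) (by simp)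
    obtain ⟨s1, hs1, e1'⟩ := rayR (Edge.up1 m hm h4) (by norm_num) (by simp)
    obtain ⟨r2, hr2, e2⟩ := rayL (Edge.up2 m hm h4) (by norm_num) (by simp)
    rw [hq' _ (by norm_num)] at e1 e2
    rw [hq _ (by norm_num)] at e1'
    have h3 := hζ'.pow3
    have h2 : ζ (var cs m + 1) m ^ 2 = ζ (var cs m + 1) m - 1 := hζ
    have h2' : ζ 0 m ^ 2 = ζ 0 m - 1 := hζ'
    simp [lat, pos, posL] at e1 e1' e2
    obtain ⟨k1, k2⟩ := dl_alg (A := A (var cs m + 1) m) (A' := A 0 m)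
      (u := B (var cs m + 1) m * ζ (var cs m + 1) m) (u' := B 0 m * ζ 0 m) hζ hζ'
      (mul_ne_zero hB hζ.ne_zero) hr1 hs1 (r2 := r2)
      (by linear_combination e1 + B 0 m * h2' - B (var cs m + 1) m * h2)
      (by linear_combination e1' - B 0 m * h2' + B (var cs m + 1) m * h2 +
        s1 * B 0 m * ζ 0 m * h3)
      (by linear_combination e2 - B 0 m * h2' + B (var cs m + 1) m * h2)
    rw [k2] at k1
    exact ⟨(mul_right_cancel₀ hζ.ne_zero k1).trans i1, k2.trans i2⟩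
  have hge : ∀ t < cs.length, ∀ e ∈ GE, Edge n cs (0, 9 * t + e.1, e.2.1) (0, 9 * t + e.2.2.1, e.2.2.2) :=
    fun t ht e he => Edge.gad t _ _ _ _ ht he
  -- alignment
  have align : ∀ v < n, ∃ κ : ℝ, 0 < κ ∧ B (v + 1) 0 = κ * B 1 0 ∧ ζ (v + 1) 0 = ζ 1 0 := by
    intro v hvn
    obtain ⟨t, ht, v3, v5, v7, v1⟩ := hal v hvn
    obtain ⟨b3, z3⟩ := up (9 * t + 3) (by omega) (by omega)
    obtain ⟨b5, z5⟩ := up (9 * t + 5) (by omega) (by omega)
    obtain ⟨b7, z7⟩ := up (9 * t + 7) (by omega) (by omega)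
    obtain ⟨b1, z1⟩ := up (9 * t + 1) (by omega) (by omega)
    rw [v3] at b3 z3; rw [v5] at b5 z5; rw [v7] at b7 z7; rw [v1] at b1 z1
    obtain ⟨hB0, hζ0, -⟩ := hF 1 0 (by omega) (by omega)
    obtain ⟨hBv, hζv, -⟩ := hF (v + 1) 0 (by omega) (by omega)
    obtain ⟨r1, hr1, e1⟩ := rayL (hge t ht (3, 0, 5, 3) (by decide)) (by norm_num) (by simp)
    obtain ⟨s1, hs1, e1'⟩ := rayR (hge t ht (3, 0, 5, 3) (by decide)) (by norm_num) (by simp)
    obtain ⟨r2, hr2, e2⟩ := rayL (hge t ht (7, 8, 1, 11) (by decide)) (by norm_num) (by simp)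
    obtain ⟨s2, hs2, e2'⟩ := rayR (hge t ht (7, 8, 1, 11) (by decide)) (by norm_num) (by simp)
    simp only at e1 e1' e2 e2'
    rw [(hF 0 _ (by omega) (by omega)).2.2 _ (by norm_num)] at e1 e1' e2 e2'
    rw [b3, z3, b5, z5] at e1 e1'
    rw [b7, z7, b1, z1] at e2 e2'
    have h3 := hζ0.pow3
    simp only [zero_add] at e1 e1' e2 e2'
    norm_num at e1 e1' e2 e2'
    exact align_alg hζv hζ0 hB0 hr1 hs1 hr2 hs2
      (by linear_combination -e1 - e1' - s1 * B 1 0 * h3)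
      (by linear_combination -e2 - e2' - s2 * B 1 0 * ζ 1 0 ^ 2 * h3)
  choose! x hx using align
  refine ⟨x, fun i hi => (hx i hi).1, fun t ht => ?_⟩
  have fr : ∀ j < 9, j ≠ 4 → B 0 (9 * t + j) = x (var cs (9 * t + j)) * B 1 0 ∧
      ζ 0 (9 * t + j) = ζ 1 0 := by
    intro j hj h4
    obtain ⟨b, z⟩ := up (9 * t + j) (by omega) (by omega)
    obtain ⟨-, b', z'⟩ := hx _ (hv (9 * t + j) (by omega))
    exact ⟨b.trans b', z.trans z'⟩
  have hn : 0 < n := lt_of_le_of_lt (Nat.zero_le _) (hv 0 (by omega))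
  obtain ⟨hB0, hζ0, -⟩ := hF 1 0 (by omega) (by omega)
  obtain ⟨b0, z0⟩ := fr 0 (by norm_num) (by norm_num)
  obtain ⟨b1, z1⟩ := fr 1 (by norm_num) (by norm_num)
  obtain ⟨b2, z2⟩ := fr 2 (by norm_num) (by norm_num)
  obtain ⟨b3, z3⟩ := fr 3 (by norm_num) (by norm_num)
  obtain ⟨b5, z5⟩ := fr 5 (by norm_num) (by norm_num)
  obtain ⟨b6, z6⟩ := fr 6 (by norm_num) (by norm_num)
  obtain ⟨b7, z7⟩ := fr 7 (by norm_num) (by norm_num)
  obtain ⟨b8, z8⟩ := fr 8 (by norm_num) (by norm_num)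
  obtain ⟨r1, -, e1⟩ := rayL (hge t ht (3, 6, 4, 36) (by decide)) (by norm_num) (by simp)
  obtain ⟨r2, -, e2⟩ := rayL (hge t ht (3, 0, 5, 3) (by decide)) (by norm_num) (by simp)
  obtain ⟨r3, -, e3⟩ := rayL (hge t ht (5, 9, 4, 37) (by decide)) (by norm_num) (by simp)
  obtain ⟨r4, -, e4⟩ := rayL (hge t ht (2, 6, 4, 38) (by decide)) (by norm_num) (by simp)
  obtain ⟨r5, -, e5⟩ := rayL (hge t ht (2, 0, 6, 9) (by decide)) (by norm_num) (by simp)
  obtain ⟨r6, -, e6⟩ := rayL (hge t ht (6, 3, 4, 39) (by decide)) (by norm_num) (by simp)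
  obtain ⟨r7, -, e7⟩ := rayL (hge t ht (7, 2, 4, 36) (by decide)) (by norm_num) (by simp)
  obtain ⟨r8, -, e8⟩ := rayL (hge t ht (7, 8, 1, 11) (by decide)) (by norm_num) (by simp)
  obtain ⟨r9, -, e9⟩ := rayL (hge t ht (1, 5, 4, 37) (by decide)) (by norm_num) (by simp)
  obtain ⟨r10, -, e10⟩ := rayL (hge t ht (8, 2, 4, 38) (by decide)) (by norm_num) (by simp)
  obtain ⟨r11, -, e11⟩ := rayL (hge t ht (8, 8, 0, 11) (by decide)) (by norm_num) (by simp)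
  obtain ⟨r12, -, e12⟩ := rayL (hge t ht (0, 5, 4, 39) (by decide)) (by norm_num) (by simp)
  obtain ⟨r13, hr13, e13⟩ := rayL (hge t ht (4, 3, 4, 36) (by decide)) (by norm_num)
    (by simp; omega)
  obtain ⟨r14, hr14, e14⟩ := rayL (hge t ht (4, 6, 4, 37) (by decide)) (by norm_num)
    (by simp; omega)
  obtain ⟨r15, -, e15⟩ := rayL (hge t ht (4, 9, 4, 38) (by decide)) (by norm_num)
    (by simp; omega)
  obtain ⟨r16, -, e16⟩ := rayL (hge t ht (4, 0, 4, 39) (by decide)) (by norm_num)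
    (by simp; omega)
  simp only at e1 e2 e3 e4 e5 e6 e7 e8 e9 e10 e11 e12 e13 e14 e15 e16
  rw [(hF 0 _ (by omega) (by omega)).2.2 _ (by norm_num)] at e2 e5 e8 e11
  simp only [b0, z0, b1, z1, b2, z2, b3, z3, b5, z5, b6, z6, b7, z7, b8, z8] at e1 e2 e3 e4 e5 e6 e7 e8 e9 e10 e11 e12
  have h3 := hζ0.pow3
  have h2 : ζ 1 0 ^ 2 = ζ 1 0 - 1 := hζ0
  have hR3 := (hF 0 (9 * t + 4) (by omega) (by omega)).2.1.pow3
  simp only [lat, pos, posL, List.getD_cons_succ, List.getD_cons_zero] at e1 e2 e3 e4 e5 e6 e7 e8 e9 e10 e11 e12 e13 e14 e15 e16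
  norm_num at e1 e2 e3 e4 e5 e6 e7 e8 e9 e10 e11 e12 e13 e14 e15 e16
  unfold Qeq
  set a1 := x (var cs (9 * t + 3))
  set a2 := x (var cs (9 * t + 5))
  set a1' := x (var cs (9 * t + 2))
  set a2' := x (var cs (9 * t + 6))
  set c1 := x (var cs (9 * t + 7))
  set c2 := x (var cs (9 * t + 1))
  set c1' := x (var cs (9 * t + 8))
  set c2' := x (var cs (9 * t + 0))
  refine gad_alg (β := B 1 0) (bR := B 0 (9 * t + 4)) (ζ := ζ 1 0)
    (D := p (0, 9 * t + 4, 37) - p (0, 9 * t + 4, 36))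
    (D' := p (0, 9 * t + 4, 39) - p (0, 9 * t + 4, 38)) hζ0 hB0
    (ρ := (r2 - r1) * a1 - r3 * a2) (ρ' := (r5 - r4) * a1' - r6 * a2')
    (σ := (r8 - r7) * c1 - r9 * c2) (σ' := (r11 - r10) * c1' - r12 * c2')
    (l := 5 + r13 + r14) (l' := 5 + r15 + r16) (by linarith) ?_ ?_ ?_ ?_ ?_ ?_
  · push_cast
    linear_combination e3 - e1 + e2 + r3 * a2 * B 1 0 * h3
  · push_cast
    linear_combination e9 - e7 + e8 + r9 * c2 * B 1 0 * ζ 1 0 ^ 2 * h3
  · push_cast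
    linear_combination e6 - e4 + e5 + r6 * a2' * B 1 0 * h3
  · push_cast
    linear_combination e12 - e10 + e11 + r12 * c2' * B 1 0 * ζ 1 0 ^ 2 * h3
  · push_cast
    linear_combination e14 - e13 - r13 * B 0 (9 * t + 4) * hR3
  · push_cast
    linear_combination e16 - e15 - r15 * B 0 (9 * t + 4) * hR3

end

end Pool.Agent.MP_aca74d_lc.H29
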