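import Mathlib
import Pool.Agent.MP_aca74d_lc.H29.Generic

/-!
For generic shift parameters no vertex of the explicit drawing lies on an edge not incident to it.
-/

namespace Pool.Agent.MP_aca74d_lc.H29

noncomputable section

variable {cs : List (List ℕ)} {d : Data} {n : ℕ} {L : ℝ}

def On (cs : List (List ℕ)) (d : Data) (L : ℝ) (z u w : V3) : Prop :=
  ∃ s : ℝ, 0 ≤ s ∧ s ≤ 1 ∧ P1 cs d L z = P1 cs d L u + s * (P1 cs d L w - P1 cs d L u) ∧
    P2 cs d L z = P2 cs d L u + s * (P2 cs d L w - P2 cs d L u)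

lemma On.symm {z u w : V3} (h : On cs d L z u w) : On cs d L z w u := by
  obtain ⟨s, h0, h1, e1, e2⟩ := h
  exact ⟨1 - s, by linarith, by linarith, by linarith, by linarith⟩

lemma conv_small {L a b s : ℝ} (ha : 4 * |a| < L) (hb : 4 * |b| < L) (h0 : 0 ≤ s) (h1 : s ≤ 1) :
    2 * |a + s * (b - a)| < L := by
  have h3 := abs_lt.1 (show |a| < L / 4 by linarith)
  have h4 := abs_lt.1 (show |b| < L / 4 by linarith)
  have : |a + s * (b - a)| ≤ L / 4 := by
    rw [abs_le]; constructor <;> nlinarith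
  have := abs_nonneg a
  linarith

lemma same_block (hL : Big cs d n L) {z : V3} {y m a b : ℕ} (hz : Box n cs z)
    (ha : Box n cs (y, m, a)) (hb : Box n cs (y, m, b)) (h : On cs d L z (y, m, a) (y, m, b)) :
    ∃ v, z = (y, m, v) ∧ ∃ s : ℝ, 0 ≤ s ∧ s ≤ 1 ∧
      f1 cs d (y, m, v) = f1 cs d (y, m, a) + s * (f1 cs d (y, m, b) - f1 cs d (y, m, a)) ∧
      f2 cs d (y, m, v) = f2 cs d (y, m, a) + s * (f2 cs d (y, m, b) - f2 cs d (y, m, a)) := by
  obtain ⟨s, h0, h1, e1, e2⟩ := h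
  unfold P1 at e1
  unfold P2 at e2
  simp only at e1 e2
  have k1 := int_eq_of_big (L := L) (k := K1 cs z.1 z.2.1) (l := K1 cs y m) (a := f1 cs d z)
    (by linarith [(hL z hz).1, abs_nonneg (f1 cs d z)])
    (conv_small (hL _ ha).1 (hL _ hb).1 h0 h1) (by linarith)
  have k2 := int_eq_of_big (L := L) (k := K2 z.1 z.2.1) (l := K2 y m) (a := f2 cs d z)
    (by linarith [(hL z hz).2, abs_nonneg (f2 cs d z)])
    (conv_small (hL _ ha).2 (hL _ hb).2 h0 h1) (by linarith)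
  obtain ⟨y', m', v⟩ := z
  obtain ⟨rfl, rfl⟩ := K_inj k1 k2
  exact ⟨v, rfl, s, h0, h1, by simp only at e1; linarith, by simp only at e2; linarith⟩

lemma le_of_big {L a b : ℝ} {k l : ℤ} (ha : 2 * |a| < L) (hb : 2 * |b| < L)
    (h : L * k + a ≤ L * l + b) : k ≤ l := by
  by_contra hc
  have := lt_of_big hb ha (not_le.1 hc)
  linarith

lemma small1 (hL : Big cs d n L) {u : V3} (hu : Box n cs u) : 2 * |f1 cs d u| < L := by
  linarith [(hL u hu).1, abs_nonneg (f1 cs d u)]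

lemma small2 (hL : Big cs d n L) {u : V3} (hu : Box n cs u) : 2 * |f2 cs d u| < L := by
  linarith [(hL u hu).2, abs_nonneg (f2 cs d u)]

lemma small12 (hL : Big cs d n L) {u : V3} (hu : Box n cs u) :
    2 * |f1 cs d u + f2 cs d u| < L := by
  linarith [(hL u hu).1, (hL u hu).2, abs_add_le (f1 cs d u) (f2 cs d u)]

lemma H0.cases (hL : Big cs d n L) {z u w : V3} (hz : Box n cs z) (hu : Box n cs u)
    (hw : Box n cs w) (h : H0 cs d u w) (ho : On cs d L z u w) :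
    f2 cs d z = f2 cs d u ∧ f2 cs d z = f2 cs d w ∧
    ((z.1 = u.1 ∧ z.2.1 = u.2.1 ∧ f1 cs d u ≤ f1 cs d z) ∨
     (z.1 = w.1 ∧ z.2.1 = w.2.1 ∧ f1 cs d z ≤ f1 cs d w) ∨
     (K2 z.1 z.2.1 = K2 u.1 u.2.1 ∧ K1 cs u.1 u.2.1 < K1 cs z.1 z.2.1 ∧
        K1 cs z.1 z.2.1 < K1 cs w.1 w.2.1)) := by
  obtain ⟨e1, e2, e3⟩ := h
  obtain ⟨s, h0, h1, p1, p2⟩ := ho
  have q2 : P2 cs d L w = P2 cs d L u := by unfold P2; rw [e1, e2]
  rw [q2, sub_self, mul_zero, add_zero] at p2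
  have k2 := int_eq_of_big (small2 hL hz) (small2 hL hu) p2
  have g2 : f2 cs d z = f2 cs d u := by unfold P2 at p2; rw [k2] at p2; linarith
  have hlt : P1 cs d L u < P1 cs d L w := lt_of_big (small1 hL hu) (small1 hL hw) e3
  have l1 : P1 cs d L u ≤ P1 cs d L z := by nlinarith
  have l2 : P1 cs d L z ≤ P1 cs d L w := by nlinarith
  have m1 := le_of_big (small1 hL hu) (small1 hL hz) l1
  have m2 := le_of_big (small1 hL hz) (small1 hL hw) l2
  refine ⟨g2, g2.trans e1.symm, ?_⟩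
  rcases m1.eq_or_lt with m1 | m1
  · left
    obtain ⟨i1, i2⟩ := K_inj m1.symm k2
    exact ⟨i1, i2, by unfold P1 at l1; rw [m1] at l1; linarith⟩
  rcases m2.eq_or_lt with m2 | m2
  · right; left
    obtain ⟨i1, i2⟩ := K_inj m2 (k2.trans e2.symm)
    exact ⟨i1, i2, by unfold P1 at l2; rw [m2] at l2; linarith⟩
  · exact Or.inr (Or.inr ⟨k2, m1, m2⟩)

lemma H1.cases (hL : Big cs d n L) {z u w : V3} (hz : Box n cs z) (hu : Box n cs u)
    (hw : Box n cs w) (h : H1 cs d u w) (ho : On cs d L z u w) :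
    f1 cs d z = f1 cs d u ∧ f1 cs d z = f1 cs d w ∧
    ((z.1 = u.1 ∧ z.2.1 = u.2.1 ∧ f2 cs d u ≤ f2 cs d z) ∨
     (z.1 = w.1 ∧ z.2.1 = w.2.1 ∧ f2 cs d z ≤ f2 cs d w) ∨
     (K1 cs z.1 z.2.1 = K1 cs u.1 u.2.1 ∧ K2 u.1 u.2.1 < K2 z.1 z.2.1 ∧
        K2 z.1 z.2.1 < K2 w.1 w.2.1)) := by
  obtain ⟨e1, e2, e3⟩ := h
  obtain ⟨s, h0, h1, p1, p2⟩ := ho
  have q1 : P1 cs d L w = P1 cs d L u := by unfold P1; rw [e1, e2]
  rw [q1, sub_self, mul_zero, add_zero] at p1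
  have k1 := int_eq_of_big (small1 hL hz) (small1 hL hu) p1
  have g1 : f1 cs d z = f1 cs d u := by unfold P1 at p1; rw [k1] at p1; linarith
  have hlt : P2 cs d L u < P2 cs d L w := lt_of_big (small2 hL hu) (small2 hL hw) e3
  have l1 : P2 cs d L u ≤ P2 cs d L z := by nlinarith
  have l2 : P2 cs d L z ≤ P2 cs d L w := by nlinarith
  have m1 := le_of_big (small2 hL hu) (small2 hL hz) l1
  have m2 := le_of_big (small2 hL hz) (small2 hL hw) l2
  refine ⟨g1, g1.trans e1.symm, ?_⟩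
  rcases m1.eq_or_lt with m1 | m1
  · left
    obtain ⟨i1, i2⟩ := K_inj k1 m1.symm
    exact ⟨i1, i2, by unfold P2 at l1; rw [m1] at l1; linarith⟩
  rcases m2.eq_or_lt with m2 | m2
  · right; left
    obtain ⟨i1, i2⟩ := K_inj (k1.trans e2.symm) m2
    exact ⟨i1, i2, by unfold P2 at l2; rw [m2] at l2; linarith⟩
  · exact Or.inr (Or.inr ⟨k1, m1, m2⟩)

lemma H2.cases (hL : Big cs d n L) {z u w : V3} (hz : Box n cs z) (hu : Box n cs u)
    (hw : Box n cs w) (h : H2 cs d u w) (ho : On cs d L z u w) :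
    f1 cs d z + f2 cs d z = f1 cs d u + f2 cs d u ∧
    f1 cs d z + f2 cs d z = f1 cs d w + f2 cs d w ∧
    ((z.1 = u.1 ∧ z.2.1 = u.2.1 ∧ f2 cs d u ≤ f2 cs d z) ∨
     (z.1 = w.1 ∧ z.2.1 = w.2.1 ∧ f2 cs d z ≤ f2 cs d w) ∨
     (K1 cs z.1 z.2.1 + K2 z.1 z.2.1 = K1 cs u.1 u.2.1 + K2 u.1 u.2.1 ∧
        K2 u.1 u.2.1 < K2 z.1 z.2.1 ∧ K2 z.1 z.2.1 < K2 w.1 w.2.1)) := by
  obtain ⟨e1, e2, e3⟩ := h
  obtain ⟨s, h0, h1, p1, p2⟩ := ho
  have e2' : ((K1 cs w.1 w.2.1 : ℤ) : ℝ) + (K2 w.1 w.2.1 : ℤ) =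
      (K1 cs u.1 u.2.1 : ℤ) + (K2 u.1 u.2.1 : ℤ) := by exact_mod_cast e2
  have q : P1 cs d L w + P2 cs d L w = P1 cs d L u + P2 cs d L u := by
    unfold P1 P2; linear_combination e1 + L * e2'
  have p : P1 cs d L z + P2 cs d L z = P1 cs d L u + P2 cs d L u := by
    linear_combination p1 + p2 + s * q
  have p' : L * ((K1 cs z.1 z.2.1 + K2 z.1 z.2.1 : ℤ) : ℝ) + (f1 cs d z + f2 cs d z) =
      L * ((K1 cs u.1 u.2.1 + K2 u.1 u.2.1 : ℤ) : ℝ) + (f1 cs d u + f2 cs d u) := by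
    unfold P1 P2 at p; push_cast; linarith
  have k := int_eq_of_big (small12 hL hz) (small12 hL hu) p'
  have g : f1 cs d z + f2 cs d z = f1 cs d u + f2 cs d u := by rw [k] at p'; linarith
  have hlt : P2 cs d L u < P2 cs d L w := lt_of_big (small2 hL hu) (small2 hL hw) e3
  have l1 : P2 cs d L u ≤ P2 cs d L z := by nlinarith
  have l2 : P2 cs d L z ≤ P2 cs d L w := by nlinarith
  have m1 := le_of_big (small2 hL hu) (small2 hL hz) l1
  have m2 := le_of_big (small2 hL hz) (small2 hL hw) l2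
  refine ⟨g, g.trans e1.symm, ?_⟩
  rcases m1.eq_or_lt with m1 | m1
  · left
    obtain ⟨i1, i2⟩ := K_inj (cs := cs) (y := z.1) (m := z.2.1) (y' := u.1) (m' := u.2.1)
      (by omega) m1.symm
    exact ⟨i1, i2, by unfold P2 at l1; rw [m1] at l1; linarith⟩
  rcases m2.eq_or_lt with m2 | m2
  · right; left
    obtain ⟨i1, i2⟩ := K_inj (cs := cs) (y := z.1) (m := z.2.1) (y' := w.1) (m' := w.2.1)
      (by omega) m2
    exact ⟨i1, i2, by unfold P2 at l2; rw [m2] at l2; linarith⟩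
  · exact Or.inr (Or.inr ⟨k, m1, m2⟩)

lemma aligned_form (h : DataOK cs d n) {y m : ℕ} (hy : y ≤ n) (hm : m < 9 * cs.length)
    (hne : ¬ (y = 0 ∧ m % 9 = 4)) : ∃ a b s : ℝ, 0 < s ∧ ∀ v,
      f1 cs d (y, m, v) = a + s * (pos40 v).1 ∧ f2 cs d (y, m, v) = b + s * (pos40 v).2 := by
  by_cases y0 : y = 0
  · have j4 : m % 9 ≠ 4 := fun h => hne ⟨y0, h⟩
    refine ⟨phi1 cs d (m / 9) (m % 9), phi2 cs d (m / 9) (m % 9), X cs d (m / 9) (m % 9),
      h.Xpos (by omega) (Nat.mod_lt _ (by norm_num)), fun v => ?_⟩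
    simp [f1, f2, gf1, gf2, y0, j4]
  · refine ⟨phi1 cs d (m / 9) (m % 9), 0, d.x (y - 1), h.pos _ (by omega), fun v => ?_⟩
    simp [f1, f2, y0]

lemma end_table : ∀ f < 12, ∀ v < 40,
    (f % 6 = 0 → (pos40 v).2 = (pos40 f).2 → (pos40 f).1 ≤ (pos40 v).1 → v = f) ∧
    (f % 6 = 3 → (pos40 v).2 = (pos40 f).2 → (pos40 v).1 ≤ (pos40 f).1 → v = f) ∧
    (f % 6 = 1 → (pos40 v).1 = (pos40 f).1 → (pos40 f).2 ≤ (pos40 v).2 → v = f) ∧
    (f % 6 = 4 → (pos40 v).1 = (pos40 f).1 → (pos40 v).2 ≤ (pos40 f).2 → v = f) ∧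
    (f % 6 = 2 → (pos40 v).1 + (pos40 v).2 = (pos40 f).1 + (pos40 f).2 →
      (pos40 f).2 ≤ (pos40 v).2 → v = f) ∧
    (f % 6 = 5 → (pos40 v).1 + (pos40 v).2 = (pos40 f).1 + (pos40 f).2 →
      (pos40 v).2 ≤ (pos40 f).2 → v = f) := by
  have h0 : ∀ f < 12, ∀ v < 40, f % 6 = 0 → (pos40 v).2 = (pos40 f).2 →
    (pos40 f).1 ≤ (pos40 v).1 → v = f := by decide +kernel
  have h3 : ∀ f < 12, ∀ v < 40, f % 6 = 3 → (pos40 v).2 = (pos40 f).2 →
    (pos40 v).1 ≤ (pos40 f).1 → v = f := by decide +kernel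
  have h1 : ∀ f < 12, ∀ v < 40, f % 6 = 1 → (pos40 v).1 = (pos40 f).1 →
    (pos40 f).2 ≤ (pos40 v).2 → v = f := by decide +kernel
  have h4 : ∀ f < 12, ∀ v < 40, f % 6 = 4 → (pos40 v).1 = (pos40 f).1 →
    (pos40 v).2 ≤ (pos40 f).2 → v = f := by decide +kernel
  have h2 : ∀ f < 12, ∀ v < 40, f % 6 = 2 → (pos40 v).1 + (pos40 v).2 = (pos40 f).1 + (pos40 f).2 →
    (pos40 f).2 ≤ (pos40 v).2 → v = f := by decide +kernel
  have h5 : ∀ f < 12, ∀ v < 40, f % 6 = 5 → (pos40 v).1 + (pos40 v).2 = (pos40 f).1 + (pos40 f).2 →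
    (pos40 v).2 ≤ (pos40 f).2 → v = f := by decide +kernel
  exact fun f hf v hv => ⟨h0 f hf v hv, h3 f hf v hv, h1 f hf v hv, h4 f hf v hv, h2 f hf v hv,
    h5 f hf v hv⟩

lemma ieq {a s : ℝ} (hs : 0 < s) {i j : ℤ} (e : a + s * i = a + s * j) : i = j := by
  have : (i : ℝ) = j := mul_left_cancel₀ hs.ne' (by linarith)
  exact_mod_cast this

lemma ile {a s : ℝ} (hs : 0 < s) {i j : ℤ} (e : a + s * i ≤ a + s * j) : i ≤ j := by
  have : (i : ℝ) ≤ j := le_of_mul_le_mul_left (by linarith) hs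
  exact_mod_cast this

/-- Nothing lies on the ray of a fan inside its own (aligned) block. -/
lemma ends (h : DataOK cs d n) {y m f : ℕ} {z : V3} (hb : Box n cs (y, m, f)) (hz : Box n cs z)
    (hf : f < 12) (hne : ¬ (y = 0 ∧ m % 9 = 4)) (z1 : z.1 = y) (z2 : z.2.1 = m) :
    (f % 6 = 0 → f2 cs d z = f2 cs d (y, m, f) → f1 cs d (y, m, f) ≤ f1 cs d z → z = (y, m, f)) ∧
    (f % 6 = 3 → f2 cs d z = f2 cs d (y, m, f) → f1 cs d z ≤ f1 cs d (y, m, f) → z = (y, m, f)) ∧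
    (f % 6 = 1 → f1 cs d z = f1 cs d (y, m, f) → f2 cs d (y, m, f) ≤ f2 cs d z → z = (y, m, f)) ∧
    (f % 6 = 4 → f1 cs d z = f1 cs d (y, m, f) → f2 cs d z ≤ f2 cs d (y, m, f) → z = (y, m, f)) ∧
    (f % 6 = 2 → f1 cs d z + f2 cs d z = f1 cs d (y, m, f) + f2 cs d (y, m, f) →
      f2 cs d (y, m, f) ≤ f2 cs d z → z = (y, m, f)) ∧
    (f % 6 = 5 → f1 cs d z + f2 cs d z = f1 cs d (y, m, f) + f2 cs d (y, m, f) →
      f2 cs d z ≤ f2 cs d (y, m, f) → z = (y, m, f)) := by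
  obtain ⟨y', m', v⟩ := z
  simp only at z1 z2
  subst z1 z2
  obtain ⟨a, b, s, hs, hf'⟩ := aligned_form h hb.1 hb.2.1 hne
  obtain ⟨t0, t3, t1, t4, t2, t5⟩ := end_table f hf v hz.2.2
  simp only at hf'
  simp only [(hf' v).1, (hf' v).2, (hf' f).1, (hf' f).2, Prod.mk.injEq, true_and]
  refine ⟨fun k e l => t0 k (ieq hs e) (ile hs l), fun k e l => t3 k (ieq hs e) (ile hs l),
    fun k e l => t1 k (ieq hs e) (ile hs l), fun k e l => t4 k (ieq hs e) (ile hs l),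
    fun k e l => t2 k (ieq (a := a + b) hs (by push_cast; linarith)) (ile hs l),
    fun k e l => t5 k (ieq (a := a + b) hs (by push_cast; linarith)) (ile hs l)⟩

lemma on_unit {s : ℝ} (h0 : 0 ≤ s) (h1 : s ≤ 1) {i j a1 a2 : ℤ} {k : ℕ} (hk : k < 6)
    (e1 : (i : ℝ) = a1 + s * (dirv k).1) (e2 : (j : ℝ) = a2 + s * (dirv k).2) : s = 0 ∨ s = 1 := by
  have key : ∀ z : ℤ, (z : ℝ) = s → s = 0 ∨ s = 1 := by
    intro z hz
    have a : (0 : ℤ) ≤ z := by exact_mod_cast (hz ▸ h0 : (0 : ℝ) ≤ z)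
    have b : z ≤ 1 := by exact_mod_cast (hz ▸ h1 : (z : ℝ) ≤ 1)
    rcases (by omega : z = 0 ∨ z = 1) with rfl | rfl
    · left; simpa using hz.symm
    · right; simpa using hz.symm
  interval_cases k <;> simp [dirv] at e1 e2
  · exact key (i - a1) (by push_cast; linarith)
  · exact key (j - a2) (by push_cast; linarith)
  · exact key (j - a2) (by push_cast; linarith)
  · exact key (a1 - i) (by push_cast; linarith)
  · exact key (a2 - j) (by push_cast; linarith)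
  · exact key (i - a1) (by push_cast; linarith)

lemma r_solve (h : DataOK cs d n) {t : ℕ} (ht : t < cs.length) {v a b : ℕ} {s : ℝ}
    (e1 : r1 cs d t v = r1 cs d t a + s * (r1 cs d t b - r1 cs d t a))
    (e2 : r2 cs d t v = r2 cs d t a + s * (r2 cs d t b - r2 cs d t a)) :
    rmu cs d t v = rmu cs d t a + s * (rmu cs d t b - rmu cs d t a) ∧
      rnu v = rnu a + s * (rnu b - rnu a) := by
  obtain ⟨-, -, -, -, -, -, -, -, -, -, hb2, hb12⟩ := h.facts ht
  unfold r1 at e1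
  unfold r2 at e2
  set p := b1 cs d t
  set q := b2 cs d t
  have hN : 0 < p ^ 2 + p * q + q ^ 2 := by nlinarith [sq_nonneg (p + q / 2)]
  constructor
  · have : (p ^ 2 + p * q + q ^ 2) *
        (rmu cs d t v - (rmu cs d t a + s * (rmu cs d t b - rmu cs d t a))) = 0 := by
      linear_combination (p + q) * e1 + q * e2
    have := (mul_eq_zero.1 this).resolve_left hN.ne'
    linarith
  · have : (p ^ 2 + p * q + q ^ 2) * (rnu v - (rnu a + s * (rnu b - rnu a))) = 0 := by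
      linear_combination (-q) * e1 + p * e2
    have := (mul_eq_zero.1 this).resolve_left hN.ne'
    linarith

/-- A point of an internal edge on one of the two special rows stays between the fans. -/
lemma edge_rows {a b k : ℕ} (ha : a < 36) (hb : b < 36) (hk : k < 6)
    (hp : pos b = pos a + dirv k) {s : ℝ} (h0 : 0 ≤ s) (h1 : s ≤ 1) :
    (((pos a).2 : ℝ) + s * (dirv k).2 = -1 →
      -2 ≤ ((pos a).1 : ℝ) + s * (dirv k).1 ∧ ((pos a).1 : ℝ) + s * (dirv k).1 ≤ 3) ∧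
    (((pos a).2 : ℝ) + s * (dirv k).2 = 1 →
      -3 ≤ ((pos a).1 : ℝ) + s * (dirv k).1 ∧ ((pos a).1 : ℝ) + s * (dirv k).1 ≤ 2) := by
  obtain ⟨pa1, pa2⟩ := pos_rows a ha
  obtain ⟨pb1, pb2⟩ := pos_rows b hb
  have hb1 : (pos b).1 = (pos a).1 + (dirv k).1 := by rw [hp]; rfl
  have hb2 : (pos b).2 = (pos a).2 + (dirv k).2 := by rw [hp]; rfl
  have gen : ∀ (ρ lo hi : ℤ), ((pos a).2 = ρ → lo ≤ (pos a).1 ∧ (pos a).1 ≤ hi) →
      ((pos b).2 = ρ → lo ≤ (pos b).1 ∧ (pos b).1 ≤ hi) →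
      ((pos a).2 : ℝ) + s * (dirv k).2 = ρ →
      (lo : ℝ) ≤ ((pos a).1 : ℝ) + s * (dirv k).1 ∧ ((pos a).1 : ℝ) + s * (dirv k).1 ≤ hi := by
    intro ρ lo hi qa qb e
    by_cases hd : (dirv k).2 = 0
    · rw [hd] at e hb2
      have ea : (pos a).2 = ρ := by
        have : ((pos a).2 : ℝ) = ρ := by simpa using e
        exact_mod_cast this
      obtain ⟨x1, x2⟩ := qa ea
      obtain ⟨x3, x4⟩ := qb (by omega)
      rw [hb1] at x3 x4
      have x1' : (lo : ℝ) ≤ (pos a).1 := by exact_mod_cast x1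
      have x2' : ((pos a).1 : ℝ) ≤ hi := by exact_mod_cast x2
      have x3' : (lo : ℝ) ≤ (pos a).1 + (dirv k).1 := by exact_mod_cast x3
      have x4' : ((pos a).1 : ℝ) + (dirv k).1 ≤ hi := by exact_mod_cast x4
      constructor <;> nlinarith
    · have hs : s = 0 ∨ s = 1 := by
        have hk' : (dirv k).2 = 1 ∨ (dirv k).2 = -1 := by
          interval_cases k <;> simp [dirv] at hd ⊢
        rcases hk' with hk' | hk' <;> rw [hk'] at e
        · exact on_unit h0 h1 (i := 0) (a1 := 0) (j := ρ) (a2 := (pos a).2) (k := 1)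
            (by norm_num) (by simp [dirv]) (by simp [dirv]; simpa using e.symm)
        · exact on_unit h0 h1 (i := 0) (a1 := 0) (j := ρ) (a2 := (pos a).2) (k := 4)
            (by norm_num) (by simp [dirv]) (by simp [dirv]; simpa using e.symm)
      rcases hs with rfl | rfl
      · have ea : (pos a).2 = ρ := by
          have : ((pos a).2 : ℝ) = ρ := by simpa using e
          exact_mod_cast this
        obtain ⟨x1, x2⟩ := qa ea
        simp only [zero_mul, add_zero]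
        exact ⟨by exact_mod_cast x1, by exact_mod_cast x2⟩
      · have eb : (pos b).2 = ρ := by
          have : ((pos a).2 : ℝ) + (dirv k).2 = ρ := by simpa using e
          rw [hb2]; exact_mod_cast this
        obtain ⟨x1, x2⟩ := qb eb
        rw [hb1] at x1 x2
        simp only [one_mul]
        exact ⟨by exact_mod_cast x1, by exact_mod_cast x2⟩
  exact ⟨fun e => by simpa using gen (-1) (-2) 3 pa1 pb1 (by simpa using e),
    fun e => by simpa using gen 1 (-3) 2 pa2 pb2 (by simpa using e)⟩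

lemma strict_int (h : DataOK cs d n) (hL : Big cs d n L) {z : V3} {y m a b : ℕ} (hz : Box n cs z)
    (bu : Box n cs (y, m, a)) (bw : Box n cs (y, m, b)) (he : (a, b) ∈ UE)
    (ho : On cs d L z (y, m, a) (y, m, b)) : z = (y, m, a) ∨ z = (y, m, b) := by
  obtain ⟨v, rfl, s, h0, h1, e1, e2⟩ := same_block hL hz bu bw ho
  obtain ⟨ha, hb, ⟨k, hk, -, hp⟩, -⟩ := ue_table _ he
  simp only at ha hb hp
  have hb1 : ((pos b).1 : ℝ) = (pos a).1 + (dirv k).1 := by rw [hp]; simp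
  have hb2 : ((pos b).2 : ℝ) = (pos a).2 + (dirv k).2 := by rw [hp]; simp
  have fin : ∀ v < 40, ((pos40 v).1 : ℝ) = (pos a).1 + s * (dirv k).1 →
      ((pos40 v).2 : ℝ) = (pos a).2 + s * (dirv k).2 → v = a ∨ v = b := by
    intro v hv k1 k2
    rcases on_unit h0 h1 hk k1 k2 with rfl | rfl
    · left
      apply pos40_inj v hv a (by omega)
      rw [pos40_eq a ha]
      exact Prod.ext (by exact_mod_cast (by linarith : ((pos40 v).1 : ℝ) = (pos a).1))
        (by exact_mod_cast (by linarith : ((pos40 v).2 : ℝ) = (pos a).2))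
    · right
      apply pos40_inj v hv b (by omega)
      rw [pos40_eq b hb]
      exact Prod.ext (by exact_mod_cast (by linarith : ((pos40 v).1 : ℝ) = (pos b).1))
        (by exact_mod_cast (by linarith : ((pos40 v).2 : ℝ) = (pos b).2))
  have hv : v < 40 := hz.2.2
  suffices v = a ∨ v = b by rcases this with rfl | rfl <;> simp
  by_cases hR : y = 0 ∧ m % 9 = 4
  · have ht : m / 9 < cs.length := by have := bu.2.1; simp only at this; omega
    simp only [f1, f2, gf1, gf2, hR.1, hR.2, if_true] at e1 e2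
    obtain ⟨k1, k2⟩ := r_solve h ht e1 e2
    by_cases h36 : v < 36
    · simp only [rmu, rnu, if_pos h36, if_pos ha, if_pos hb] at k1 k2
      apply fin v hv <;> rw [pos40_eq v h36]
      · rw [hb1] at k1; linarith
      · rw [hb2] at k2; linarith
    · exfalso
      obtain ⟨q1, q2⟩ := edge_rows ha hb hk hp h0 h1
      obtain ⟨-, -, -, -, hl, hl', -⟩ := h.facts ht
      obtain ⟨c1, c2⟩ := h.hc (m / 9)
      obtain ⟨c1', c2'⟩ := h.hc' (m / 9)
      simp only [rmu, rnu, if_neg h36, if_pos ha, if_pos hb] at k1 k2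
      rw [hb1] at k1; rw [hb2] at k2
      have h36' : 36 ≤ v := by omega
      interval_cases v <;> norm_num at k1 k2
      · have := q1 (by linarith); linarith
      · have := q1 (by linarith); linarith
      · have := q2 (by linarith); linarith
      · have := q2 (by linarith); linarith
  · obtain ⟨α, β, σ, hσ, hf⟩ := aligned_form h bu.1 bu.2.1 hR
    simp only at hf
    rw [(hf v).1, (hf a).1, (hf b).1, pos40_eq a ha, pos40_eq b hb, hb1] at e1
    rw [(hf v).2, (hf a).2, (hf b).2, pos40_eq a ha, pos40_eq b hb, hb2] at e2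
    exact fin v hv (mul_left_cancel₀ hσ.ne' (by linarith)) (mul_left_cancel₀ hσ.ne' (by linarith))

lemma strict_R (h : DataOK cs d n) (hL : Big cs d n L) {z : V3} {t f q : ℕ} (hz : Box n cs z)
    (ht : t < cs.length)
    (hfq : (f = 3 ∧ q = 36) ∨ (f = 6 ∧ q = 37) ∨ (f = 9 ∧ q = 38) ∨ (f = 0 ∧ q = 39))
    (ho : On cs d L z (0, 9 * t + 4, f) (0, 9 * t + 4, q)) :
    z = (0, 9 * t + 4, f) ∨ z = (0, 9 * t + 4, q) := by
  have bu : Box n cs (0, 9 * t + 4, f) := ⟨Nat.zero_le _, by simp only; omega, by simp only; omega⟩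
  have bw : Box n cs (0, 9 * t + 4, q) := ⟨Nat.zero_le _, by simp only; omega, by simp only; omega⟩
  obtain ⟨v, rfl, s, h0, h1, e1, e2⟩ := same_block hL hz bu bw ho
  have hv : v < 40 := hz.2.2
  suffices v = f ∨ v = q by rcases this with rfl | rfl <;> simp
  simp only [f1_G cs d t (show 4 < 9 by norm_num), f2_G cs d t (show 4 < 9 by norm_num), gf1, gf2,
    if_true] at e1 e2
  obtain ⟨k1, k2⟩ := r_solve h ht e1 e2
  obtain ⟨-, -, -, -, hl, hl', -⟩ := h.facts ht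
  obtain ⟨c1, c2⟩ := h.hc t
  obtain ⟨c1', c2'⟩ := h.hc' t
  by_cases h36 : v < 36
  · left
    obtain ⟨t0, t3, -⟩ := end_table f (by omega) v hv
    rw [pos40_eq v h36, pos40_eq f (by omega)] at t0 t3
    simp only [rmu, rnu, if_pos h36] at k1 k2
    rcases hfq with ⟨rfl, rfl⟩ | ⟨rfl, rfl⟩ | ⟨rfl, rfl⟩ | ⟨rfl, rfl⟩
    · have p1 : pos 3 = (-2, -1) := rfl
      rw [p1] at t3 k1 k2
      norm_num at k1 k2
      exact t3 rfl (by exact_mod_cast (by linarith : ((pos v).2 : ℝ) = -1))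
        (by exact_mod_cast (by nlinarith : ((pos v).1 : ℝ) ≤ -2))
    · have p1 : pos 6 = (3, -1) := rfl
      rw [p1] at t0 k1 k2
      norm_num at k1 k2
      exact t0 rfl (by exact_mod_cast (by linarith : ((pos v).2 : ℝ) = -1))
        (by exact_mod_cast (by nlinarith : (3 : ℝ) ≤ (pos v).1))
    · have p1 : pos 9 = (-3, 1) := rfl
      rw [p1] at t3 k1 k2
      norm_num at k1 k2
      exact t3 rfl (by exact_mod_cast (by linarith : ((pos v).2 : ℝ) = 1))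
        (by exact_mod_cast (by nlinarith : ((pos v).1 : ℝ) ≤ -3))
    · have p1 : pos 0 = (2, 1) := rfl
      rw [p1] at t0 k1 k2
      norm_num at k1 k2
      exact t0 rfl (by exact_mod_cast (by linarith : ((pos v).2 : ℝ) = 1))
        (by exact_mod_cast (by nlinarith : (2 : ℝ) ≤ (pos v).1))
  · right
    have h36' : 36 ≤ v := by omega
    rcases hfq with ⟨rfl, rfl⟩ | ⟨rfl, rfl⟩ | ⟨rfl, rfl⟩ | ⟨rfl, rfl⟩ <;> interval_cases v <;>
      first
        | rfl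
        | (exfalso; simp [rmu, rnu, pos, posL] at k1 k2 <;> nlinarith)

lemma row_cases {j : ℕ} (hj : j < 9) : (j = 0 ∧ row j = 16) ∨ (j = 1 ∧ row j = 14) ∨
    (2 ≤ j ∧ j ≤ 6 ∧ row j = 8) ∨ (j = 7 ∧ row j = 2) ∨ (j = 8 ∧ row j = 0) := by
  interval_cases j <;> simp [row]

lemma mid0 {z : V3} {t a b : ℕ} (k2 : K2 z.1 z.2.1 = 8) (l1 : K1 cs 0 (9 * t + a) < K1 cs z.1 z.2.1)
    (l2 : K1 cs z.1 z.2.1 < K1 cs 0 (9 * t + b)) :
    ∃ j, a < j ∧ j < b ∧ z = (0, 9 * t + j, z.2.2) := by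
  obtain ⟨y, m, v⟩ := z
  have y0 : y = 0 := by
    unfold K2 at k2
    simp only at k2
    split_ifs at k2 with h
    · exact h
    · omega
  subst y0
  simp only [K1_G] at l1 l2
  refine ⟨m - 9 * t, by omega, by omega, ?_⟩
  simp only [Prod.mk.injEq, true_and, and_true]
  omega

lemma mid2 {z : V3} {t : ℕ} {lo hi : ℤ} (hlo : 0 ≤ lo)
    (k : K1 cs z.1 z.2.1 + K2 z.1 z.2.1 = 18 * t + 16) (l1 : lo < K2 z.1 z.2.1)
    (l2 : K2 z.1 z.2.1 < hi) :
    ∃ j, j < 9 ∧ 2 * j + row j = 16 ∧ lo < row j ∧ row j < hi ∧ z = (0, 9 * t + j, z.2.2) := by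
  obtain ⟨y, m, v⟩ := z
  have y0 : y = 0 := by
    unfold K2 at l1
    simp only at l1
    split_ifs at l1 with h
    · exact h
    · omega
  subst y0
  simp only [K1_G, K2, if_true] at k l1 l2
  have hj := Nat.mod_lt m (show 0 < 9 by norm_num)
  have hr := row_cases hj
  refine ⟨m % 9, hj, by omega, l1, l2, ?_⟩
  simp only [Prod.mk.injEq, true_and, and_true]
  omega

lemma hit0 {t q : ℕ} (hg : Gen cs d t) (h36 : 36 ≤ q) (h40 : q < 40) {z : V3} (hz : Box n cs z)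
    (z1 : z.1 = 0) (z2 : z.2.1 = 9 * t + 4) (e : f2 cs d z = f2 cs d (0, 9 * t + 4, q)) :
    z = (0, 9 * t + 4, q) := by
  obtain ⟨y, m, v⟩ := z
  simp only at z1 z2
  subst z1 z2
  simp only [f2_G cs d t (show 4 < 9 by norm_num), gf2, if_true] at e
  by_contra hne
  exact hg.1.h q h36 h40 v hz.2.2 (fun h => hne (by rw [h])) e

lemma hit2 {t q : ℕ} (hg : Gen cs d t) (h36 : 36 ≤ q) (h40 : q < 40) {z : V3} (hz : Box n cs z)
    (z1 : z.1 = 0) (z2 : z.2.1 = 9 * t + 4)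
    (e : f1 cs d z + f2 cs d z = f1 cs d (0, 9 * t + 4, q) + f2 cs d (0, 9 * t + 4, q)) :
    z = (0, 9 * t + 4, q) := by
  obtain ⟨y, m, v⟩ := z
  simp only at z1 z2
  subst z1 z2
  simp only [f1_G cs d t (show 4 < 9 by norm_num), f2_G cs d t (show 4 < 9 by norm_num), gf1, gf2,
    if_true] at e
  by_contra hne
  exact hg.2.h q h36 h40 v hz.2.2 (fun h => hne (by rw [h])) e

lemma vals (t v : ℕ) :
    f2 cs d (0, 9 * t + 3, v) = X cs d t 3 + X cs d t 3 * (pos40 v).2 ∧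
    f2 cs d (0, 9 * t + 5, v) = 2 * X cs d t 3 + X cs d t 5 + X cs d t 5 * (pos40 v).2 ∧
    f2 cs d (0, 9 * t + 4, v) = r2 cs d t v ∧
    f1 cs d (0, 9 * t + 7, v) + f2 cs d (0, 9 * t + 7, v) =
      X cs d t 7 + X cs d t 7 * (((pos40 v).1 + (pos40 v).2 : ℤ) : ℝ) ∧
    f1 cs d (0, 9 * t + 1, v) + f2 cs d (0, 9 * t + 1, v) =
      2 * X cs d t 7 + X cs d t 1 + X cs d t 1 * (((pos40 v).1 + (pos40 v).2 : ℤ) : ℝ) ∧
    f1 cs d (0, 9 * t + 4, v) + f2 cs d (0, 9 * t + 4, v) = r1 cs d t v + r2 cs d t v := by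
  simp only [f1_G cs d t (show 1 < 9 by norm_num), f1_G cs d t (show 4 < 9 by norm_num),
    f1_G cs d t (show 7 < 9 by norm_num), f2_G cs d t (show 1 < 9 by norm_num),
    f2_G cs d t (show 3 < 9 by norm_num), f2_G cs d t (show 4 < 9 by norm_num),
    f2_G cs d t (show 5 < 9 by norm_num), f2_G cs d t (show 7 < 9 by norm_num), gf1, gf2, phi1,
    phi2]
  norm_num
  constructor <;> ring

lemma lines (t : ℕ) :
    f2 cs d (0, 9 * t + 3, 0) = 2 * X cs d t 3 ∧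
    f2 cs d (0, 9 * t + 2, 0) = r2 cs d t 38 + 2 * X cs d t 2 ∧
    f1 cs d (0, 9 * t + 7, 8) + f2 cs d (0, 9 * t + 7, 8) = 2 * X cs d t 7 ∧
    f1 cs d (0, 9 * t + 8, 8) + f2 cs d (0, 9 * t + 8, 8) =
      r1 cs d t 38 + r2 cs d t 38 + 2 * X cs d t 8 := by
  simp only [f1_G cs d t (show 8 < 9 by norm_num),
    f1_G cs d t (show 7 < 9 by norm_num), f2_G cs d t (show 2 < 9 by norm_num),
    f2_G cs d t (show 3 < 9 by norm_num), f2_G cs d t (show 8 < 9 by norm_num),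
    f2_G cs d t (show 7 < 9 by norm_num), gf1, gf2, phi1, phi2, pos40, posL]
  norm_num
  refine ⟨?_, ?_, ?_, ?_⟩ <;> ring

lemma chain_mid {x m y m' : ℕ} (a1 : K2 y m' = K2 (x + 1) m) (a2 : K1 cs (x + 1) m < K1 cs y m')
    (a3 : K1 cs y m' < K1 cs (x + 1) (m + 1)) : False := by
  have := row_nonneg (m' % 9) (Nat.mod_lt _ (by norm_num))
  have hy : y = x + 1 := by
    have h : K2 (x + 1) m = -(x + 1 : ℕ) := by simp [K2]
    rw [h] at a1
    unfold K2 at a1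
    split_ifs at a1 <;> omega
  subst hy
  by_cases h1 : m' = m
  · subst h1; exact lt_irrefl _ a2
  by_cases h2 : m' = m + 1
  · subst h2; exact lt_irrefl _ a3
  unfold K1 at a2 a3
  split_ifs at a2 a3 <;> omega

lemma up_mid {m y m' : ℕ} (h4 : m % 9 ≠ 4) (a1 : K1 cs y m' = K1 cs (var cs m + 1) m)
    (a2 : K2 (var cs m + 1) m < K2 y m') (a3 : K2 y m' < K2 0 m) : False := by
  have h : K1 cs (var cs m + 1) m = 2 * m := by simp [K1, h4]
  rw [h] at a1
  have hm : m' = m := by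
    unfold K1 at a1
    split_ifs at a1 <;> omega
  subst hm
  by_cases y0 : y = 0
  · subst y0; exact lt_irrefl _ a3
  · have : var cs m' + 1 = y := by
      unfold K1 at a1
      split_ifs at a1 with h1
      · exact h1.1
      · omega
    subst this
    exact lt_irrefl _ a2

theorem strict_edge (h : DataOK cs d n) (hgen : ∀ t < cs.length, Gen cs d t) (hL : Big cs d n L)
    {u w z : V3} (he : Edge n cs u w) (hz : Box n cs z) (ho : On cs d L z u w) :
    z = u ∨ z = w := by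
  obtain ⟨bu, bw⟩ := he.box h.vars
  cases he with
  | int y m a b hy hm he => exact strict_int h hL hz bu bw he ho
  | ch1 x m hx hm =>
    obtain ⟨e1, e2, ⟨a1, a2, a3⟩ | ⟨a1, a2, a3⟩ | ⟨a1, a2, a3⟩⟩ := (h_ch1 x m).cases hL hz bu bw ho
    · exact Or.inl ((ends h bu hz (by norm_num) (by omega) a1 a2).1 rfl e1 a3)
    · exact Or.inr ((ends h bw hz (by norm_num) (by omega) a1 a2).2.1 rfl e2 a3)
    · exact (chain_mid a1 a2 a3).elim
  | ch2 x m hx hm =>
    obtain ⟨e1, e2, ⟨a1, a2, a3⟩ | ⟨a1, a2, a3⟩ | ⟨a1, a2, a3⟩⟩ := (h_ch2 x m).cases hL hz bu bw ho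
    · exact Or.inl ((ends h bu hz (by norm_num) (by omega) a1 a2).1 rfl e1 a3)
    · exact Or.inr ((ends h bw hz (by norm_num) (by omega) a1 a2).2.1 rfl e2 a3)
    · exact (chain_mid a1 a2 a3).elim
  | up1 m hm h4 =>
    obtain ⟨e1, e2, ⟨a1, a2, a3⟩ | ⟨a1, a2, a3⟩ | ⟨a1, a2, a3⟩⟩ :=
      (h_up1 m h4).cases hL hz bu bw ho
    · exact Or.inl ((ends h bu hz (by norm_num) (by omega) a1 a2).2.2.1 rfl e1 a3)
    · exact Or.inr ((ends h bw hz (by norm_num) (by omega) a1 a2).2.2.2.1 rfl e2 a3)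
    · exact (up_mid h4 a1 a2 a3).elim
  | up2 m hm h4 =>
    obtain ⟨e1, e2, ⟨a1, a2, a3⟩ | ⟨a1, a2, a3⟩ | ⟨a1, a2, a3⟩⟩ :=
      (h_up2 m h4).cases hL hz bu bw ho
    · exact Or.inl ((ends h bu hz (by norm_num) (by omega) a1 a2).2.2.1 rfl e1 a3)
    · exact Or.inr ((ends h bw hz (by norm_num) (by omega) a1 a2).2.2.2.1 rfl e2 a3)
    · exact (up_mid h4 a1 a2 a3).elim
  | gad t j f j' f' ht he =>
    obtain ⟨g1, g2, g3, g4, g5, g6, g7, g8, g9, g10, g11, g12⟩ := h_gad h ht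
    have hg := hgen t ht
    obtain ⟨v3, v5, v4, w7, w1, w4⟩ := vals (cs := cs) (d := d) t z.2.2
    obtain ⟨n1, n2, n3, n4⟩ := lines (cs := cs) (d := d) t
    have hv : z.2.2 < 40 := hz.2.2
    have kk : ∀ j < 9, K2 0 (9 * t + j) = row j := fun j hj => K2_G t hj
    have k7 : K1 cs 0 (9 * t + 7) + K2 0 (9 * t + 7) = 18 * t + 16 := by
      rw [K1_G, kk 7 (by norm_num)]; simp [row]; ring
    have k8 : K1 cs 0 (9 * t + 8) + K2 0 (9 * t + 8) = 18 * t + 16 := by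
      rw [K1_G, kk 8 (by norm_num)]; simp [row]; ring
    have k4 : K1 cs 0 (9 * t + 4) + K2 0 (9 * t + 4) = 18 * t + 16 := by
      rw [K1_G, kk 4 (by norm_num)]; simp [row]; ring
    simp only [GE, List.mem_cons, Prod.mk.injEq, List.not_mem_nil, or_false] at he
    rcases he with he | he | he | he | he | he | he | he | he | he | he | he | he | he | he | he <;>
      obtain ⟨rfl, rfl, rfl, rfl⟩ := he
    · obtain ⟨e1, e2, ⟨a1, a2, a3⟩ | ⟨a1, a2, a3⟩ | ⟨a1, a2, a3⟩⟩ := g1.cases hL hz bu bw ho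
      · exact Or.inl ((ends h bu hz (by norm_num) (by omega) a1 a2).1 rfl e1 a3)
      · exact Or.inr (hit0 hg (by norm_num) (by norm_num) hz a1 a2 e2)
      · obtain ⟨j, j1, j2, -⟩ := mid0 (a1.trans (kk 3 (by norm_num))) a2 a3
        omega
    · obtain ⟨e1, e2, ⟨a1, a2, a3⟩ | ⟨a1, a2, a3⟩ | ⟨a1, a2, a3⟩⟩ := g2.cases hL hz bu bw ho
      · exact Or.inl ((ends h bu hz (by norm_num) (by omega) a1 a2).1 rfl e1 a3)
      · exact Or.inr ((ends h bw hz (by norm_num) (by omega) a1 a2).2.1 rfl e2 a3)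
      · obtain ⟨j, j1, j2, hj⟩ := mid0 (a1.trans (kk 3 (by norm_num))) a2 a3
        obtain rfl : j = 4 := by omega
        rw [hj, v4, n1] at e1
        exact absurd e1 (hg.1.m _ hv).1
    · obtain ⟨e1, e2, ⟨a1, a2, a3⟩ | ⟨a1, a2, a3⟩ | ⟨a1, a2, a3⟩⟩ := g3.cases hL hz bw bu ho.symm
      · exact Or.inr (hit0 hg (by norm_num) (by norm_num) hz a1 a2 e1)
      · exact Or.inl ((ends h bu hz (by norm_num) (by omega) a1 a2).2.1 rfl e2 a3)
      · obtain ⟨j, j1, j2, -⟩ := mid0 (a1.trans (kk 4 (by norm_num))) a2 a3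
        omega
    · obtain ⟨e1, e2, ⟨a1, a2, a3⟩ | ⟨a1, a2, a3⟩ | ⟨a1, a2, a3⟩⟩ := g4.cases hL hz bu bw ho
      · exact Or.inl ((ends h bu hz (by norm_num) (by omega) a1 a2).1 rfl e1 a3)
      · exact Or.inr (hit0 hg (by norm_num) (by norm_num) hz a1 a2 e2)
      · obtain ⟨j, j1, j2, hj⟩ := mid0 (a1.trans (kk 2 (by norm_num))) a2 a3
        obtain rfl : j = 3 := by omega
        rw [hj, v3, (vals (cs := cs) (d := d) t 38).2.2.1] at e2
        exact absurd e2.symm (hg.1.a _).1.1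
    · obtain ⟨e1, e2, ⟨a1, a2, a3⟩ | ⟨a1, a2, a3⟩ | ⟨a1, a2, a3⟩⟩ := g5.cases hL hz bu bw ho
      · exact Or.inl ((ends h bu hz (by norm_num) (by omega) a1 a2).1 rfl e1 a3)
      · exact Or.inr ((ends h bw hz (by norm_num) (by omega) a1 a2).2.1 rfl e2 a3)
      · obtain ⟨j, j1, j2, hj⟩ := mid0 (a1.trans (kk 2 (by norm_num))) a2 a3
        rcases (by omega : j = 3 ∨ j = 4 ∨ j = 5) with rfl | rfl | rfl
        · rw [hj, v3, n2] at e1
          exact absurd e1.symm (hg.1.a _).1.2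
        · rw [hj, v4, n2] at e1
          exact absurd e1 (hg.1.m _ hv).2
        · rw [hj, v5, n2] at e1
          exact absurd e1.symm (hg.1.a _).2.1
    · obtain ⟨e1, e2, ⟨a1, a2, a3⟩ | ⟨a1, a2, a3⟩ | ⟨a1, a2, a3⟩⟩ := g6.cases hL hz bw bu ho.symm
      · exact Or.inr (hit0 hg (by norm_num) (by norm_num) hz a1 a2 e1)
      · exact Or.inl ((ends h bu hz (by norm_num) (by omega) a1 a2).2.1 rfl e2 a3)
      · obtain ⟨j, j1, j2, hj⟩ := mid0 (a1.trans (kk 4 (by norm_num))) a2 a3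
        obtain rfl : j = 5 := by omega
        rw [hj, v5, (vals (cs := cs) (d := d) t 39).2.2.1] at e1
        exact absurd e1.symm (hg.1.a _).2.2
    · obtain ⟨e1, e2, ⟨a1, a2, a3⟩ | ⟨a1, a2, a3⟩ | ⟨a1, a2, a3⟩⟩ := g7.cases hL hz bu bw ho
      · exact Or.inl ((ends h bu hz (by norm_num) (by omega) a1 a2).2.2.2.2.1 rfl e1 a3)
      · exact Or.inr (hit2 hg (by norm_num) (by norm_num) hz a1 a2 e2)
      · rw [kk 7 (by norm_num)] at a2; rw [kk 4 (by norm_num)] at a3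
        obtain ⟨j, j0, j1, j2, j3, -⟩ := mid2 (by decide) (a1.trans k7) a2 a3
        have := row_cases j0
        have r7 : row 7 = 2 := rfl
        have r4 : row 4 = 8 := rfl
        omega
    · obtain ⟨e1, e2, ⟨a1, a2, a3⟩ | ⟨a1, a2, a3⟩ | ⟨a1, a2, a3⟩⟩ := g8.cases hL hz bu bw ho
      · exact Or.inl ((ends h bu hz (by norm_num) (by omega) a1 a2).2.2.2.2.1 rfl e1 a3)
      · exact Or.inr ((ends h bw hz (by norm_num) (by omega) a1 a2).2.2.2.2.2 rfl e2 a3)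
      · rw [kk 7 (by norm_num)] at a2; rw [kk 1 (by norm_num)] at a3
        obtain ⟨j, j0, j1, j2, j3, hj⟩ := mid2 (by decide) (a1.trans k7) a2 a3
        have := row_cases j0
        have r7 : row 7 = 2 := rfl
        have r1 : row 1 = 14 := rfl
        obtain rfl : j = 4 := by omega
        rw [hj, w4, n3] at e1
        exact absurd e1 (hg.2.m _ hv).1
    · obtain ⟨e1, e2, ⟨a1, a2, a3⟩ | ⟨a1, a2, a3⟩ | ⟨a1, a2, a3⟩⟩ := g9.cases hL hz bw bu ho.symm
      · exact Or.inr (hit2 hg (by norm_num) (by norm_num) hz a1 a2 e1)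
      · exact Or.inl ((ends h bu hz (by norm_num) (by omega) a1 a2).2.2.2.2.2 rfl e2 a3)
      · rw [kk 4 (by norm_num)] at a2; rw [kk 1 (by norm_num)] at a3
        obtain ⟨j, j0, j1, j2, j3, -⟩ := mid2 (by decide) (a1.trans k4) a2 a3
        have := row_cases j0
        have r4 : row 4 = 8 := rfl
        have r1 : row 1 = 14 := rfl
        omega
    · obtain ⟨e1, e2, ⟨a1, a2, a3⟩ | ⟨a1, a2, a3⟩ | ⟨a1, a2, a3⟩⟩ := g10.cases hL hz bu bw ho
      · exact Or.inl ((ends h bu hz (by norm_num) (by omega) a1 a2).2.2.2.2.1 rfl e1 a3)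
      · exact Or.inr (hit2 hg (by norm_num) (by norm_num) hz a1 a2 e2)
      · rw [kk 8 (by norm_num)] at a2; rw [kk 4 (by norm_num)] at a3
        obtain ⟨j, j0, j1, j2, j3, hj⟩ := mid2 (by decide) (a1.trans k8) a2 a3
        have := row_cases j0
        have r8 : row 8 = 0 := rfl
        have r4 : row 4 = 8 := rfl
        obtain rfl : j = 7 := by omega
        rw [hj, w7, (vals (cs := cs) (d := d) t 38).2.2.2.2.2] at e2
        exact absurd e2.symm (hg.2.a _).1.1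
    · obtain ⟨e1, e2, ⟨a1, a2, a3⟩ | ⟨a1, a2, a3⟩ | ⟨a1, a2, a3⟩⟩ := g11.cases hL hz bu bw ho
      · exact Or.inl ((ends h bu hz (by norm_num) (by omega) a1 a2).2.2.2.2.1 rfl e1 a3)
      · exact Or.inr ((ends h bw hz (by norm_num) (by omega) a1 a2).2.2.2.2.2 rfl e2 a3)
      · rw [kk 8 (by norm_num)] at a2; rw [kk 0 (by norm_num)] at a3
        obtain ⟨j, j0, j1, j2, j3, hj⟩ := mid2 (by decide) (a1.trans k8) a2 a3
        have := row_cases j0
        have r8 : row 8 = 0 := rfl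
        have r0 : row 0 = 16 := rfl
        rcases (by omega : j = 7 ∨ j = 4 ∨ j = 1) with rfl | rfl | rfl
        · rw [hj, w7, n4] at e1
          exact absurd e1.symm (hg.2.a _).1.2
        · rw [hj, w4, n4] at e1
          exact absurd e1 (hg.2.m _ hv).2
        · rw [hj, w1, n4] at e1
          exact absurd e1.symm (hg.2.a _).2.1
    · obtain ⟨e1, e2, ⟨a1, a2, a3⟩ | ⟨a1, a2, a3⟩ | ⟨a1, a2, a3⟩⟩ := g12.cases hL hz bw bu ho.symm
      · exact Or.inr (hit2 hg (by norm_num) (by norm_num) hz a1 a2 e1)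
      · exact Or.inl ((ends h bu hz (by norm_num) (by omega) a1 a2).2.2.2.2.2 rfl e2 a3)
      · rw [kk 4 (by norm_num)] at a2; rw [kk 0 (by norm_num)] at a3
        obtain ⟨j, j0, j1, j2, j3, hj⟩ := mid2 (by decide) (a1.trans k4) a2 a3
        have := row_cases j0
        have r4 : row 4 = 8 := rfl
        have r0 : row 0 = 16 := rfl
        obtain rfl : j = 1 := by omega
        rw [hj, w1, (vals (cs := cs) (d := d) t 39).2.2.2.2.2] at e1
        exact absurd e1.symm (hg.2.a _).2.2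
    · exact strict_R h hL hz ht (by simp) ho
    · exact strict_R h hL hz ht (by simp) ho
    · exact strict_R h hL hz ht (by simp) ho
    · exact strict_R h hL hz ht (by simp) ho

/-- No vertex lies on an edge not incident to it. -/
def Strict (n : ℕ) (cs : List (List ℕ)) (p : V3 → ℂ) : Prop :=
  ∀ u w z, Edge n cs u w → Box n cs z → z ≠ u → z ≠ w → p z ∉ segment ℝ (p u) (p w)

theorem complete (hv : VarsOK n cs) (hs : Solvable n cs) :
    ∃ p : V3 → ℂ, Good n cs p ∧ Strict n cs p := by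
  obtain ⟨d, hd, hgen⟩ := exists_data hv hs
  obtain ⟨L, -, hL⟩ := exists_big cs d n
  have hω : IsZ (⟨1 / 2, Real.sqrt 3 / 2⟩ : ℂ) := by
    have h3 : Real.sqrt 3 * Real.sqrt 3 = 3 := Real.mul_self_sqrt (by norm_num)
    unfold IsZ
    apply Complex.ext
    · simp [pow_two]; nlinarith
    · simp [pow_two]; ring
  refine ⟨pt cs d _ L, good_pt hd hω hL, fun u w z he hz hu hw hseg => ?_⟩
  rw [segment_eq_image'] at hseg
  obtain ⟨s, ⟨h0, h1⟩, e⟩ := hseg
  have : ((P1 cs d L z : ℝ) : ℂ) + (P2 cs d L z : ℝ) * (⟨1 / 2, Real.sqrt 3 / 2⟩ : ℂ) =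
      ((P1 cs d L u + s * (P1 cs d L w - P1 cs d L u) : ℝ) : ℂ) +
      ((P2 cs d L u + s * (P2 cs d L w - P2 cs d L u) : ℝ) : ℂ) * ⟨1 / 2, Real.sqrt 3 / 2⟩ := by
    simp only [pt, Complex.real_smul] at e
    rw [← e]; push_cast; ring
  obtain ⟨e1, e2⟩ := hω.coord this
  rcases strict_edge hd hgen hL he hz ⟨s, h0, h1, e1, e2⟩ with h | h
  · exact hu h
  · exact hw h

end

end Pool.Agent.MP_aca74d_lc.H29
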