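import Mathlib
import Pool.Agent.MP_aca74d_lc.H29.Run
import Pool.Agent.MP_aca74d_lc.H29.Graph

/-!
From equations r i * r j + r k = r l over the reals to gadget equations over positive reals.
-/

namespace Pool.Agent.MP_aca74d_lc.H29

open Classical Pool.Agent.Shared.H56

def posQ (v : ℕ) : List ℕ := [0, 0, 1, v, 0, 0, 0, v, 0]
def addQ (x y z : ℕ) : List ℕ := [0, 1, z, x, 0, x, y, 0, 0]
def mulQ (x y z : ℕ) : List ℕ := [y, z, 1, x, 0, x, 0, z, y]

def conQ (b : ℕ) (c : Con) : List (List ℕ) :=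
  [mulQ (2 + 2 * c.1) (2 + 2 * c.2.1) b, mulQ (3 + 2 * c.1) (3 + 2 * c.2.1) (b + 1),
   mulQ (2 + 2 * c.1) (3 + 2 * c.2.1) (b + 2), mulQ (3 + 2 * c.1) (2 + 2 * c.2.1) (b + 3),
   addQ b (b + 1) (b + 4), addQ (2 + 2 * c.2.2.1) (3 + 2 * c.2.2.2) (b + 5),
   addQ (b + 4) (b + 5) (b + 6), addQ (b + 2) (b + 3) (b + 7),
   addQ (3 + 2 * c.2.2.1) (2 + 2 * c.2.2.2) (b + 8), addQ (b + 7) (b + 8) (b + 6)]

def nvar (N : ℕ) (cons : List Con) : ℕ := 2 + 2 * N + 9 * cons.length

def tuples (N : ℕ) (cons : List Con) : List (List ℕ) :=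
  (List.range (nvar N cons)).map posQ ++
    addQ 3 0 2 :: cons.zipIdx.flatMap fun e => conQ (2 + 2 * N + 9 * e.2) e.1

lemma var_eq (cs : List (List ℕ)) (t j : ℕ) (hj : j < 9) :
    var cs (9 * t + j) = (cs.getD t []).getD j 0 := by
  unfold var
  rw [show (9 * t + j) / 9 = t by omega, show (9 * t + j) % 9 = j by omega]

lemma qeq_var (cs : List (List ℕ)) (t : ℕ) (x : ℕ → ℝ) :
    (Qeq fun j => x (var cs (9 * t + j))) ↔ Qeq fun j => x ((cs.getD t []).getD j 0) := by
  simp only [Qeq]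
  rw [var_eq cs t 0 (by omega), var_eq cs t 1 (by omega), var_eq cs t 2 (by omega),
    var_eq cs t 3 (by omega), var_eq cs t 5 (by omega), var_eq cs t 6 (by omega),
    var_eq cs t 7 (by omega), var_eq cs t 8 (by omega)]

lemma solvable_iff (n : ℕ) (cs : List (List ℕ)) : Solvable n cs ↔
    ∃ x : ℕ → ℝ, (∀ i < n, 0 < x i) ∧ ∀ q ∈ cs, Qeq fun j => x (q.getD j 0) := by
  unfold Solvable
  refine exists_congr fun x => and_congr_right fun _ => ⟨fun h q hq => ?_, fun h t ht => ?_⟩
  · obtain ⟨t, ht, rfl⟩ := List.getElem_of_mem hq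
    have := (qeq_var cs t x).1 (h t ht)
    rwa [List.getD_eq_getElem _ _ ht] at this
  · rw [qeq_var, List.getD_eq_getElem _ _ ht]
    exact h _ (List.getElem_mem ht)

lemma varsOK_of {n : ℕ} {cs : List (List ℕ)} (hn : 0 < n) (h : ∀ q ∈ cs, ∀ v ∈ q, v < n) :
    VarsOK n cs := by
  intro m hm
  have ht : m / 9 < cs.length := by omega
  unfold var
  rw [List.getD_eq_getElem _ _ ht]
  by_cases hj : m % 9 < cs[m / 9].length
  · rw [List.getD_eq_getElem _ _ hj]
    exact h _ (List.getElem_mem ht) _ (List.getElem_mem hj)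
  · rw [List.getD_eq_default _ _ (by omega)]; exact hn

lemma aligned_of {n : ℕ} {cs : List (List ℕ)} (h : ∀ v < n, posQ v ∈ cs) : Aligned n cs := by
  intro v hv
  obtain ⟨t, ht, e⟩ := List.getElem_of_mem (h v hv)
  refine ⟨t, ht, ?_⟩
  rw [var_eq cs t 1 (by omega), var_eq cs t 3 (by omega), var_eq cs t 5 (by omega),
    var_eq cs t 7 (by omega), List.getD_eq_getElem _ _ ht, e]
  simp [posQ]

lemma mem_tuples {N : ℕ} {cons : List Con} {q : List ℕ} : q ∈ tuples N cons ↔
    (∃ v < nvar N cons, q = posQ v) ∨ q = addQ 3 0 2 ∨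
      ∃ i c, cons[i]? = some c ∧ q ∈ conQ (2 + 2 * N + 9 * i) c := by
  simp only [tuples, List.mem_append, List.mem_map, List.mem_range, List.mem_cons,
    List.mem_flatMap]
  refine or_congr ⟨fun ⟨v, h1, h2⟩ => ⟨v, h1, h2.symm⟩, fun ⟨v, h1, h2⟩ => ⟨v, h1, h2.symm⟩⟩
    (or_congr Iff.rfl ⟨?_, ?_⟩)
  · rintro ⟨⟨c, i⟩, h1, h2⟩
    exact ⟨i, c, List.mem_zipIdx_iff_getElem?.1 h1, h2⟩
  · rintro ⟨i, c, h1, h2⟩
    exact ⟨(c, i), List.mem_zipIdx_iff_getElem?.2 h1, h2⟩

lemma tuples_aligned (N : ℕ) (cons : List Con) : Aligned (nvar N cons) (tuples N cons) :=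
  aligned_of fun v hv => mem_tuples.2 (Or.inl ⟨v, hv, rfl⟩)

lemma tuples_varsOK {N : ℕ} {cons : List Con} (hN : 0 < N) (hb : Bd N cons) :
    VarsOK (nvar N cons) (tuples N cons) := by
  refine varsOK_of (by unfold nvar; omega) fun q hq v hv => ?_
  rcases mem_tuples.1 hq with ⟨u, hu, rfl⟩ | rfl | ⟨i, c, hc, hq⟩
  · simp only [posQ, List.mem_cons, List.not_mem_nil, or_false] at hv
    unfold nvar at *; omega
  · simp only [addQ, List.mem_cons, List.not_mem_nil, or_false] at hv
    unfold nvar at *; omega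
  · obtain ⟨hi, rfl⟩ := List.getElem?_eq_some_iff.1 hc
    obtain ⟨h1, h2, h3, h4⟩ := hb _ (List.getElem_mem hi)
    simp only [conQ, List.mem_cons, List.not_mem_nil, or_false] at hq
    unfold nvar
    rcases hq with rfl | rfl | rfl | rfl | rfl | rfl | rfl | rfl | rfl | rfl <;>
      simp only [addQ, mulQ, List.mem_cons, List.not_mem_nil, or_false] at hv <;> omega

lemma qeq_pos {x : ℕ → ℝ} {v : ℕ} (h0 : 0 < x 0) (hv : 0 < x v) :
    (Qeq fun j => x ((posQ v).getD j 0)) ↔ x 1 = 3 * x 0 := by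
  simp only [Qeq, posQ, List.getD_cons_succ, List.getD_cons_zero]
  constructor
  · intro h
    have : (x v + x 0) * (x 1 - 3 * x 0) = 0 := by linarith
    have := (mul_eq_zero.1 this).resolve_left (by positivity)
    linarith
  · intro h; rw [h]; ring

lemma qeq_add {x : ℕ → ℝ} {a b c : ℕ} (h0 : 0 < x 0) (h1 : x 1 = 3 * x 0) :
    (Qeq fun j => x ((addQ a b c).getD j 0)) ↔ x a + x b = x c := by
  simp only [Qeq, addQ, List.getD_cons_succ, List.getD_cons_zero, h1]
  constructor
  · intro h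
    have : x 0 * (x a + x b - x c) = 0 := by linarith
    have := (mul_eq_zero.1 this).resolve_left h0.ne'
    linarith
  · intro h; rw [← h]; ring

lemma qeq_mul {x : ℕ → ℝ} {a b c : ℕ} (h1 : x 1 = 3 * x 0) :
    (Qeq fun j => x ((mulQ a b c).getD j 0)) ↔ x a * x b = x 0 * x c := by
  simp only [Qeq, mulQ, List.getD_cons_succ, List.getD_cons_zero, h1]
  constructor
  · intro h; linarith
  · intro h; linarith

theorem tuples_solvable {N : ℕ} {cons : List Con} (hN : 0 < N) (hb : Bd N cons) :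
    Solvable (nvar N cons) (tuples N cons) ↔ ∃ r : ℕ → ℝ, r 0 = 1 ∧ Sat cons r := by
  rw [solvable_iff]
  constructor
  · rintro ⟨x, hp, hq⟩
    have h0 : 0 < x 0 := hp 0 (by unfold nvar; omega)
    have h1 : x 1 = 3 * x 0 :=
      (qeq_pos h0 h0).1 (hq _ (mem_tuples.2 (Or.inl ⟨0, by unfold nvar; omega, rfl⟩)))
    refine ⟨fun k => (x (2 + 2 * k) - x (3 + 2 * k)) / x 0, ?_, fun c hc => ?_⟩
    · have := (qeq_add h0 h1).1 (hq _ (mem_tuples.2 (Or.inr (Or.inl rfl))))
      simp only [mul_zero, add_zero]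
      field_simp
      linarith
    · obtain ⟨i, hi, rfl⟩ := List.getElem_of_mem hc
      have key : ∀ q ∈ conQ (2 + 2 * N + 9 * i) cons[i], Qeq fun j => x (q.getD j 0) :=
        fun q h => hq q (mem_tuples.2 (Or.inr (Or.inr ⟨i, _, List.getElem?_eq_getElem hi, h⟩)))
      simp only [conQ, List.mem_cons, List.not_mem_nil, or_false, forall_eq_or_imp, forall_eq,
        qeq_add h0 h1, qeq_mul h1] at key
      obtain ⟨k1, k2, k3, k4, k5, k6, k7, k8, k9, k10⟩ := key
      field_simp
      linear_combination k1 + k2 - k3 - k4 + x 0 * (k5 + k6 + k7 - k8 - k9 - k10)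
  · rintro ⟨r, h0, hs⟩
    let P : ℕ → ℝ := fun k => |r k| + 1 + r k
    let M : ℕ → ℝ := fun k => |r k| + 1
    have hP : ∀ k, 0 < P k := fun k => by
      have := neg_abs_le (r k); simp only [P]; linarith
    have hM : ∀ k, 0 < M k := fun k => by simp only [M]; positivity
    have hPM : ∀ k, P k = M k + r k := fun k => rfl
    let T : Con → List ℝ := fun c =>
      [P c.1 * P c.2.1, M c.1 * M c.2.1, P c.1 * M c.2.1, M c.1 * P c.2.1,
       P c.1 * P c.2.1 + M c.1 * M c.2.1, P c.2.2.1 + M c.2.2.2,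
       P c.1 * P c.2.1 + M c.1 * M c.2.1 + (P c.2.2.1 + M c.2.2.2),
       P c.1 * M c.2.1 + M c.1 * P c.2.1, M c.2.2.1 + P c.2.2.2]
    have hT : ∀ c j, 0 < (T c).getD j 1 := by
      intro c j
      by_cases hj : j < (T c).length
      · rw [List.getD_eq_getElem _ _ hj]
        have hm := List.getElem_mem hj
        generalize (T c)[j] = z at hm
        have := hP c.1; have := hP c.2.1; have := hP c.2.2.1; have := hP c.2.2.2
        have := hM c.1; have := hM c.2.1; have := hM c.2.2.1; have := hM c.2.2.2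
        simp only [T, List.mem_cons, List.not_mem_nil, or_false] at hm
        rcases hm with rfl | rfl | rfl | rfl | rfl | rfl | rfl | rfl | rfl <;> positivity
      · rw [List.getD_eq_default _ _ (by omega)]; exact one_pos
    let x : ℕ → ℝ := fun v => if v = 0 then 1 else if v = 1 then 3 else
      if v < 2 + 2 * N then (if v % 2 = 0 then P ((v - 2) / 2) else M ((v - 2) / 2)) else
      (T (cons.getD ((v - (2 + 2 * N)) / 9) (0, 0, 0, 0))).getD ((v - (2 + 2 * N)) % 9) 1
    have x0 : x 0 = 1 := rfl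
    have x1 : x 1 = 3 * x 0 := by simp [x]
    have xP : ∀ k < N, x (2 + 2 * k) = P k := by
      intro k hk
      simp only [x]
      rw [if_neg (by omega), if_neg (by omega), if_pos (by omega), if_pos (by omega),
        show (2 + 2 * k - 2) / 2 = k by omega]
    have xM : ∀ k < N, x (3 + 2 * k) = M k := by
      intro k hk
      simp only [x]
      rw [if_neg (by omega), if_neg (by omega), if_pos (by omega), if_neg (by omega),
        show (3 + 2 * k - 2) / 2 = k by omega]
    have xT : ∀ i j, j < 9 → x (2 + 2 * N + 9 * i + j) = (T (cons.getD i (0, 0, 0, 0))).getD j 1 := by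
      intro i j hj
      simp only [x]
      rw [if_neg (by omega), if_neg (by omega), if_neg (by omega),
        show (2 + 2 * N + 9 * i + j - (2 + 2 * N)) / 9 = i by omega,
        show (2 + 2 * N + 9 * i + j - (2 + 2 * N)) % 9 = j by omega]
    have xpos : ∀ v, 0 < x v := by
      intro v
      simp only [x]
      split_ifs
      · exact one_pos
      · norm_num
      · exact hP _
      · exact hM _
      · exact hT _ _
    refine ⟨x, fun v _ => xpos v, fun q hq => ?_⟩
    rcases mem_tuples.1 hq with ⟨u, hu, rfl⟩ | rfl | ⟨i, c, hc, hq⟩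
    · exact (qeq_pos (xpos 0) (xpos u)).2 x1
    · rw [qeq_add (xpos 0) x1, xP 0 hN, xM 0 hN, x0, hPM, h0]
    · obtain ⟨hi, e⟩ := List.getElem?_eq_some_iff.1 hc
      have hc' : c ∈ cons := e ▸ List.getElem_mem hi
      obtain ⟨h1, h2, h3, h4⟩ := hb _ hc'
      have e0 := xT i 0 (by omega)
      have eT := xT i
      rw [List.getD_eq_getElem _ _ hi, e] at e0 eT
      rw [add_zero] at e0
      have hsat := hs c hc'
      refine (show ∀ q ∈ conQ (2 + 2 * N + 9 * i) c, Qeq fun j => x (q.getD j 0) from ?_) q hq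
      simp only [conQ, List.mem_cons, List.not_mem_nil, or_false, forall_eq_or_imp, forall_eq,
        qeq_add (xpos 0) x1, qeq_mul x1, xP _ h1, xP _ h2, xP _ h3, xP _ h4, xM _ h1, xM _ h2,
        xM _ h3, xM _ h4, e0, eT 1 (by omega), eT 2 (by omega), eT 3 (by omega), eT 4 (by omega),
        eT 5 (by omega), eT 6 (by omega), eT 7 (by omega), eT 8 (by omega), x0, T,
        List.getD_cons_succ, List.getD_cons_zero, one_mul, true_and]
      simp only [hPM]
      linear_combination -hsat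

variable {α : Type} [N487b59b3 α]

@[fun_prop] theorem pt_un_nvar {N : α → ℕ} {c : α → List Con} (hN : PT fun a => un (N a))
    (hc : PT c) : PT fun a => un (nvar (N a) (c a)) := by
  unfold nvar; fun_prop

theorem pt_tuples {N : α → ℕ} {c : α → List Con} (hN : PT fun a => un (N a))
    (hc : PT c) : PT fun a => tuples (N a) (c a) := by
  have h1 := hN.of_un
  have h2 := (pt_un_nvar hN hc).range
  unfold tuples conQ posQ addQ mulQ
  fun_prop

end Pool.Agent.MP_aca74d_lc.H29
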