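import Mathlib
import Pool.Agent.MP_aca74d_lc.H29.Bridge
import Pool.Agent.MP_aca74d_lc.H29.Tuples
import Pool.Agent.MP_aca74d_lc.H29.Sound
import Pool.Agent.MP_aca74d_lc.H29.Strict

/-!
Adjacency matrices, and the gadget graph as a graph on an initial segment of the naturals.
-/

namespace Pool.Agent.MP_aca74d_lc.H29

open Classical Pool.Agent.Shared.H56 Real

lemma grid_eq {β : Type} (n m : ℕ) (f : ℕ → ℕ → β) :
    ((List.range n).flatMap fun i => (List.range m).map (f i)) =
      (List.range (n * m)).map fun k => f (k / m) (k % m) := by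
  induction n with
  | zero => simp
  | succ n ih =>
    rw [List.range_succ, List.flatMap_append, ih, Nat.succ_mul, List.range_add, List.map_append]
    congr 1
    simp only [List.flatMap_cons, List.flatMap_nil, List.append_nil, List.map_map]
    refine List.map_congr_left fun j hj => ?_
    have hj := List.mem_range.1 hj
    simp only [Function.comp]
    rw [show (n * m + j) / m = n by
        rw [add_comm, Nat.add_mul_div_right _ _ (by omega), Nat.div_eq_of_lt hj, zero_add],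
      show (n * m + j) % m = j by rw [add_comm, Nat.add_mul_mod_self_right, Nat.mod_eq_of_lt hj]]

lemma adjBits_eq {n : ℕ} (G : SimpleGraph (Fin n)) (f : ℕ → ℕ → Bool)
    (h : ∀ i j : Fin n, G.Adj i j ↔ f i j = true) :
    adjBits G = (List.range (n * n)).map fun k => f (k / n) (k % n) := by
  rw [← grid_eq, ← List.map_coe_finRange_eq_range, List.flatMap_map]
  unfold adjBits
  refine List.flatMap_congr fun i _ => ?_
  rw [List.map_map]
  refine List.map_congr_left fun j _ => ?_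
  rw [Bool.eq_iff_iff]
  simp [h]

lemma adjBits_spec {n : ℕ} (G : SimpleGraph (Fin n)) : (adjBits G).length = n * n ∧
    ∀ i j : Fin n, G.Adj i j ↔ (adjBits G).getD (i * n + j) false = true := by
  obtain ⟨f, hf⟩ : ∃ f : ℕ → ℕ → Bool, ∀ i j : Fin n, G.Adj i j ↔ f i j = true :=
    ⟨fun i j => decide (∃ (hi : i < n) (hj : j < n), G.Adj ⟨i, hi⟩ ⟨j, hj⟩), fun i j => by simp⟩
  have e := adjBits_eq G f hf
  refine ⟨by simp [e], fun i j => ?_⟩
  have hi := i.2
  have hj := j.2
  have hk : i * n + j < n * n := by nlinarith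
  rw [e, List.getD_eq_getElem _ _ (by simpa using hk)]
  simp only [List.getElem_map, List.getElem_range]
  rw [show (i * n + j) / n = i by
      rw [add_comm, Nat.add_mul_div_right _ _ (by omega), Nat.div_eq_of_lt hj, zero_add],
    show (i * n + j) % n = j by rw [add_comm, Nat.add_mul_mod_self_right, Nat.mod_eq_of_lt hj]]
  exact hf i j

lemma AR_adjBits (strict : Bool) {n : ℕ} (G : SimpleGraph (Fin n)) :
    AR strict (π / 3) (adjBits G) = true ↔ DrawC strict G := by
  rw [← drawable_iff]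
  simp only [AR, decide_eq_true_eq]
  refine ⟨?_, fun h => ⟨n, G, rfl, h⟩⟩
  rintro ⟨m, H, h1, h2⟩
  have e1 := (adjBits_spec G).1
  rw [h1, (adjBits_spec H).1] at e1
  obtain rfl : m = n := Nat.mul_self_inj.1 e1
  have : G = H := by
    ext i j
    rw [(adjBits_spec G).2, (adjBits_spec H).2, h1]
  rwa [this]

/-- Decidable form of the edge relation. -/
def EdgeB (cs : List (List ℕ)) (u w : V3) : Bool :=
  (decide (u.1 = w.1) && decide (u.2.1 = w.2.1) && decide ((u.2.2, w.2.2) ∈ UE)) ||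
  (decide (u.1 = w.1) && decide (1 ≤ u.1) && decide (w.2.1 = u.2.1 + 1) &&
    decide ((u.2.2, w.2.2) ∈ [(0, 9), (6, 3)])) ||
  (decide (u.1 = var cs u.2.1 + 1) && decide (w.1 = 0) && decide (u.2.1 = w.2.1) &&
    decide (u.2.1 % 9 ≠ 4) && decide ((u.2.2, w.2.2) ∈ [(1, 10), (7, 4)])) ||
  (decide (u.1 = 0) && decide (w.1 = 0) && decide (u.2.1 / 9 = w.2.1 / 9) &&
    decide ((u.2.1 % 9, u.2.2, w.2.1 % 9, w.2.2) ∈ GE))

lemma ge_table' : ∀ e ∈ GE, e.1 < 9 ∧ e.2.2.1 < 9 ∧ (e.1, e.2.1) ≠ (e.2.2.1, e.2.2.2) := by decide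

lemma ue_ne : ∀ e ∈ UE, e.1 ≠ e.2 := by decide

lemma edgeB_iff {n : ℕ} {cs : List (List ℕ)} {u w : V3} (hu : Box n cs u) (hw : Box n cs w) :
    EdgeB cs u w = true ↔ Edge n cs u w := by
  obtain ⟨y, m, a⟩ := u
  obtain ⟨y', m', b⟩ := w
  obtain ⟨u1, u2, u3⟩ := hu
  obtain ⟨w1, w2, w3⟩ := hw
  simp only at u1 u2 u3 w1 w2 w3
  simp only [EdgeB, Bool.or_eq_true, Bool.and_eq_true, decide_eq_true_eq, List.mem_cons,
    List.not_mem_nil, or_false, Prod.mk.injEq]
  constructor
  · rintro (((⟨⟨rfl, rfl⟩, h⟩ | ⟨⟨⟨rfl, h1⟩, rfl⟩, h⟩) | ⟨⟨⟨⟨rfl, rfl⟩, rfl⟩, h1⟩, h⟩) |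
      ⟨⟨⟨rfl, rfl⟩, h1⟩, h⟩)
    · exact .int _ _ _ _ u1 u2 h
    · obtain ⟨x, rfl⟩ : ∃ x, y = x + 1 := ⟨y - 1, by omega⟩
      rcases h with ⟨rfl, rfl⟩ | ⟨rfl, rfl⟩
      · exact .ch1 _ _ (by omega) w2
      · exact .ch2 _ _ (by omega) w2
    · rcases h with ⟨rfl, rfl⟩ | ⟨rfl, rfl⟩
      · exact .up1 _ u2 h1
      · exact .up2 _ u2 h1
    · have := Edge.gad (n := n) (cs := cs) (m / 9) _ _ _ _ (by omega) h
      rwa [Nat.div_add_mod, h1, Nat.div_add_mod] at this
  · intro h
    cases h with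
    | int y m a b hy hm he => exact Or.inl (Or.inl (Or.inl ⟨⟨rfl, rfl⟩, he⟩))
    | ch1 x m hx hm => exact Or.inl (Or.inl (Or.inr ⟨⟨⟨rfl, by omega⟩, rfl⟩, Or.inl ⟨rfl, rfl⟩⟩))
    | ch2 x m hx hm => exact Or.inl (Or.inl (Or.inr ⟨⟨⟨rfl, by omega⟩, rfl⟩, Or.inr ⟨rfl, rfl⟩⟩))
    | up1 m hm h4 => exact Or.inl (Or.inr ⟨⟨⟨⟨rfl, rfl⟩, rfl⟩, h4⟩, Or.inl ⟨rfl, rfl⟩⟩)
    | up2 m hm h4 => exact Or.inl (Or.inr ⟨⟨⟨⟨rfl, rfl⟩, rfl⟩, h4⟩, Or.inr ⟨rfl, rfl⟩⟩)
    | gad t j f j' f' ht he =>
      obtain ⟨h1, h2, -⟩ := ge_table' _ he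
      simp only at h1 h2
      refine Or.inr ⟨⟨⟨rfl, rfl⟩, by omega⟩, ?_⟩
      rwa [show (9 * t + j) % 9 = j by omega, show (9 * t + j') % 9 = j' by omega]

lemma Edge.ne {n : ℕ} {cs : List (List ℕ)} {u w : V3} (h : Edge n cs u w) : u ≠ w := by
  cases h with
  | int y m a b hy hm he => have := ue_ne _ he; simpa using this
  | ch1 x m hx hm => simp
  | ch2 x m hx hm => simp
  | up1 m hm h4 => simp
  | up2 m hm h4 => simp
  | gad t j f j' f' ht he => have := (ge_table' _ he).2.2; simpa using this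

def dec3 (W i : ℕ) : V3 := (i / 40 / W, i / 40 % W, i % 40)

def size3 (n : ℕ) (cs : List (List ℕ)) : ℕ := (n + 1) * (9 * cs.length) * 40

lemma dec3_box {n : ℕ} {cs : List (List ℕ)} {i : ℕ} (h : i < size3 n cs) :
    Box n cs (dec3 (9 * cs.length) i) := by
  unfold size3 at h
  have h1 : i / 40 < (n + 1) * (9 * cs.length) := by omega
  have h2 : 0 < 9 * cs.length := Nat.pos_of_mul_pos_left (lt_of_le_of_lt (Nat.zero_le _) h1)
  refine ⟨?_, Nat.mod_lt _ h2, Nat.mod_lt _ (by norm_num)⟩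
  exact Nat.lt_succ_iff.1 ((Nat.div_lt_iff_lt_mul h2).2 h1)

lemma dec3_inj {W i j : ℕ} (h : dec3 W i = dec3 W j) : i = j := by
  simp only [dec3, Prod.mk.injEq] at h
  obtain ⟨h1, h2, h3⟩ := h
  have e1 := Nat.div_add_mod (i / 40) W
  have e2 := Nat.div_add_mod (j / 40) W
  rw [h1, h2, e2] at e1
  omega

lemma dec3_surj {n : ℕ} {cs : List (List ℕ)} {u : V3} (h : Box n cs u) :
    ∃ i < size3 n cs, dec3 (9 * cs.length) i = u := by
  obtain ⟨y, m, v⟩ := u
  obtain ⟨h1, h2, h3⟩ := h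
  simp only at h1 h2 h3
  refine ⟨(y * (9 * cs.length) + m) * 40 + v, ?_, ?_⟩
  · unfold size3
    have := Nat.mul_le_mul_right (9 * cs.length) h1
    rw [add_mul n 1, one_mul]
    omega
  · unfold dec3
    rw [show ((y * (9 * cs.length) + m) * 40 + v) / 40 = y * (9 * cs.length) + m by omega,
      show ((y * (9 * cs.length) + m) * 40 + v) % 40 = v by omega, add_comm,
      Nat.add_mul_div_right _ _ (by omega), Nat.div_eq_of_lt h2, Nat.add_mul_mod_self_right,
      Nat.mod_eq_of_lt h2, zero_add]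

def gadGraph (n : ℕ) (cs : List (List ℕ)) : SimpleGraph (Fin (size3 n cs)) where
  Adj i j := Adj n cs (dec3 (9 * cs.length) i) (dec3 (9 * cs.length) j)
  symm := ⟨fun _ _ h => h.symm⟩
  loopless := ⟨fun _ h => h.elim (fun e => e.ne rfl) (fun e => e.ne rfl)⟩

def matrix (n : ℕ) (cs : List (List ℕ)) : List Bool :=
  (List.range (size3 n cs * size3 n cs)).map fun k =>
    EdgeB cs (dec3 (9 * cs.length) (k / size3 n cs)) (dec3 (9 * cs.length) (k % size3 n cs)) ||
    EdgeB cs (dec3 (9 * cs.length) (k % size3 n cs)) (dec3 (9 * cs.length) (k / size3 n cs))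

lemma matrix_eq (n : ℕ) (cs : List (List ℕ)) : matrix n cs = adjBits (gadGraph n cs) := by
  rw [adjBits_eq (gadGraph n cs) (fun i j => EdgeB cs (dec3 (9 * cs.length) i)
    (dec3 (9 * cs.length) j) || EdgeB cs (dec3 (9 * cs.length) j) (dec3 (9 * cs.length) i))]
  · rfl
  · intro i j
    rw [Bool.or_eq_true, edgeB_iff (dec3_box i.2) (dec3_box j.2),
      edgeB_iff (dec3_box j.2) (dec3_box i.2)]
    rfl

theorem drawC_iff (strict : Bool) {n : ℕ} {cs : List (List ℕ)} (hv : VarsOK n cs)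
    (hal : Aligned n cs) : DrawC strict (gadGraph n cs) ↔ Solvable n cs := by
  constructor
  · rintro ⟨q, h1, h2, -⟩
    have key : ∀ u : V3, ∃ z : ℂ, Box n cs u →
        ∃ i : Fin (size3 n cs), dec3 (9 * cs.length) i = u ∧ z = q i := by
      intro u
      by_cases hu : Box n cs u
      · obtain ⟨i, hi, e⟩ := dec3_surj hu
        exact ⟨q ⟨i, hi⟩, fun _ => ⟨⟨i, hi⟩, e, rfl⟩⟩
      · exact ⟨0, fun h => absurd h hu⟩
    choose p hp using key
    refine sound (p := p) hv hal ⟨fun u w hu hw e => ?_, fun v a b ha hb hab => ?_⟩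
    · obtain ⟨i, e1, e2⟩ := hp u hu
      obtain ⟨j, e3, e4⟩ := hp w hw
      rw [e2, e4] at e
      rw [← e1, ← e3, h1 e]
    · have bv : Box n cs v := ha.elim (fun e => (e.box hv).1) (fun e => (e.box hv).2)
      have ba : Box n cs a := ha.elim (fun e => (e.box hv).2) (fun e => (e.box hv).1)
      have bb : Box n cs b := hb.elim (fun e => (e.box hv).2) (fun e => (e.box hv).1)
      obtain ⟨i, rfl, e2⟩ := hp v bv
      obtain ⟨j, rfl, e4⟩ := hp a ba
      obtain ⟨k, rfl, e6⟩ := hp b bb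
      rw [e2, e4, e6]
      exact h2 i j k ha hb fun e => hab (by rw [e])
  · intro hs
    obtain ⟨p, hp, hst⟩ := complete hv hs
    refine ⟨fun i => p (dec3 (9 * cs.length) i), fun i j e => ?_, fun v a b ha hb hab => ?_,
      fun _ a b z hab hza hzb => ?_⟩
    · exact Fin.ext (dec3_inj (hp.inj _ _ (dec3_box i.2) (dec3_box j.2) e))
    · exact hp.sep _ _ _ ha hb fun e => hab (Fin.ext (dec3_inj e))
    · have e1 : dec3 (9 * cs.length) z ≠ dec3 (9 * cs.length) a :=
        fun e => hza (Fin.ext (dec3_inj e))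
      have e2 : dec3 (9 * cs.length) z ≠ dec3 (9 * cs.length) b :=
        fun e => hzb (Fin.ext (dec3_inj e))
      rcases hab with h | h
      · exact hst _ _ _ h (dec3_box z.2) e1 e2
      · rw [segment_symm]; exact hst _ _ _ h (dec3_box z.2) e2 e1

variable {α : Type} [N487b59b3 α]

@[fun_prop] theorem pt_edgeB {c : α → List (List ℕ)} {u w : α → V3} (hc : PT c) (hu : PT u)
    (hw : PT w) : PT fun a => EdgeB (c a) (u a) (w a) := by
  unfold EdgeB var; fun_prop

theorem pt_matrix {n : α → ℕ} {c : α → List (List ℕ)} (hn : PT fun a => un (n a)) (hc : PT c) :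
    PT fun a => matrix (n a) (c a) := by
  have h1 : PT fun a => un (size3 (n a) (c a)) := by unfold size3; fun_prop
  have key : ∀ (N : α → ℕ) (l : α → List ℕ), PT N → PT l → PT fun a => (l a).map fun k =>
      EdgeB (c a) (dec3 (9 * (c a).length) (k / N a)) (dec3 (9 * (c a).length) (k % N a)) ||
      EdgeB (c a) (dec3 (9 * (c a).length) (k % N a)) (dec3 (9 * (c a).length) (k / N a)) := by
    intro N l hN hl
    unfold dec3
    fun_prop
  exact key _ _ h1.of_un (h1.un_mul h1).range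

/-- The equations attached to a bit string. -/
def system (w : List Bool) : List Con :=
  if N487b59b3.bitEncode ((N487b59b3.bitDecode w : Option (List Tok)).getD []) = w then
    compile ((N487b59b3.bitDecode w : Option (List Tok)).getD []) else [(0, 0, 0, 0)]

def nreg (w : List Bool) : ℕ :=
  ((N487b59b3.bitDecode w : Option (List Tok)).getD []).length + 5 + (system w).length

def reduce (w : List Bool) : List Bool :=
  matrix (nvar (nreg w) (system w)) (tuples (nreg w) (system w))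

lemma system_bd (w : List Bool) : Bd (nreg w) (system w) := by
  unfold nreg system
  split_ifs
  · exact compile_bd _
  · simp [Bd]

lemma system_iff (w : List Bool) :
    (∃ r : ℕ → ℝ, r 0 = 1 ∧ Sat (system w) r) ↔ ETR w = true := by
  simp only [ETR, decide_eq_true_eq]
  unfold system
  split_ifs with h
  · rw [compile_iff]
    refine exists_congr fun φ => and_congr_left fun _ => ⟨fun e => ?_, fun e => ?_⟩
    · rw [← e, h]
    · rw [e]; simp
  · constructor
    · rintro ⟨r, h0, hs⟩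
      exact absurd hs (not_sat (by simp) h0)
    · rintro ⟨φ, rfl, -⟩
      simp at h

theorem pt_reduce : PT reduce := by
  have h0 : PT fun w : List Bool => (N487b59b3.bitDecode w : Option (List Tok)).getD [] := by
    fun_prop
  have h1 : PT system := by unfold system; fun_prop
  have h2 : PT fun w => un (nreg w) := by unfold nreg; fun_prop
  exact pt_matrix (pt_un_nvar h2 h1) (pt_tuples h2 h1)

theorem hardness (strict : Bool) : N793a5b8e.ManyOneReducible ETR (AR strict (π / 3)) := by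
  refine ⟨reduce, pt_reduce.isPolyTime, fun w => ?_⟩
  have hN : 0 < nreg w := by unfold nreg; omega
  rw [Bool.eq_iff_iff, ← system_iff, ← tuples_solvable hN (system_bd w), reduce, matrix_eq,
    AR_adjBits, drawC_iff strict (tuples_varsOK hN (system_bd w)) (tuples_aligned _ _)]

end Pool.Agent.MP_aca74d_lc.H29
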