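import Mathlib
import Pool.Agent.MP_aca74d_lc.H29.Matrix

/-!
The angular resolution problem reduces to the existential theory of the reals.
-/

namespace Pool.Agent.MP_aca74d_lc.H29

open Classical Pool.Agent.Shared.H56 Real

instance : N487b59b3 Term :=
  N487b59b3.ofLeftInverse Term.code (fun L => (parse L).map fun st => (st.headD dT).tm)
    fun t => by rw [parse, run_term]; rfl

instance : N487b59b3 Formula :=
  N487b59b3.ofLeftInverse Formula.code (fun L => (parse L).map fun st => (st.headD dT).fm)
    fun φ => by rw [parse_code]; rfl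

variable {α : Type} [N487b59b3 α]

theorem pt_tcode {t : α → Term} : PT t ↔ PT fun a => (t a).code := Iff.rfl
theorem pt_fcode {t : α → Formula} : PT t ↔ PT fun a => (t a).code := Iff.rfl

@[fun_prop] theorem pt_tvar {i : α → ℕ} (h : PT i) : PT fun a => Term.var (i a) := by
  rw [pt_tcode]; simp only [Term.code]; fun_prop

@[fun_prop] theorem pt_tadd {s t : α → Term} (hs : PT s) (ht : PT t) :
    PT fun a => Term.add (s a) (t a) :=
  pt_tcode.2 (((pt_tcode.1 hs).append (pt_tcode.1 ht)).append (PT.const _))

@[fun_prop] theorem pt_tmul {s t : α → Term} (hs : PT s) (ht : PT t) :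
    PT fun a => Term.mul (s a) (t a) :=
  pt_tcode.2 (((pt_tcode.1 hs).append (pt_tcode.1 ht)).append (PT.const _))

@[fun_prop] theorem pt_feq {s t : α → Term} (hs : PT s) (ht : PT t) :
    PT fun a => Formula.eq (s a) (t a) :=
  pt_fcode.2 (((pt_tcode.1 hs).append (pt_tcode.1 ht)).append (PT.const _))

@[fun_prop] theorem pt_fle {s t : α → Term} (hs : PT s) (ht : PT t) :
    PT fun a => Formula.le (s a) (t a) :=
  pt_fcode.2 (((pt_tcode.1 hs).append (pt_tcode.1 ht)).append (PT.const _))

@[fun_prop] theorem pt_fnot {s : α → Formula} (hs : PT s) : PT fun a => Formula.not (s a) :=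
  pt_fcode.2 ((pt_fcode.1 hs).append (PT.const _))

@[fun_prop] theorem pt_fand {s t : α → Formula} (hs : PT s) (ht : PT t) :
    PT fun a => Formula.and (s a) (t a) :=
  pt_fcode.2 (((pt_fcode.1 hs).append (pt_fcode.1 ht)).append (PT.const _))

@[fun_prop] theorem pt_for {s t : α → Formula} (hs : PT s) (ht : PT t) :
    PT fun a => Formula.or (s a) (t a) :=
  pt_fcode.2 (((pt_fcode.1 hs).append (pt_fcode.1 ht)).append (PT.const _))

def ftrue : Formula := .le (.const 0) (.const 0)
def ffalse : Formula := .lt (.const 0) (.const 0)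

def conj (l : List Formula) : Formula := l.foldl .and ftrue

lemma conj_code (l : List Formula) : ∀ ψ : Formula, (l.foldl .and ψ).code =
    ψ.code ++ l.flatMap fun φ => φ.code ++ [(8, 0)] := by
  induction l with
  | nil => simp
  | cons φ l ih => intro ψ; simp [ih, Formula.code]

lemma conj_holds (x : ℕ → ℝ) (l : List Formula) : ∀ ψ : Formula, (l.foldl .and ψ).Holds x ↔
    ψ.Holds x ∧ ∀ φ ∈ l, φ.Holds x := by
  induction l with
  | nil => simp
  | cons φ l ih => intro ψ; simp [ih, Formula.Holds, and_assoc]

@[fun_prop] theorem pt_conj {l : α → List Formula} (h : PT l) : PT fun a => conj (l a) := by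
  rw [pt_fcode]
  simp only [conj, conj_code]
  exact (PT.const _).append (PT.flatMap ((pt_fcode.1 PT.id'.snd).append (PT.const _)) h)

def dX (a v : ℕ) : Term := .add (.var (2 * a)) (.mul (.const (-1)) (.var (2 * v)))
def dY (a v : ℕ) : Term := .add (.var (2 * a + 1)) (.mul (.const (-1)) (.var (2 * v + 1)))
def dot (v a b : ℕ) : Term := .add (.mul (dX a v) (dX b v)) (.mul (dY a v) (dY b v))

def distF (v a : ℕ) : Formula :=
  .not (.and (.eq (.var (2 * v)) (.var (2 * a))) (.eq (.var (2 * v + 1)) (.var (2 * a + 1))))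

def sepF (v a b : ℕ) : Formula :=
  .or (.le (dot v a b) (.const 0))
    (.le (.mul (.const 4) (.mul (dot v a b) (dot v a b))) (.mul (dot v a a) (dot v b b)))

def segF (z a b : ℕ) : Formula :=
  .not (.and (.eq (.mul (dX a z) (dY b z)) (.mul (dY a z) (dX b z))) (.le (dot z a b) (.const 0)))

def ent (w : List Bool) (n i j : ℕ) : Bool := w.getD (i * n + j) false

def clause (strict : Bool) (w : List Bool) (n v a b : ℕ) : Formula :=
  .and (.and (if v = a then ftrue else distF v a)
    (bif ent w n v a && ent w n v b && decide (a ≠ b) then sepF v a b else ftrue))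
    (bif strict && ent w n a b && decide (v ≠ a) && decide (v ≠ b) then segF v a b else ftrue)

def allF (strict : Bool) (w : List Bool) (n : ℕ) (l : List ℕ) : Formula :=
  conj (l.flatMap fun v => l.flatMap fun a => l.map fun b => clause strict w n v a b)

def cpt (x : ℕ → ℝ) (i : ℕ) : ℂ := ⟨x (2 * i), x (2 * i + 1)⟩

lemma ftrue_holds (x : ℕ → ℝ) : ftrue.Holds x := by simp [ftrue, Formula.Holds]

lemma distF_holds (x : ℕ → ℝ) (v a : ℕ) : (distF v a).Holds x ↔ cpt x v ≠ cpt x a := by
  simp [distF, Formula.Holds, Term.eval, cpt, Complex.ext_iff]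

lemma sepF_holds (x : ℕ → ℝ) (v a b : ℕ) :
    (sepF v a b).Holds x ↔ Sep (cpt x a - cpt x v) (cpt x b - cpt x v) := by
  rw [sep_iff]
  simp only [sepF, dot, dX, dY, Formula.Holds, Term.eval, cpt, Complex.sub_re, Complex.sub_im]
  push_cast
  simp only [neg_one_mul, ← sub_eq_add_neg]

lemma segF_holds (x : ℕ → ℝ) (z a b : ℕ) :
    (segF z a b).Holds x ↔ cpt x z ∉ segment ℝ (cpt x a) (cpt x b) := by
  rw [mem_segment_iff]
  simp only [segF, dot, dX, dY, Formula.Holds, Term.eval, cpt]
  push_cast
  refine not_congr (and_congr ⟨fun h => ?_, fun h => ?_⟩ ⟨fun h => ?_, fun h => ?_⟩) <;> linarith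

lemma allF_iff (strict : Bool) {n : ℕ} (G : SimpleGraph (Fin n)) :
    (∃ x : ℕ → ℝ, (allF strict (adjBits G) n (List.range n)).Holds x) ↔ DrawC strict G := by
  have hA : ∀ i j : Fin n, ent (adjBits G) n i j = true ↔ G.Adj i j :=
    fun i j => ((adjBits_spec G).2 i j).symm
  have key : ∀ x : ℕ → ℝ, (allF strict (adjBits G) n (List.range n)).Holds x ↔
      ∀ v a b : Fin n, (v ≠ a → cpt x v ≠ cpt x a) ∧
        (G.Adj v a → G.Adj v b → a ≠ b → Sep (cpt x a - cpt x v) (cpt x b - cpt x v)) ∧
        (strict = true → G.Adj a b → v ≠ a → v ≠ b → cpt x v ∉ segment ℝ (cpt x a) (cpt x b)) := by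
    intro x
    have e : ∀ v a b : Fin n, (clause strict (adjBits G) n v a b).Holds x ↔
        (v ≠ a → cpt x v ≠ cpt x a) ∧
        (G.Adj v a → G.Adj v b → a ≠ b → Sep (cpt x a - cpt x v) (cpt x b - cpt x v)) ∧
        (strict = true → G.Adj a b → v ≠ a → v ≠ b → cpt x v ∉ segment ℝ (cpt x a) (cpt x b)) := by
      intro v a b
      rw [← distF_holds, ← sepF_holds, ← segF_holds]
      simp only [clause, Formula.Holds, and_assoc, ← hA, ne_eq, ← Fin.val_inj]
      refine and_congr ?_ (and_congr ?_ ?_)
      · by_cases h : (v : ℕ) = a <;> simp [h, ftrue_holds]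
      · cases ent (adjBits G) n v a <;> cases ent (adjBits G) n v b <;>
          by_cases h : (a : ℕ) = b <;> simp [h, ftrue_holds]
      · cases strict <;> cases ent (adjBits G) n a b <;> by_cases h : (v : ℕ) = a <;>
          by_cases h' : (v : ℕ) = b <;> simp [h, h', ftrue_holds]
    simp only [allF, conj, conj_holds, ftrue_holds, true_and, List.mem_flatMap, List.mem_map,
      List.mem_range, ← e]
    constructor
    · intro h v a b
      exact h _ ⟨v, v.2, a, a.2, b, b.2, rfl⟩
    · rintro h φ ⟨v, hv, a, ha, b, hb, rfl⟩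
      exact h ⟨v, hv⟩ ⟨a, ha⟩ ⟨b, hb⟩
  simp only [key]
  constructor
  · rintro ⟨x, h⟩
    refine ⟨fun i => cpt x i, fun i j e => ?_, fun v a b => (h v a b).2.1,
      fun hs a b z => (h z a b).2.2 hs⟩
    by_contra hn
    exact (h i j j).1 hn e
  · rintro ⟨q, h1, h2, h3⟩
    let x : ℕ → ℝ := fun k => if h : k / 2 < n then
      (if k % 2 = 0 then (q ⟨k / 2, h⟩).re else (q ⟨k / 2, h⟩).im) else 0
    have e : ∀ i : Fin n, cpt x i = q i := by
      intro i
      have e1 : 2 * (i : ℕ) / 2 = i := by omega
      have e2 : (2 * (i : ℕ) + 1) / 2 = i := by omega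
      refine Complex.ext ?_ ?_
      · simp [cpt, x, e1]
      · simp [cpt, x, e2]
    refine ⟨x, fun v a b => ?_⟩
    simp only [e]
    exact ⟨fun h => h1.ne h, h2 v a b, fun hs => h3 hs a b v⟩

def side (w : List Bool) : ℕ :=
  ((List.range (w.length + 1)).filter fun n => decide (n * n = w.length)).headD 0

def okB (w : List Bool) (n : ℕ) (l : List ℕ) : Bool :=
  decide (n * n = w.length) && l.all fun i => (!ent w n i i) && l.all fun j =>
    decide (ent w n i j = ent w n j i)

def toF (strict : Bool) (w : List Bool) : Formula :=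
  bif okB w (side w) (List.range (side w)) then allF strict w (side w) (List.range (side w))
  else ffalse

lemma side_le (w : List Bool) : side w ≤ w.length := by
  unfold side
  cases h : (List.range (w.length + 1)).filter fun n => decide (n * n = w.length) with
  | nil => simp
  | cons a l =>
    have : a ∈ (List.range (w.length + 1)).filter fun n => decide (n * n = w.length) := by
      rw [h]; exact List.mem_cons_self
    have := List.mem_range.1 (List.mem_filter.1 this).1
    simp only [List.headD_cons]; omega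

lemma side_eq {w : List Bool} {n : ℕ} (h : w.length = n * n) : side w = n := by
  unfold side
  have hn : n ∈ (List.range (w.length + 1)).filter fun n => decide (n * n = w.length) := by
    simp only [List.mem_filter, List.mem_range, decide_eq_true_eq, h, and_true]
    nlinarith [Nat.le_mul_self n]
  cases e : (List.range (w.length + 1)).filter fun n => decide (n * n = w.length) with
  | nil => rw [e] at hn; simp at hn
  | cons a l =>
    have : a ∈ (List.range (w.length + 1)).filter fun n => decide (n * n = w.length) := by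
      rw [e]; exact List.mem_cons_self
    have := (List.mem_filter.1 this).2
    simp only [decide_eq_true_eq, h] at this
    exact Nat.mul_self_inj.1 this

lemma okB_adjBits {n : ℕ} (G : SimpleGraph (Fin n)) : okB (adjBits G) n (List.range n) = true := by
  obtain ⟨h1, h2⟩ := adjBits_spec G
  simp only [okB, Bool.and_eq_true, decide_eq_true_eq, List.all_eq_true, List.mem_range, h1,
    true_and, Bool.not_eq_true']
  intro i hi
  refine ⟨?_, fun j hj => ?_⟩
  · have := h2 ⟨i, hi⟩ ⟨i, hi⟩
    simpa [ent] using this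
  · rw [Bool.eq_iff_iff]
    exact (h2 ⟨i, hi⟩ ⟨j, hj⟩).symm.trans ((G.adj_comm _ _).trans (h2 ⟨j, hj⟩ ⟨i, hi⟩))

lemma okB_exists {w : List Bool} {n : ℕ} (h : okB w n (List.range n) = true) :
    ∃ G : SimpleGraph (Fin n), w = adjBits G := by
  simp only [okB, Bool.and_eq_true, decide_eq_true_eq, List.all_eq_true, List.mem_range,
    Bool.not_eq_true'] at h
  obtain ⟨h1, h2⟩ := h
  let G : SimpleGraph (Fin n) :=
    { Adj := fun i j => ent w n i j = true
      symm := ⟨fun i j h => by rw [← (h2 i i.2).2 j j.2]; exact h⟩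
      loopless := ⟨fun i h => by simp [(h2 i i.2).1] at h⟩ }
  refine ⟨G, ?_⟩
  rw [adjBits_eq G (ent w n) fun _ _ => Iff.rfl]
  refine List.ext_getElem (by simp [h1]) fun k hk _ => ?_
  simp only [List.getElem_map, List.getElem_range, ent]
  rw [Nat.div_add_mod', List.getD_eq_getElem _ _ hk]

lemma toF_iff (strict : Bool) (w : List Bool) :
    AR strict (π / 3) w = true ↔ ∃ x : ℕ → ℝ, (toF strict w).Holds x := by
  unfold toF
  cases h : okB w (side w) (List.range (side w)) with
  | true =>
    obtain ⟨G, hG⟩ := okB_exists h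
    generalize side w = n at G hG
    subst hG
    rw [AR_adjBits, ← allF_iff]
    rfl
  | false =>
    simp only [AR, decide_eq_true_eq, cond_false, ffalse, Formula.Holds, lt_self_iff_false,
      exists_false, iff_false]
    rintro ⟨n, G, rfl, -⟩
    rw [side_eq (adjBits_spec G).1, okB_adjBits] at h
    exact absurd h (by simp)

@[fun_prop] theorem pt_dX {u v : α → ℕ} (hu : PT u) (hv : PT v) : PT fun a => dX (u a) (v a) := by
  unfold dX; fun_prop

@[fun_prop] theorem pt_dY {u v : α → ℕ} (hu : PT u) (hv : PT v) : PT fun a => dY (u a) (v a) := by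
  unfold dY; fun_prop

@[fun_prop] theorem pt_dot {u v w : α → ℕ} (hu : PT u) (hv : PT v) (hw : PT w) :
    PT fun a => dot (u a) (v a) (w a) := by
  unfold dot; fun_prop

@[fun_prop] theorem pt_ent {w : α → List Bool} {n i j : α → ℕ} (hw : PT w) (hn : PT n) (hi : PT i)
    (hj : PT j) : PT fun a => ent (w a) (n a) (i a) (j a) := by
  unfold ent; fun_prop

@[fun_prop] theorem pt_clause (strict : Bool) {w : α → List Bool} {n i j k : α → ℕ} (hw : PT w)
    (hn : PT n) (hi : PT i) (hj : PT j) (hk : PT k) :
    PT fun a => clause strict (w a) (n a) (i a) (j a) (k a) := by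
  unfold clause distF sepF segF; fun_prop

theorem pt_toF (strict : Bool) : PT (toF strict) := by
  have key : ∀ (n : List Bool → ℕ) (l : List Bool → List ℕ), PT n → PT l →
      PT fun w => bif okB w (n w) (l w) then allF strict w (n w) (l w) else ffalse := by
    intro n l hn hl
    unfold okB allF
    fun_prop
  have h1 : PT side := by unfold side; fun_prop
  have h2 : PT fun w => un (side w) := h1.un_of_le (PT.un_length PT.id') side_le
  exact key _ _ h1 h2.range

theorem membership (strict : Bool) : AR strict (π / 3) ∈ ExistsR := by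
  refine ⟨fun w => N487b59b3.bitEncode (toF strict w).code,
    (pt_fcode.1 (pt_toF strict)).bitEncode.isPolyTime, fun w => ?_⟩
  rw [Bool.eq_iff_iff, ETR_code, toF_iff]

theorem complete_for (strict : Bool) :
    N793a5b8e.IsCompleteFor ExistsR (AR strict (π / 3)) :=
  ⟨membership strict, fun _ h => manyOneReducible_trans h (hardness strict)⟩

end Pool.Agent.MP_aca74d_lc.H29
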